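import Pool.Agent.helper90.Zp.Ray3

open scoped Polynomial WithZero

set_option linter.unusedSectionVars false

namespace Pool.Agent.helper90.Zp

section

variable {k F : Type*} [Field k] [Field F] [Algebra k F] [IsFunctionField k F]

theorem card_eff_eq [Finite k] (d : ℕ) :
    Nat.card {D : Place k F →₀ ℕ // (D.sum fun v m => m * v.deg) = d} =
      Set.ncard (Eff (∅ : Finset (Place k F)) d) := by
  have h1 : Eff (∅ : Finset (Place k F)) d =
      toZ '' {D : Place k F →₀ ℕ | (D.sum fun v m => m * v.deg) = d} := by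
    ext D
    constructor
    · rintro ⟨h0, -, hd⟩
      obtain ⟨E, rfl⟩ := exists_toZ_eq h0
      refine ⟨E, ?_, rfl⟩
      rw [degD_toZ] at hd
      exact_mod_cast hd
    · rintro ⟨E, hE, rfl⟩
      refine ⟨toZ_nonneg E, by simp, ?_⟩
      rw [degD_toZ]
      exact_mod_cast hE
  rw [h1, Set.ncard_image_of_injective _ toZ_injective]
  rfl

theorem card_LSpace_le [Finite k] (D : Place k F →₀ ℤ) :
    Nat.card (LSpace D) ≤ 1 + Nat.card (LSpace (0 : Place k F →₀ ℤ)) *
      Set.ncard (Eff (∅ : Finset (Place k F)) (degD D)) := by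
  classical
  have hfin : ((LSpace D : Submodule k F) : Set F).Finite := by
    have : Finite (LSpace D) := Module.finite_of_finite k
    exact this
  have hfin0 : ((LSpace (0 : Place k F →₀ ℤ) : Submodule k F) : Set F).Finite := by
    have : Finite (LSpace (0 : Place k F →₀ ℤ)) := Module.finite_of_finite k
    exact this
  set s := hfin.toFinset.erase 0 with hs
  have hcard : Nat.card (LSpace D) = 1 + s.card := by
    rw [hs, Finset.card_erase_of_mem (by rw [Set.Finite.mem_toFinset]; exact Submodule.zero_mem _)]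
    have h1 : Nat.card (LSpace D) = hfin.toFinset.card := by
      rw [← Set.ncard_eq_toFinset_card _ hfin]
      rfl
    have h2 : 0 < hfin.toFinset.card :=
      Finset.card_pos.mpr ⟨0, by rw [Set.Finite.mem_toFinset]; exact Submodule.zero_mem _⟩
    omega
  have hcard0 : Nat.card (LSpace (0 : Place k F →₀ ℤ)) = hfin0.toFinset.card := by
    rw [← Set.ncard_eq_toFinset_card _ hfin0]
    rfl
  rw [hcard, hcard0]
  have hmem : ∀ f, f ∈ s ↔ f ≠ 0 ∧ f ∈ LSpace D := by
    intro f
    rw [hs, Finset.mem_erase, Set.Finite.mem_toFinset]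
    rfl
  have hle := Finset.card_le_mul_card_image (s := s) (f := fun f => D + divisor k f)
    hfin0.toFinset.card (by
      intro E hE
      obtain ⟨f0, hf0, rfl⟩ := Finset.mem_image.mp hE
      rw [hmem] at hf0
      apply Finset.card_le_card_of_injOn (fun f => f * f0⁻¹)
      · intro f hf
        simp only [Finset.coe_filter, Set.mem_ofPred_eq, hmem] at hf
        obtain ⟨⟨hf1, hf2⟩, hf3⟩ := hf
        have hf3 : divisor k f = divisor k f0 := add_left_cancel hf3
        simp only [Set.Finite.coe_toFinset]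
        change f * f0⁻¹ ∈ LSpace (0 : Place k F →₀ ℤ)
        rw [mem_LSpace_iff_ord (mul_ne_zero hf1 (inv_ne_zero hf0.1)),
          divisor_mul hf1 (inv_ne_zero hf0.1), divisor_inv, hf3, add_neg_cancel, add_zero]
      · intro f _ g _ h
        exact mul_right_cancel₀ (inv_ne_zero hf0.1) h)
  have himg : (s.image (fun f => D + divisor k f)).card ≤
      Set.ncard (Eff (∅ : Finset (Place k F)) (degD D)) := by
    rw [← Set.ncard_coe_finset]
    apply Set.ncard_le_ncard _ (finite_Eff _ _)
    intro E hE
    obtain ⟨f, hf, rfl⟩ := Finset.mem_image.mp (Finset.mem_coe.mp hE)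
    rw [hmem] at hf
    refine ⟨?_, by simp, ?_⟩
    · rw [add_comm]
      exact (mem_LSpace_iff_ord hf.1).mp hf.2
    · rw [degD_add, degD_divisor hf.1, add_zero]
  calc 1 + s.card ≤ 1 + hfin0.toFinset.card * (s.image (fun f => D + divisor k f)).card := by
        gcongr
    _ ≤ _ := by gcongr

variable (k F) in
theorem nonempty_place : Nonempty (Place k F) := by
  obtain ⟨t, ht, -⟩ := IsFunctionField.exists_transcendental (k := k) (F := F)
  obtain ⟨v, -⟩ := Place.exists_of_transcendental' t ht
  exact ⟨v⟩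

variable (k F) in
/-- the number of effective divisors of degree `d` is unbounded -/
theorem exists_large_coeff [Finite k] (B d0 : ℕ) :
    ∃ d : ℕ, d0 ≤ d ∧ B < Nat.card {D : Place k F →₀ ℕ // (D.sum fun v m => m * v.deg) = d} := by
  classical
  obtain ⟨v⟩ := nonempty_place k F
  obtain ⟨g, c1, hR, -⟩ := exists_riemann k F
  set C := Nat.card (LSpace (0 : Place k F →₀ ℤ)) with hC
  have hq : 1 < Nat.card k := Finite.one_lt_card
  obtain ⟨n0, hn0⟩ : ∃ n0 : ℕ, 1 + C * B < Nat.card k ^ n0 :=
    ⟨1 + C * B, Nat.lt_pow_self hq⟩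
  set n : ℕ := n0 + g.toNat + d0 with hn
  have hdeg := v.deg_pos
  refine ⟨n * v.deg, ?_, ?_⟩
  · calc d0 ≤ n := by omega
      _ = n * 1 := (mul_one n).symm
      _ ≤ n * v.deg := by gcongr; omega
  · by_contra! hB
    rw [card_eff_eq] at hB
    have h1 := card_LSpace_le (Finsupp.single v (n : ℤ) : Place k F →₀ ℤ)
    rw [degD_single, show ((n : ℤ) * (v.deg : ℤ)) = ((n * v.deg : ℕ) : ℤ) by push_cast; ring,
      Module.natCard_eq_pow_finrank (K := k)] at h1
    have h2 := hR (Finsupp.single v (n : ℤ) : Place k F →₀ ℤ)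
    rw [degD_single] at h2
    unfold ell at h2
    have h3 : n0 ≤ Module.finrank k (LSpace (Finsupp.single v (n : ℤ) : Place k F →₀ ℤ)) := by
      have h4 : (n : ℤ) ≤ n * v.deg := by
        have : (1 : ℤ) ≤ v.deg := by exact_mod_cast hdeg
        nlinarith
      omega
    have h5 : Nat.card k ^ n0 ≤ 1 + C * B := by
      calc Nat.card k ^ n0 ≤ Nat.card k ^ Module.finrank k
            (LSpace (Finsupp.single v (n : ℤ) : Place k F →₀ ℤ)) :=
            Nat.pow_le_pow_right (by omega) h3
        _ ≤ _ := h1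
        _ ≤ 1 + C * B := by gcongr
    omega

/-- the L-polynomial does not vanish at `1 / q`. -/
theorem eval_LPolynomial_ne_zero [Finite k] {P : ℤ[X]} (hP : IsLPolynomial k F P) {R : Type*}
    [Field R] [CharZero R] :
    (P.map (Int.castRingHom R)).eval ((Nat.card k : R)⁻¹) ≠ 0 := by
  intro h0
  have hq0 : (Nat.card k : R) ≠ 0 := by
    rw [Nat.cast_ne_zero]
    have : 1 < Nat.card k := Finite.one_lt_card
    omega
  rw [← Polynomial.IsRoot.def, ← Polynomial.dvd_iff_isRoot] at h0
  obtain ⟨P1, hP1⟩ := h0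
  set Z : PowerSeries R := (zetaSeries k F).map (Int.castRingHom R) with hZ
  have h1 : ((P.map (Int.castRingHom R) : R[X]) : PowerSeries R) =
      Z * (1 - PowerSeries.X) * (1 - PowerSeries.C (Nat.card k : R) * PowerSeries.X) := by
    have h2 := congrArg (PowerSeries.map (Int.castRingHom R)) hP
    rw [Polynomial.polynomial_map_coe, h2]
    simp [hZ]
  have h2 : (1 - PowerSeries.C (Nat.card k : R) * PowerSeries.X) * (Z * (1 - PowerSeries.X)) =
      (1 - PowerSeries.C (Nat.card k : R) * PowerSeries.X) *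
        ((Polynomial.C (-(Nat.card k : R)⁻¹) * P1 : R[X]) : PowerSeries R) := by
    rw [hP1] at h1
    rw [mul_comm, ← h1]
    have h3 : (1 - PowerSeries.C (Nat.card k : R) * PowerSeries.X : PowerSeries R) =
        ((1 - Polynomial.C (Nat.card k : R) * Polynomial.X : R[X]) : PowerSeries R) := by
      push_cast
      rfl
    rw [h3, ← Polynomial.coe_mul]
    congr 1
    have h4 : (Polynomial.C (Nat.card k : R) * Polynomial.C ((Nat.card k : R)⁻¹) : R[X]) = 1 := by
      rw [← Polynomial.C_mul, mul_inv_cancel₀ hq0, Polynomial.C_1]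
    rw [map_neg]
    linear_combination (-Polynomial.X * P1) * h4
  have h3 : (1 - PowerSeries.C (Nat.card k : R) * PowerSeries.X : PowerSeries R) ≠ 0 := by
    intro h
    have := congrArg (PowerSeries.constantCoeff) h
    simp at this
  have h4 := mul_left_cancel₀ h3 h2
  -- coefficients are eventually constant
  set Q : R[X] := Polynomial.C (-(Nat.card k : R)⁻¹) * P1 with hQ
  have h5 : ∀ n : ℕ, Q.natDegree < n + 1 → PowerSeries.coeff (n + 1) Z = PowerSeries.coeff n Z := by
    intro n hn
    have h6 := congrArg (PowerSeries.coeff (n + 1)) h4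
    rw [Polynomial.coeff_coe, Polynomial.coeff_eq_zero_of_natDegree_lt hn, mul_sub, mul_one,
      map_sub, PowerSeries.coeff_succ_mul_X, sub_eq_zero] at h6
    exact h6
  have h6 : ∀ n : ℕ, PowerSeries.coeff (Q.natDegree + n) Z = PowerSeries.coeff Q.natDegree Z := by
    intro n
    induction n with
    | zero => rfl
    | succ n ih =>
      rw [← ih, ← h5 (Q.natDegree + n) (by omega)]
      rfl
  have hcoeff : ∀ d : ℕ, PowerSeries.coeff d Z =
      (Nat.card {D : Place k F →₀ ℕ // (D.sum fun v m => m * v.deg) = d} : R) := by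
    intro d
    rw [hZ, PowerSeries.coeff_map]
    unfold zetaSeries
    rw [PowerSeries.coeff_mk]
    simp
  obtain ⟨d, hd, hB⟩ := exists_large_coeff k F
    (Nat.card {D : Place k F →₀ ℕ // (D.sum fun v m => m * v.deg) = Q.natDegree}) Q.natDegree
  have h7 := h6 (d - Q.natDegree)
  rw [Nat.add_sub_of_le hd, hcoeff, hcoeff, Nat.cast_inj] at h7
  omega

end

end Pool.Agent.helper90.Zp
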