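import Mathlib

open scoped Polynomial

namespace Pool.Agent.helper90.Zp

/-- a root of unity is not the product of a root of unity and an integer `q ≥ 2` -/
theorem rootOfUnity_ne_mul {R : Type*} [Field R] [CharZero R] {q : ℕ} (hq : 2 ≤ q) {ρ σ : R}
    (hρ : ∃ N, 0 < N ∧ ρ ^ N = 1) (hσ : ∃ N, 0 < N ∧ σ ^ N = 1) : ρ ≠ q * σ := by
  obtain ⟨M, hM, hM'⟩ := hρ
  obtain ⟨N, hN, hN'⟩ := hσ
  intro h
  have h1 : ρ ^ (M * N) = (q : R) ^ (M * N) * σ ^ (M * N) := by rw [h, mul_pow]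
  rw [pow_mul, hM', one_pow, mul_comm M N, pow_mul σ, hN', one_pow, mul_one] at h1
  have h2 : ((q ^ (N * M) : ℕ) : R) = ((1 : ℕ) : R) := by
    push_cast
    exact h1.symm
  rw [Nat.cast_inj] at h2
  have h3 : 1 < q ^ (N * M) := Nat.one_lt_pow (Nat.mul_pos hN hM).ne' (by omega)
  omega

section

variable {R : Type*} [Field R] [CharZero R]

/-- the cancelled form of the comparison of zeta functions -/
theorem compare_cancel {p' : ℕ} {q : ℕ} (P0 P1 U V : R[X]) (η : R)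
    (h : P1 * U * ∏ i ∈ Finset.range (p' + 1), ((1 - Polynomial.C (η ^ i) * Polynomial.X) *
        (1 - Polynomial.C ((q : R) * η ^ i) * Polynomial.X)) =
      (1 - Polynomial.X) * (1 - Polynomial.C (q : R) * Polynomial.X) *
        ∏ i ∈ Finset.range (p' + 1), ((P0.comp (Polynomial.C (η ^ i) * Polynomial.X)) *
          (V.comp (Polynomial.C (η ^ i) * Polynomial.X)))) (x : R) :
    P1.eval x * U.eval x * ∏ i ∈ Finset.range p', ((1 - η ^ (i + 1) * x) *
        (1 - (q : R) * η ^ (i + 1) * x)) =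
      ∏ i ∈ Finset.range (p' + 1), (P0.eval (η ^ i * x) * V.eval (η ^ i * x)) := by
  have h1 : (1 - Polynomial.X : R[X]) ≠ 0 := by
    intro h
    have := congrArg (Polynomial.eval 0) h
    simp at this
  have h2 : (1 - Polynomial.C (q : R) * Polynomial.X : R[X]) ≠ 0 := by
    intro h
    have := congrArg (Polynomial.eval 0) h
    simp at this
  have h3 : P1 * U * ∏ i ∈ Finset.range p', ((1 - Polynomial.C (η ^ (i + 1)) * Polynomial.X) *
        (1 - Polynomial.C ((q : R) * η ^ (i + 1)) * Polynomial.X)) =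
        ∏ i ∈ Finset.range (p' + 1), ((P0.comp (Polynomial.C (η ^ i) * Polynomial.X)) *
          (V.comp (Polynomial.C (η ^ i) * Polynomial.X))) := by
    apply mul_left_cancel₀ (mul_ne_zero h1 h2)
    rw [← h, Finset.prod_range_succ']
    simp only [pow_zero, Polynomial.C_1, one_mul, mul_one]
    ring
  have h4 := congrArg (Polynomial.eval x) h3
  simpa [Polynomial.eval_prod] using h4

/-- case (C): `η = 1` -/
theorem compare_one {p' : ℕ} (hp : 1 ≤ p') {q : ℕ} (hq : 2 ≤ q) (P0 P1 U V : R[X])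
    (hV : V.eval ((q : R)⁻¹) ≠ 0) (hP0 : P0.eval ((q : R)⁻¹) ≠ 0)
    (h : P1 * U * ∏ i ∈ Finset.range (p' + 1), ((1 - Polynomial.C ((1 : R) ^ i) * Polynomial.X) *
        (1 - Polynomial.C ((q : R) * 1 ^ i) * Polynomial.X)) =
      (1 - Polynomial.X) * (1 - Polynomial.C (q : R) * Polynomial.X) *
        ∏ i ∈ Finset.range (p' + 1), ((P0.comp (Polynomial.C ((1 : R) ^ i) * Polynomial.X)) *
          (V.comp (Polynomial.C ((1 : R) ^ i) * Polynomial.X)))) : False := by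
  have hq0 : (q : R) ≠ 0 := by rw [Nat.cast_ne_zero]; omega
  have h1 := compare_cancel P0 P1 U V 1 h ((q : R)⁻¹)
  simp only [one_pow, one_mul, mul_one] at h1
  rw [mul_inv_cancel₀ hq0, sub_self, mul_zero, Finset.prod_const, Finset.card_range,
    zero_pow (by omega), mul_zero, Finset.prod_const] at h1
  exact pow_ne_zero _ (mul_ne_zero hP0 hV) h1.symm

/-- case (A): no power of `η` is `1` -/
theorem compare_A {p' : ℕ} {q : ℕ} (hq : 2 ≤ q) (P0 P1 U V : R[X]) {η : R}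
    (hη : ∃ N, 0 < N ∧ η ^ N = 1) (hηi : ∀ i < p', η ^ (i + 1) ≠ 1)
    (hU : U.eval ((q : R)⁻¹) ≠ 0) (hP1 : P1.eval ((q : R)⁻¹) ≠ 0)
    (h : P1 * U * ∏ i ∈ Finset.range (p' + 1), ((1 - Polynomial.C (η ^ i) * Polynomial.X) *
        (1 - Polynomial.C ((q : R) * η ^ i) * Polynomial.X)) =
      (1 - Polynomial.X) * (1 - Polynomial.C (q : R) * Polynomial.X) *
        ∏ i ∈ Finset.range (p' + 1), ((P0.comp (Polynomial.C (η ^ i) * Polynomial.X)) *
          (V.comp (Polynomial.C (η ^ i) * Polynomial.X)))) (i : ℕ) (hi : i < p' + 1) :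
    P0.eval (η ^ i * (q : R)⁻¹) ≠ 0 := by
  have hq0 : (q : R) ≠ 0 := by rw [Nat.cast_ne_zero]; omega
  have h1 := compare_cancel P0 P1 U V η h ((q : R)⁻¹)
  intro h0
  rw [Finset.prod_eq_zero (i := i) (Finset.mem_range.mpr hi) (by rw [h0, zero_mul])] at h1
  rw [mul_eq_zero, Finset.prod_eq_zero_iff] at h1
  rcases h1 with h1 | ⟨j, hj, h1⟩
  · exact mul_ne_zero hP1 hU h1
  · rw [mul_eq_zero] at h1
    rcases h1 with h1 | h1
    · have h2 : η ^ (j + 1) = (q : R) * 1 := by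
        have : η ^ (j + 1) * (q : R)⁻¹ = 1 := by linear_combination -h1
        rw [mul_inv_eq_one₀ hq0] at this
        rw [this, mul_one]
      refine rootOfUnity_ne_mul hq ?_ ⟨1, one_pos, one_pow 1⟩ h2
      obtain ⟨N, hN, hN'⟩ := hη
      exact ⟨N, hN, by rw [← pow_mul, mul_comm, pow_mul, hN', one_pow]⟩
    · apply hηi j (Finset.mem_range.mp hj)
      have h2 : (q : R) * (q : R)⁻¹ = 1 := mul_inv_cancel₀ hq0
      linear_combination (-1 : R) * h1 - η ^ (j + 1) * h2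

/-- case (B): vanishing at `η⁻¹ / q` -/
theorem compare_B {p' : ℕ} (hp : 1 ≤ p') {q : ℕ} (hq : 2 ≤ q) (P0 P1 U V : R[X]) {η : R}
    (hη : ∃ N, 0 < N ∧ η ^ N = 1)
    (hV : ∀ ρ : R, (∃ N, 0 < N ∧ ρ ^ N = 1) → V.eval (ρ * (q : R)⁻¹) ≠ 0)
    (hA : ∀ i < p', P0.eval (η ^ i * (q : R)⁻¹) ≠ 0)
    (h : P1 * U * ∏ i ∈ Finset.range (p' + 1), ((1 - Polynomial.C (η ^ i) * Polynomial.X) *
        (1 - Polynomial.C ((q : R) * η ^ i) * Polynomial.X)) =
      (1 - Polynomial.X) * (1 - Polynomial.C (q : R) * Polynomial.X) *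
        ∏ i ∈ Finset.range (p' + 1), ((P0.comp (Polynomial.C (η ^ i) * Polynomial.X)) *
          (V.comp (Polynomial.C (η ^ i) * Polynomial.X)))) :
    P0.eval (η⁻¹ * (q : R)⁻¹) = 0 := by
  have hq0 : (q : R) ≠ 0 := by rw [Nat.cast_ne_zero]; omega
  have hη0 : η ≠ 0 := by
    rintro rfl
    obtain ⟨N, hN, hN'⟩ := hη
    rw [zero_pow hN.ne'] at hN'
    exact zero_ne_one hN'
  have h1 := compare_cancel P0 P1 U V η h (η⁻¹ * (q : R)⁻¹)
  rw [Finset.prod_eq_zero (s := Finset.range p') (i := 0) (Finset.mem_range.mpr (by omega)) (by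
    rw [zero_add, pow_one]
    have : (q : R) * η * (η⁻¹ * (q : R)⁻¹) = 1 := by field_simp
    rw [this, sub_self, mul_zero]), mul_zero] at h1
  obtain ⟨i, hi, h2⟩ := Finset.prod_eq_zero_iff.mp h1.symm
  have hroot : ∀ i : ℕ, ∃ N, 0 < N ∧ (η ^ i * η⁻¹) ^ N = 1 := by
    intro i
    obtain ⟨N, hN, hN'⟩ := hη
    exact ⟨N, hN, by rw [mul_pow, inv_pow, hN', inv_one, mul_one, ← pow_mul, mul_comm, pow_mul,
      hN', one_pow]⟩
  rw [← mul_assoc, mul_eq_zero, or_iff_left (hV _ (hroot i))] at h2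
  rcases Nat.eq_zero_or_pos i with rfl | hpos
  · rwa [pow_zero, one_mul] at h2
  · obtain ⟨j, rfl⟩ : ∃ j, i = j + 1 := ⟨i - 1, by omega⟩
    rw [pow_succ, mul_assoc (η ^ j), mul_inv_cancel₀ hη0, mul_one] at h2
    exact absurd h2 (hA j (by have := Finset.mem_range.mp hi; omega))

end

end Pool.Agent.helper90.Zp
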