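import Pool.Agent.helper90.Zp.Riemann2

open scoped Polynomial WithZero

set_option linter.unusedSectionVars false

namespace Pool.Agent.helper90.Zp

section

variable {k F : Type*} [Field k] [Field F] [Algebra k F] [IsFunctionField k F]

theorem ell_eq_finrank_range_add (v : Place k F) (D : Place k F →₀ ℤ) (t : F)
    (ht : v.val t = WithZero.exp (-(D v))) :
    ell D = Module.finrank k (LinearMap.range (leadMap v D t ht)) +
      ell (D - Finsupp.single v 1) := by
  have h1 := LinearMap.finrank_range_add_finrank_ker (leadMap v D t ht)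
  have h2 : Module.finrank k (LinearMap.ker (leadMap v D t ht)) =
      Module.finrank k (LSpace (D - Finsupp.single v 1)) := by
    rw [ker_leadMap]
    exact (Submodule.comapSubtypeEquivOfLe (LSpace_mono (sub_single_le v D))).finrank_eq
  unfold ell
  rw [← h1, h2]
  push_cast
  ring

variable (k F) in
/-- for divisors of large degree, the leading coefficient map is surjective -/
theorem exists_leadMap_surjective : ∃ c : ℤ, ∀ (v : Place k F) (D : Place k F →₀ ℤ) (t : F)
    (ht : v.val t = WithZero.exp (-(D v))), c ≤ degD (D - Finsupp.single v 1) →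
    Function.Surjective (leadMap v D t ht) := by
  obtain ⟨g, c, -, hc⟩ := exists_riemann k F
  refine ⟨c, ?_⟩
  intro v D t ht hD
  rw [← LinearMap.range_eq_top]
  apply Submodule.eq_top_of_finrank_eq
  have h1 := ell_eq_finrank_range_add v D t ht
  have h2 := hc _ hD
  have h3 : c ≤ degD D := hD.trans (degD_mono (sub_single_le v D))
  have h4 := hc _ h3
  rw [h2, h4, degD_sub, degD_single] at h1
  have h5 : (Module.finrank k (LinearMap.range (leadMap v D t ht)) : ℤ) = v.deg := by linarith
  exact_mod_cast h5

theorem exists_large_multiple (t0 : Place k F) (E : Place k F →₀ ℤ) (c : ℤ) :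
    ∃ m : ℕ, c ≤ degD (Finsupp.single t0 (m : ℤ) + E) := by
  refine ⟨(c - degD E).toNat, ?_⟩
  rw [degD_add, degD_single]
  have h1 := Int.self_le_toNat (c - degD E)
  have h2 : (1 : ℤ) ≤ t0.deg := by exact_mod_cast t0.deg_pos
  nlinarith

/-- one step of the approximation -/
theorem approx_step (t0 : Place k F) (W : Set (Place k F)) (hW : t0 ∉ W) (a : Place k F → F)
    (E : Place k F →₀ ℤ) (hE : ∀ w ∉ W, E w = 0) (v : Place k F) (hv : v ∈ W)
    (h : ∃ f : F, (∀ w ∈ W, w.val (f - a w) ≤ WithZero.exp (-(E w))) ∧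
      ∀ w ∉ W, w ≠ t0 → w.val f ≤ 1) :
    ∃ f : F, (∀ w ∈ W, w.val (f - a w) ≤ WithZero.exp (-((E + Finsupp.single v 1 : Place k F →₀ ℤ) w))) ∧
      ∀ w ∉ W, w ≠ t0 → w.val f ≤ 1 := by
  classical
  obtain ⟨f, hf1, hf2⟩ := h
  obtain ⟨c, hc⟩ := exists_leadMap_surjective k F
  obtain ⟨m, hm⟩ := exists_large_multiple t0 (- E - Finsupp.single v 1) c
  set D : Place k F →₀ ℤ := Finsupp.single t0 (m : ℤ) - E with hD
  have hDv : D v = - E v := by
    rw [hD, Finsupp.sub_apply, Finsupp.single_apply, if_neg, zero_sub]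
    rintro rfl; exact hW hv
  obtain ⟨t, ht⟩ := v.exists_val_eq_exp (-(D v))
  have hsurj := hc v D t ht (by
    rw [hD, sub_sub]
    convert hm using 2
    abel)
  -- target value: residue of (a v - f) * t
  have hmem : (a v - f) * t ∈ v.ring := by
    rw [← v.val_le_one_iff, map_mul, ht, hDv, neg_neg]
    have := hf1 v hv
    rw [Valuation.map_sub_swap] at this
    calc _ ≤ WithZero.exp (-(E v)) * WithZero.exp (E v) := by gcongr
      _ = 1 := by rw [← WithZero.exp_add, neg_add_cancel, WithZero.exp_zero]
  obtain ⟨f1, hf1'⟩ := hsurj (IsLocalRing.residue v.ring ⟨(a v - f) * t, hmem⟩)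
  have hf1D := f1.2
  refine ⟨f + f1, ?_, ?_⟩
  · intro w hw
    by_cases hwv : w = v
    · subst hwv
      rw [Finsupp.add_apply, Finsupp.single_eq_same]
      have h1 : IsLocalRing.residue w.ring ⟨(f1 : F) * t, by
          rw [← w.val_le_one_iff, map_mul, ht]
          calc _ ≤ WithZero.exp (D w) * WithZero.exp (-(D w)) := by gcongr; exact hf1D w
            _ = 1 := by rw [← WithZero.exp_add, add_neg_cancel, WithZero.exp_zero]⟩ =
          IsLocalRing.residue w.ring ⟨(a w - f) * t, hmem⟩ := hf1'
      rw [← sub_eq_zero, ← map_sub, w.residue_eq_zero_iff, ← w.val_lt_one_iff] at h1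
      have h2 : w.val (((f1 : F) * t) - (a w - f) * t) < 1 := h1
      have h3 : ((f1 : F) * t) - (a w - f) * t = (f + f1 - a w) * t := by ring
      rw [h3, map_mul, ht, hDv, neg_neg] at h2
      have h4 : (1 : ℤᵐ⁰) = WithZero.exp (-(E w)) * WithZero.exp (E w) := by
        rw [← WithZero.exp_add, neg_add_cancel, WithZero.exp_zero]
      rw [h4, mul_lt_mul_iff_left₀ WithZero.exp_pos, exp_lt_iff_le_sub_one] at h2
      convert h2 using 2
      ring
    · have h1 : (E + Finsupp.single v 1 : Place k F →₀ ℤ) w = E w := by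
        rw [Finsupp.add_apply, Finsupp.single_apply, if_neg (Ne.symm hwv), add_zero]
      rw [h1]
      have h2 : f + (f1 : F) - a w = (f - a w) + f1 := by ring
      rw [h2]
      refine (w.val.map_add _ _).trans (max_le (hf1 w hw) ?_)
      have h3 := hf1D w
      have hDw : D w = - E w := by
        rw [hD, Finsupp.sub_apply, Finsupp.single_apply, if_neg (by rintro rfl; exact hW hw),
          zero_sub]
      rw [hDw] at h3
      exact h3
  · intro w hw hwt
    refine (w.val.map_add _ _).trans (max_le (hf2 w hw hwt) ?_)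
    have h3 := hf1D w
    have hDw : D w = 0 := by
      rw [hD, Finsupp.sub_apply, Finsupp.single_apply, if_neg (Ne.symm hwt), hE w hw, sub_zero]
    rw [hDw, WithZero.exp_zero] at h3
    exact h3

theorem approx_steps (t0 : Place k F) (W : Set (Place k F)) (hW : t0 ∉ W) (a : Place k F → F)
    (E : Place k F →₀ ℤ) (hE : ∀ w ∉ W, E w = 0) (v : Place k F) (hv : v ∈ W)
    (h : ∃ f : F, (∀ w ∈ W, w.val (f - a w) ≤ WithZero.exp (-(E w))) ∧
      ∀ w ∉ W, w ≠ t0 → w.val f ≤ 1) (n : ℕ) :
    ∃ f : F, (∀ w ∈ W, w.val (f - a w) ≤ WithZero.exp (-((E + Finsupp.single v (n : ℤ) : Place k F →₀ ℤ) w))) ∧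
      ∀ w ∉ W, w ≠ t0 → w.val f ≤ 1 := by
  classical
  induction n with
  | zero => simpa using h
  | succ n ih =>
    have h1 := approx_step t0 W hW a (E + Finsupp.single v (n : ℤ)) (by
      intro w hw
      rw [Finsupp.add_apply, hE w hw, Finsupp.single_apply, if_neg, add_zero]
      rintro rfl; exact hw hv) v hv ih
    have heq : E + Finsupp.single v (n : ℤ) + Finsupp.single v 1 =
        E + Finsupp.single v ((n + 1 : ℕ) : ℤ) := by
      rw [add_assoc, ← Finsupp.single_add]
      push_cast
      rfl
    rw [heq] at h1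
    exact h1

/-- strong approximation with one exceptional place -/
theorem strong_approximation_one (t0 : Place k F) (W : Finset (Place k F)) (hW : t0 ∉ W)
    (a : Place k F → F) (N : ℕ) :
    ∃ f : F, (∀ v ∈ W, v.val (f - a v) ≤ WithZero.exp (-(N : ℤ))) ∧
      ∀ v ∉ W, v ≠ t0 → v.val f ≤ 1 := by
  classical
  -- a bound for the poles of the targets
  obtain ⟨r, hr⟩ : ∃ r : ℕ, ∀ v ∈ W, v.val (a v) ≤ WithZero.exp (r : ℤ) := by
    refine ⟨∑ v ∈ W, (WithZero.log (v.val (a v))).toNat, ?_⟩
    intro v hv
    by_cases h0 : v.val (a v) = 0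
    · rw [h0]; exact zero_le
    · rw [← WithZero.exp_log h0, WithZero.exp_le_exp]
      have h1 := Finset.single_le_sum (f := fun v : Place k F => (WithZero.log (v.val (a v))).toNat)
        (fun _ _ => Nat.zero_le _) hv
      have h2 := Int.self_le_toNat (WithZero.log (v.val (a v)))
      have h3 : (((WithZero.log (v.val (a v))).toNat : ℕ) : ℤ) ≤
        ((∑ v ∈ W, (WithZero.log (v.val (a v))).toNat : ℕ) : ℤ) := by exact_mod_cast h1
      exact h2.trans h3
  let E0 : Place k F →₀ ℤ := ∑ v ∈ W, Finsupp.single v (-(r : ℤ))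
  have hE0 : ∀ w ∉ W, E0 w = 0 := by
    intro w hw
    rw [Finsupp.finsetSum_apply]
    apply Finset.sum_eq_zero
    intro v hv
    rw [Finsupp.single_apply, if_neg]
    rintro rfl; exact hw hv
  have hE0' : ∀ w ∈ W, E0 w = -(r : ℤ) := by
    intro w hw
    rw [Finsupp.finsetSum_apply, Finset.sum_eq_single w]
    · simp
    · intro b _ hb
      rw [Finsupp.single_apply, if_neg hb]
    · intro h; exact absurd hw h
  -- induction over subsets
  have key : ∀ W' : Finset (Place k F), W' ⊆ W →
      ∃ f : F, (∀ w ∈ W, w.val (f - a w) ≤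
        WithZero.exp (-((E0 + ∑ v ∈ W', Finsupp.single v ((r + N : ℕ) : ℤ)) w))) ∧
      ∀ w ∉ W, w ≠ t0 → w.val f ≤ 1 := by
    intro W'
    induction W' using Finset.induction_on with
    | empty =>
      intro _
      refine ⟨0, ?_, ?_⟩
      · intro w hw
        rw [Finset.sum_empty, add_zero, hE0' w hw, neg_neg, zero_sub, Valuation.map_neg]
        exact hr w hw
      · intro w _ _
        simp
    | insert v W' hvW' ih =>
      intro hsub
      have hvW : v ∈ W := hsub (Finset.mem_insert_self v W')
      have h1 := ih (fun x hx => hsub (Finset.mem_insert_of_mem hx))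
      have h2 := approx_steps t0 (W : Set (Place k F)) (by simpa using hW) a
        (E0 + ∑ v ∈ W', Finsupp.single v ((r + N : ℕ) : ℤ)) (by
          intro w hw
          have hw' : w ∉ W := by simpa using hw
          rw [Finsupp.add_apply, hE0 w hw', zero_add, Finsupp.finsetSum_apply]
          apply Finset.sum_eq_zero
          intro u hu
          rw [Finsupp.single_apply, if_neg]
          rintro rfl
          exact hw' (hsub (Finset.mem_insert_of_mem hu))) v (by simpa using hvW)
          (by simpa using h1) (r + N)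
      rw [Finset.sum_insert hvW']
      obtain ⟨f, hf1, hf2⟩ := h2
      refine ⟨f, ?_, ?_⟩
      · intro w hw
        have := hf1 w (by simpa using hw)
        convert this using 4
        rw [add_assoc, add_comm (Finsupp.single v _)]
      · intro w hw
        exact hf2 w (by simpa using hw)
  obtain ⟨f, hf1, hf2⟩ := key W (Finset.Subset.refl W)
  refine ⟨f, ?_, hf2⟩
  intro w hw
  have h1 := hf1 w hw
  rw [Finsupp.add_apply, hE0' w hw, Finsupp.finsetSum_apply, Finset.sum_eq_single w] at h1
  · refine h1.trans ?_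
    rw [WithZero.exp_le_exp, Finsupp.single_eq_same]
    push_cast
    linarith
  · intro b _ hb
    rw [Finsupp.single_apply, if_neg hb]
  · intro h; exact absurd hw h

/-- strong approximation: given a nonempty set `T` of places, finitely many further places
`W` and target values there, there is a function regular outside `T ∪ W` which is close to the
targets at the places of `W` -/
theorem strong_approximation (T : Set (Place k F)) (hT : T.Nonempty)
    (W : Finset (Place k F)) (hTW : ∀ v ∈ W, v ∉ T) (a : Place k F → F) (N : ℕ) :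
    ∃ f : F, (∀ v ∈ W, v.val (f - a v) ≤ WithZero.exp (-(N : ℤ))) ∧
      ∀ v ∉ T, v ∉ W → f ∈ v.ring := by
  obtain ⟨t0, ht0⟩ := hT
  obtain ⟨f, hf1, hf2⟩ := strong_approximation_one t0 W (fun h => hTW t0 h ht0) a N
  refine ⟨f, hf1, ?_⟩
  intro v hvT hvW
  rw [← v.val_le_one_iff]
  exact hf2 v hvW (by rintro rfl; exact hvT ht0)

end

end Pool.Agent.helper90.Zp
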