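import Pool.Agent.helper90.Zp.Defs

open scoped Polynomial

namespace Pool.Agent.helper90.Zp

section FunctionField

variable {k F : Type*} [Field k] [Field F] [Algebra k F]

variable (k F) in
theorem IsFunctionField.essFiniteType [h : IsFunctionField k F] :
    Algebra.EssFiniteType k F := by
  obtain ⟨t, ht, hfin⟩ := h.exists_transcendental
  have h1 : Algebra.EssFiniteType k (IntermediateField.adjoin k {t}) := by
    rw [IntermediateField.essFiniteType_iff]
    exact ⟨{t}, by simp⟩
  have h2 : Algebra.EssFiniteType (IntermediateField.adjoin k {t}) F := inferInstance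
  exact Algebra.EssFiniteType.comp k (IntermediateField.adjoin k {t}) F

theorem isAlgebraic_adjoin [h : IsFunctionField k F] {w : F}
    (hw : Transcendental k w) : Algebra.IsAlgebraic (IntermediateField.adjoin k {w}) F := by
  obtain ⟨t, ht, hfin⟩ := h.exists_transcendental
  have halg : Algebra.IsAlgebraic (IntermediateField.adjoin k {t}) F := inferInstance
  have ht' : AlgebraicIndependent k (fun _ : Unit => t) := by
    rw [algebraicIndependent_unique_type_iff]; exact ht
  have hw' : AlgebraicIndependent k (fun _ : Unit => w) := by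
    rw [algebraicIndependent_unique_type_iff]; exact hw
  have hrt : Set.range (fun _ : Unit => t) = {t} := by simp
  have hrw : Set.range (fun _ : Unit => w) = {w} := by simp
  have hbt : IsTranscendenceBasis k (fun _ : Unit => t) := by
    rw [isTranscendenceBasis_iff_algebraicIndependent_isAlgebraic]
    refine ⟨ht', ?_⟩
    rw [hrt]
    open scoped IntermediateField.algebraAdjoinAdjoin in
    exact Algebra.IsAlgebraic.trans (Algebra.adjoin k {t}) (IntermediateField.adjoin k {t}) F
  have htr := hbt.lift_cardinalMk_eq_trdeg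
  have hbw : IsTranscendenceBasis k (fun _ : Unit => w) := by
    apply hw'.isTranscendenceBasis_of_lift_trdeg_le_of_finite
    rw [← htr]
  have := (isTranscendenceBasis_iff_algebraicIndependent_isAlgebraic.mp hbw).2
  rw [hrw] at this
  constructor
  intro x
  exact (this.isAlgebraic x).tower_top_of_subalgebra_le
    (IntermediateField.algebra_adjoin_le_adjoin k {w})

theorem finiteDimensional_adjoin [h : IsFunctionField k F] {w : F}
    (hw : Transcendental k w) : FiniteDimensional (IntermediateField.adjoin k {w}) F := by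
  have h1 := IsFunctionField.essFiniteType k F
  have h2 := isAlgebraic_adjoin hw
  have h3 : Algebra.EssFiniteType (IntermediateField.adjoin k {w}) F :=
    Algebra.EssFiniteType.of_comp k _ _
  exact Algebra.finite_of_essFiniteType_of_isAlgebraic

end FunctionField


section LI

theorem linearIndependent_of_valuation {E F Γ ι : Type*} [Field E] [Field F] [Algebra E F]
    [LinearOrderedCommGroupWithZero Γ] (V : Valuation F Γ) (x : ι → F) (hx : ∀ i, x i ≠ 0)
    (h : ∀ i j, i ≠ j → ∀ c : E, c ≠ 0 → V (algebraMap E F c * x i) ≠ V (x j)) :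
    LinearIndependent E x := by
  classical
  rw [linearIndependent_iff']
  intro s g hg
  by_contra! hne
  obtain ⟨i1, hi1, hgi1⟩ := hne
  set s' := s.filter (fun i => g i ≠ 0) with hs'
  have hne' : s'.Nonempty := ⟨i1, by simp [hs', hi1, hgi1]⟩
  obtain ⟨i0, hi0, hmax⟩ := Finset.exists_max_image s' (fun i => V (g i • x i)) hne'
  have hi0s : i0 ∈ s := (Finset.mem_filter.mp hi0).1
  have hgi0 : g i0 ≠ 0 := (Finset.mem_filter.mp hi0).2
  have hmain : V (∑ i ∈ s, g i • x i) = V (g i0 • x i0) := by
    apply Valuation.map_sum_eq_of_lt V hi0s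
    intro i hi
    rw [Finset.mem_sdiff, Finset.mem_singleton] at hi
    by_cases hgi : g i = 0
    · rw [hgi, zero_smul, map_zero]
      rw [zero_lt_iff, ne_eq, map_eq_zero]
      exact smul_ne_zero hgi0 (hx i0)
    · have hle := hmax i (by simp [hs', hi.1, hgi])
      refine lt_of_le_of_ne hle ?_
      intro heq
      apply h i i0 hi.2 (g i / g i0) (div_ne_zero hgi hgi0)
      have h1 : V (algebraMap E F (g i0)) ≠ 0 := by
        rw [ne_eq, map_eq_zero, map_eq_zero]; exact hgi0
      have : V (algebraMap E F (g i0)) * V (algebraMap E F (g i / g i0) * x i)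
          = V (algebraMap E F (g i0)) * V (x i0) := by
        rw [← map_mul, ← map_mul, ← mul_assoc, ← map_mul, mul_div_cancel₀ _ hgi0,
          ← Algebra.smul_def, ← Algebra.smul_def]
        exact heq
      exact mul_left_cancel₀ h1 this
  rw [hg, map_zero] at hmain
  have := hmain.symm
  rw [map_eq_zero] at this
  exact smul_ne_zero hgi0 (hx i0) this

theorem exists_zpow_of_mem_adjoin {k F Γ : Type*} [Field k] [Field F] [Algebra k F]
    [LinearOrderedCommGroupWithZero Γ] (V : Valuation F Γ) [V.IsTrivialOn k] {w : F}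
    (hw : 1 < V w) {c : F} (hc : c ∈ IntermediateField.adjoin k {w}) (hc0 : c ≠ 0) :
    ∃ m : ℤ, V c = V w ^ m := by
  rw [IntermediateField.mem_adjoin_simple_iff] at hc
  obtain ⟨r, s, rfl⟩ := hc
  have hr : r ≠ 0 := by rintro rfl; simp at hc0
  have hs : s ≠ 0 := by rintro rfl; simp at hc0
  refine ⟨(r.natDegree : ℤ) - s.natDegree, ?_⟩
  have hw0 : V w ≠ 0 := (zero_lt_one.trans hw).ne'
  rw [map_div₀, Polynomial.valuation_aeval_eq_valuation_X_pow_natDegree_of_one_lt_valuation_X w hw hr,
    Polynomial.valuation_aeval_eq_valuation_X_pow_natDegree_of_one_lt_valuation_X w hw hs,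
    zpow_sub₀ hw0, zpow_natCast, zpow_natCast]

end LI

namespace Place

variable {k F : Type*} [Field k] [Field F] [Algebra k F] (v : Place k F)

instance : v.ring.valuation.IsTrivialOn k where
  eq_one a ha := by
    have h1 : algebraMap k F a ∈ v.ring := v.algebraMap_mem a
    have h2 : algebraMap k F a⁻¹ ∈ v.ring := v.algebraMap_mem a⁻¹
    have h1' := (v.ring.valuation_le_one_iff _).mpr h1
    have h2' := (v.ring.valuation_le_one_iff _).mpr h2
    rw [map_inv₀, map_inv₀] at h2'
    have h0 : v.ring.valuation (algebraMap k F a) ≠ 0 := by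
      rw [ne_eq, map_eq_zero, map_eq_zero]; exact ha
    exact le_antisymm h1' ((inv_le_one₀ (zero_lt_iff.mpr h0)).mp h2')

theorem transcendental_of_lt_one {y : F} (hy0 : y ≠ 0) (hy : v.ring.valuation y < 1) :
    Transcendental k y :=
  Valuation.transcendental_of_ne_one k y hy0 hy.ne

theorem exists_one_lt : ∃ w : F, 1 < v.ring.valuation w := by
  by_contra! h
  apply v.ne_top
  rw [eq_top_iff]
  intro x _
  exact (v.ring.valuation_le_one_iff x).mp (h x)

/-- finitely many values between `V y` and `1` -/
theorem finite_values [IsFunctionField k F] {y : F} (hy0 : y ≠ 0)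
    (hy : v.ring.valuation y < 1) :
    {γ | ∃ x, v.ring.valuation x = γ ∧ v.ring.valuation y ≤ γ ∧ γ < 1}.Finite := by
  set V := v.ring.valuation with hV
  set w := y⁻¹ with hw
  have hVy0 : V y ≠ 0 := by rwa [ne_eq, map_eq_zero]
  have hVw : 1 < V w := by
    rw [hw, map_inv₀]; exact (one_lt_inv₀ (zero_lt_iff.mpr hVy0)).mpr hy
  have hwt : Transcendental k w := by
    rw [Transcendental, ← IsAlgebraic.inv_iff, hw, inv_inv]
    exact v.transcendental_of_lt_one hy0 hy
  have hfin := finiteDimensional_adjoin hwt
  by_contra hinf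
  have hinf : {γ | ∃ x, V x = γ ∧ V y ≤ γ ∧ γ < 1}.Infinite := hinf
  set n := Module.finrank (IntermediateField.adjoin k {w}) F with hn
  obtain ⟨t, hts, htc⟩ := hinf.exists_subset_card_eq (n + 1)
  have hx : ∀ γ : t, ∃ x, V x = γ ∧ V y ≤ (γ : v.ring.ValueGroup) ∧ (γ : v.ring.ValueGroup) < 1 :=
    fun γ => hts γ.2
  choose x hx1 hx2 hx3 using hx
  have hLI : LinearIndependent (IntermediateField.adjoin k {w}) x := by
    apply linearIndependent_of_valuation V
    · intro i h0
      have := hx2 i
      rw [← hx1 i, h0, map_zero] at this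
      exact hVy0 (le_zero_iff.mp this)
    · intro i j hij c hc heq
      have hc' : (c : F) ≠ 0 := by simpa using hc
      obtain ⟨m, hm⟩ := exists_zpow_of_mem_adjoin V hVw c.2 hc'
      have halg : algebraMap (IntermediateField.adjoin k {w}) F c = (c : F) := rfl
      rw [halg, map_mul, hm, hx1, hx1] at heq
      -- V w ^ m * i = j
      have hi1 := hx2 i
      have hi2 := hx3 i
      have hj1 := hx2 j
      have hj2 := hx3 j
      have hyw : V y = (V w)⁻¹ := by rw [hw, map_inv₀, inv_inv]
      have hw0 : 0 < V w := zero_lt_one.trans hVw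
      rw [hyw] at hi1 hj1
      have hi0 : (0 : v.ring.ValueGroup) < i := lt_of_lt_of_le (inv_pos.mpr hw0) hi1
      have hj0 : (0 : v.ring.ValueGroup) < j := lt_of_lt_of_le (inv_pos.mpr hw0) hj1
      rcases lt_trichotomy m 0 with hm0 | hm0 | hm0
      · have h1 : V w ^ m ≤ (V w)⁻¹ := by
          rw [← zpow_neg_one]
          exact zpow_le_zpow_right₀ hVw.le (by omega)
        have : (j : v.ring.ValueGroup) < (V w)⁻¹ := by
          rw [← heq]
          calc V w ^ m * (i : v.ring.ValueGroup) ≤ (V w)⁻¹ * i := by gcongr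
            _ < (V w)⁻¹ * 1 := by
              apply mul_lt_mul_of_pos_left hi2 (inv_pos.mpr hw0)
            _ = _ := mul_one _
        exact absurd hj1 (not_le.mpr this)
      · rw [hm0, zpow_zero, one_mul] at heq
        exact hij (Subtype.ext heq)
      · have h1 : V w ≤ V w ^ m := by
          conv_lhs => rw [← zpow_one (V w)]
          exact zpow_le_zpow_right₀ hVw.le (by omega)
        have : (1 : v.ring.ValueGroup) ≤ j := by
          rw [← heq]
          calc (1 : v.ring.ValueGroup) = V w * (V w)⁻¹ := (mul_inv_cancel₀ hw0.ne').symm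
            _ ≤ V w ^ m * i := by gcongr
        exact absurd hj2 (not_lt.mpr this)
  have := hLI.fintype_card_le_finrank
  rw [Fintype.card_coe, htc] at this
  omega

end Place

end Pool.Agent.helper90.Zp
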