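import Pool.Agent.helper90.Zp.PolyL

open scoped Polynomial WithZero

set_option linter.unusedSectionVars false

namespace Pool.Agent.helper90.Zp

section

variable {k K : Type*} [Field k] [Finite k] [Field K] [Algebra k K] [IsFunctionField k K]
  {R : Type*} [Field R] [CharZero R]

theorem coeff_LSer (T : Finset (Place k K)) (a : Place k K → ℕ) (ζ : R) (d : ℕ) :
    PowerSeries.coeff d (LSer T a ζ) =
      ∑ D ∈ (finite_Eff T d).toFinset, dwt (fun v => ζ ^ a v) D := by
  unfold LSer eulerSeries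
  rw [PowerSeries.coeff_mk]
  exact finsum_eq_sum_Eff T (chi T a ζ) (fun v hv => chi_of_mem a ζ hv) _
    (fun v hv => (chi_of_notMem a ζ hv).symm) d

theorem coeff_zero_LSer (T : Finset (Place k K)) (a : Place k K → ℕ) (ζ : R) :
    PowerSeries.coeff 0 (LSer T a ζ) = 1 := by
  classical
  rw [coeff_LSer]
  have : (finite_Eff T ((0 : ℕ) : ℤ)).toFinset = {(0 : Place k K →₀ ℤ)} := by
    ext D
    rw [Set.Finite.mem_toFinset, Finset.mem_singleton]
    constructor
    · rintro ⟨h0, -, hd⟩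
      ext v
      by_contra hv
      rw [Finsupp.zero_apply] at hv
      have h1 : D v * (v.deg : ℤ) ≤ 0 := by
        rw [← Nat.cast_zero, ← hd]
        unfold degD Finsupp.sum
        refine Finset.single_le_sum (f := fun w => D w * (w.deg : ℤ)) ?_ ?_
        · intro w _
          exact mul_nonneg (h0 w) (by positivity)
        · rw [Finsupp.mem_support_iff]; exact hv
      have h2 : 0 < D v := lt_of_le_of_ne (h0 v) (Ne.symm hv)
      have h3 : (0 : ℤ) < v.deg := by exact_mod_cast v.deg_pos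
      have := mul_pos h2 h3
      omega
    · rintro rfl
      exact ⟨le_rfl, fun v _ => rfl, by rw [degD_zero]; rfl⟩
  rw [this, Finset.sum_singleton]
  simp [dwt]

/-- exponent of a divisor -/
noncomputable def expo (a : Place k K → ℕ) (D : Place k K →₀ ℤ) : ℤ :=
  D.sum fun v n => n * (a v : ℤ)

theorem dwt_eq_pow {N : ℕ} (hN : 0 < N) (a : Place k K → ℕ) {ζ : R} (hζ : ζ ^ N = 1)
    (D : Place k K →₀ ℤ) : dwt (fun v => ζ ^ a v) D = ζ ^ ((expo a D : ZMod N)).val := by
  classical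
  have hζ0 : ζ ≠ 0 := by
    rintro rfl
    rw [zero_pow hN.ne'] at hζ
    exact zero_ne_one hζ
  have : NeZero N := ⟨hN.ne'⟩
  have h1 : dwt (fun v => ζ ^ a v) D = ζ ^ expo a D := by
    unfold expo Finsupp.sum
    rw [zpow_sum_aux _ _ hζ0]
    apply Finset.prod_congr rfl
    intro v _
    change (ζ ^ a v) ^ (D v) = ζ ^ (D v * (a v : ℤ))
    rw [← zpow_natCast, ← zpow_mul, mul_comm]
  rw [h1, ← zpow_natCast, ZMod.val_intCast]
  conv_lhs => rw [← Int.emod_add_mul_ediv (expo a D) N]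
  rw [zpow_add₀ hζ0, zpow_mul, zpow_natCast, hζ, one_zpow, mul_one]

end

section

variable {k K L : Type*} [Field k] [Finite k] [Field K] [Field L] [Algebra k K] [Algebra k L]
  [Algebra K L] [IsScalarTower k K L] [IsFunctionField k K] [IsFunctionField k L]
  [FiniteDimensional K L] {R : Type*} [Field R] [CharZero R]

/-- The L-series divides the numerator of the zeta function of `L`, up to factors at `T`. -/
theorem LSer_dvd [IsGalois K L] {γ : L ≃ₐ[K] L}
    (hγ : ∀ σ : L ≃ₐ[K] L, σ ∈ Subgroup.zpowers γ)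
    {N : ℕ} (hN : 2 ≤ N) (hcard : Nat.card (L ≃ₐ[K] L) = N) (T : Finset (Place k K))
    (hT : ∀ w : Place k L, w.below K ∉ T → w.IsUnramifiedOver K) (a : Place k K → ℕ)
    (ha : ∀ v ∉ T, IsFrob v (γ ^ a v)) {ζ : R} (hζ : IsPrimitiveRoot ζ N)
    {P0 P1 : ℤ[X]} (hP0 : IsLPolynomial k K P0) (hP1 : IsLPolynomial k L P1)
    (hpoly : ∀ i, 0 < i → i < N → ∃ Q : R[X], (Q : PowerSeries R) = LSer T a (ζ ^ i))
    {Λ : R[X]} (hΛ : (Λ : PowerSeries R) = LSer T a ζ) :
    Λ ∣ P1.map (Int.castRingHom R) * ∏ w ∈ above L T, (1 - Polynomial.X ^ w.deg) := by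
  classical
  obtain ⟨N', rfl⟩ : ∃ N', N = N' + 2 := ⟨N - 2, by omega⟩
  have hQ : ∀ i : ℕ, ∃ Q : R[X], i < N' + 1 → (Q : PowerSeries R) = LSer T a (ζ ^ (i + 1)) := by
    intro i
    by_cases hi : i < N' + 1
    · obtain ⟨Q, hQ⟩ := hpoly (i + 1) (by omega) (by omega)
      exact ⟨Q, fun _ => hQ⟩
    · exact ⟨0, fun h => absurd h hi⟩
  choose Q hQ using hQ
  have h1 := prod_LSer (R := R) hγ hcard T hT a ha hζ
  have hV : ((∏ v ∈ T, (1 - Polynomial.X ^ v.deg) : R[X]) : PowerSeries R) =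
      ∏ v ∈ T, (1 - PowerSeries.X ^ v.deg) := by
    rw [coe_prod]
    simp
  have hU : ((∏ w ∈ above L T, (1 - Polynomial.X ^ w.deg) : R[X]) : PowerSeries R) =
      ∏ w ∈ above L T, (1 - PowerSeries.X ^ w.deg) := by
    rw [coe_prod]
    simp
  have hQ0 : Q 0 = Λ := by
    apply Polynomial.coe_injective
    rw [hQ 0 (by omega), hΛ, zero_add, pow_one]
  refine ⟨P0.map (Int.castRingHom R) * (∏ v ∈ T, (1 - Polynomial.X ^ v.deg)) *
    ∏ i ∈ Finset.range N', Q (i + 1), ?_⟩
  rw [← hQ0]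
  have h2 : P1.map (Int.castRingHom R) * ∏ w ∈ above L T, (1 - Polynomial.X ^ w.deg) =
      P0.map (Int.castRingHom R) * (∏ v ∈ T, (1 - Polynomial.X ^ v.deg)) *
        ∏ i ∈ Finset.range (N' + 1), Q i := by
    apply Polynomial.coe_injective
    rw [Polynomial.coe_mul, Polynomial.coe_mul, Polynomial.coe_mul, hU, hV,
      coe_LPolynomial hP1, coe_LPolynomial hP0, coe_prod,
      Finset.prod_congr rfl (fun i hi => hQ i (Finset.mem_range.mp hi))]
    rw [Finset.prod_range_succ', pow_zero, LSer_one] at h1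
    linear_combination ((1 - PowerSeries.X) * (1 - PowerSeries.C (Nat.card k : R) *
      PowerSeries.X)) * h1
  rw [h2, Finset.prod_range_succ']
  ring

end

end Pool.Agent.helper90.Zp
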