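import Pool.Agent.helper90.Zp.Product
import Pool.Agent.helper41.Zp.Ramif

open scoped Polynomial WithZero

set_option linter.unusedSectionVars false
set_option linter.style.haveILetI false

namespace Pool.Agent.helper90.Zp

section group

variable {G H : Type*} [Group G] [Group H] [Finite G] [Finite H]

theorem forall_mem_zpowers_of_orderOf {g : G} (h : orderOf g = Nat.card G) (σ : G) :
    σ ∈ Subgroup.zpowers g := by
  have h1 : Subgroup.zpowers g = ⊤ := by
    apply Subgroup.eq_top_of_card_eq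
    rw [Nat.card_zpowers, h]
  rw [h1]
  trivial

/-- lifting generators of cyclic `p`-groups -/
theorem exists_lift_generator {p n : ℕ} (hp : p.Prime) (hG : Nat.card G = p ^ (n + 1))
    (hH : Nat.card H = p ^ n) (hcyc : IsCyclic G) (ρ : G →* H) (hρ : Function.Surjective ρ)
    (g : H) (hg : ∀ σ : H, σ ∈ Subgroup.zpowers g) :
    ∃ g' : G, (∀ σ : G, σ ∈ Subgroup.zpowers g') ∧ ρ g' = g := by
  obtain ⟨g0, hg0⟩ := hcyc.exists_generator
  have hord0 : orderOf g0 = p ^ (n + 1) := by
    rw [orderOf_eq_card_of_forall_mem_zpowers hg0, hG]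
  have hgenρ : ∀ σ : H, σ ∈ Subgroup.zpowers (ρ g0) := by
    intro σ
    obtain ⟨τ, rfl⟩ := hρ σ
    obtain ⟨j, rfl⟩ := Subgroup.mem_zpowers_iff.mp (hg0 τ)
    rw [map_zpow]
    exact Subgroup.mem_zpowers_iff.mpr ⟨j, rfl⟩
  rcases Nat.eq_zero_or_pos n with rfl | hn
  · refine ⟨g0, hg0, ?_⟩
    rw [pow_zero] at hH
    have := (Nat.card_eq_one_iff_unique.mp hH).1
    exact Subsingleton.elim _ _
  · obtain ⟨j, hj⟩ := (mem_powers_iff_mem_zpowers (x := ρ g0) (y := g)).mpr (hgenρ g)
    have hj : ρ g0 ^ j = g := hj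
    refine ⟨g0 ^ j, ?_, by rw [map_pow, hj]⟩
    have h1 : orderOf (ρ g0) = p ^ n := by
      rw [orderOf_eq_card_of_forall_mem_zpowers hgenρ, hH]
    have h2 : orderOf g = p ^ n := by
      rw [orderOf_eq_card_of_forall_mem_zpowers hg, hH]
    rw [← hj, orderOf_pow, h1] at h2
    have hpos : 0 < p ^ n := pow_pos hp.pos n
    have h3 : (p ^ n).gcd j = 1 := by
      have h4 := Nat.div_mul_cancel (Nat.gcd_dvd_left (p ^ n) j)
      rw [h2] at h4
      exact (Nat.mul_eq_left hpos.ne').mp h4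
    have h4 : (p ^ (n + 1)).gcd j = 1 := by
      have h5 : Nat.Coprime (p ^ n) j := h3
      have h6 : Nat.Coprime p j := (Nat.coprime_pow_left_iff hn p j).mp h5
      exact Nat.Coprime.pow_left (n + 1) h6
    apply forall_mem_zpowers_of_orderOf
    rw [orderOf_pow, hord0, h4, Nat.div_one, hG]

end group

section

variable {k K M L : Type*} [Field k] [Finite k] [Field K] [Field M] [Field L] [Algebra k K]
  [Algebra k M] [Algebra k L] [Algebra K M] [Algebra M L] [Algebra K L] [IsScalarTower k K M]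
  [IsScalarTower k M L] [IsScalarTower K M L] [IsScalarTower k K L]
  [IsFunctionField k K] [IsFunctionField k M] [IsFunctionField k L]
  [FiniteDimensional K M] [FiniteDimensional M L] [FiniteDimensional K L]

/-- Frobenius elements restrict to Frobenius elements. -/
theorem IsFrob.restrict {v : Place k K} {σ : L ≃ₐ[K] L} {τ : M ≃ₐ[K] M}
    (hστ : ∀ x : M, σ (algebraMap M L x) = algebraMap M L (τ x)) (hσ : IsFrob v σ) :
    IsFrob v τ := by
  intro w hw b hb
  obtain ⟨w', hw'⟩ := exists_below_eq (L := L) w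
  have h1 : w'.below K = v := by
    rw [← hw, ← hw']
    exact (Place.below_below w').symm
  have h2 := hσ w' h1 (algebraMap M L b) (by
    rw [Place.mem_ring_of_below_eq hw']
    exact hb)
  rw [hστ, ← map_pow, ← map_sub] at h2
  exact (Place.valuation_lt_one_of_below hw').mp h2

end

section

variable {p : ℕ} [Fact p.Prime] {k K Ω : Type*} [Field k] [Finite k] [CharP k p] [Field K]
  [Algebra k K] [IsFunctionField k K] [Field Ω] [Algebra k Ω] [Algebra K Ω] [IsScalarTower k K Ω]

theorem IsZpTower.card {L : ℕ → IntermediateField K Ω} (h : IsZpTower p k L) (n : ℕ) :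
    Nat.card (L n ≃ₐ[K] L n) = p ^ n := by
  obtain ⟨e⟩ := h.group n
  rw [Nat.card_congr e.toEquiv]
  change Nat.card (ZMod (p ^ n)) = p ^ n
  exact Nat.card_zmod _

theorem IsZpTower.isCyclic {L : ℕ → IntermediateField K Ω} (h : IsZpTower p k L) (n : ℕ) :
    IsCyclic (L n ≃ₐ[K] L n) := by
  obtain ⟨e⟩ := h.group n
  exact isCyclic_of_surjective e.symm e.symm.surjective

theorem IsZpTower.mono {L : ℕ → IntermediateField K Ω} (h : IsZpTower p k L) : Monotone L :=
  monotone_nat_of_le_succ h.le_succ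

/-- restriction to a lower level -/
theorem IsZpTower.exists_restrict {L : ℕ → IntermediateField K Ω} (h : IsZpTower p k L) (n : ℕ) :
    ∃ ρ : (L (n + 1) ≃ₐ[K] L (n + 1)) →* (L n ≃ₐ[K] L n), Function.Surjective ρ ∧
      ∀ (σ : L (n + 1) ≃ₐ[K] L (n + 1)) (x : L n),
        σ (IntermediateField.inclusion (h.le_succ n) x) =
          IntermediateField.inclusion (h.le_succ n) (ρ σ x) := by
  letI : Algebra (L n) (L (n + 1)) := (IntermediateField.inclusion (h.le_succ n)).toAlgebra
  haveI : IsScalarTower K (L n) (L (n + 1)) := IsScalarTower.of_algebraMap_eq fun _ => rfl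
  haveI := h.isGalois
  refine ⟨AlgEquiv.restrictNormalHom (L n), AlgEquiv.restrictNormalHom_surjective _, ?_⟩
  intro σ x
  exact (AlgEquiv.restrictNormal_commutes σ (L n) x).symm

/-- compatible generators -/
theorem IsZpTower.exists_generators {L : ℕ → IntermediateField K Ω} (h : IsZpTower p k L) :
    ∃ γ : ∀ n, L n ≃ₐ[K] L n, (∀ n, ∀ σ : L n ≃ₐ[K] L n, σ ∈ Subgroup.zpowers (γ n)) ∧
      ∀ n (x : L n), γ (n + 1) (IntermediateField.inclusion (h.le_succ n) x) =
        IntermediateField.inclusion (h.le_succ n) (γ n x) := by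
  haveI := h.finiteDimensional
  have hp : p.Prime := Fact.out
  choose ρ hρ hρ' using h.exists_restrict
  have hlift : ∀ n (g : L n ≃ₐ[K] L n), ∃ g' : L (n + 1) ≃ₐ[K] L (n + 1),
      (∀ σ : L n ≃ₐ[K] L n, σ ∈ Subgroup.zpowers g) →
      (∀ σ, σ ∈ Subgroup.zpowers g') ∧ ρ n g' = g := by
    intro n g
    by_cases hg : ∀ σ : L n ≃ₐ[K] L n, σ ∈ Subgroup.zpowers g
    · obtain ⟨g', h1, h2⟩ := exists_lift_generator hp (h.card (n + 1)) (h.card n)
        (h.isCyclic (n + 1)) (ρ n) (hρ n) g hg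
      exact ⟨g', fun _ => ⟨h1, h2⟩⟩
    · exact ⟨1, fun h => absurd h hg⟩
  choose lift hl using hlift
  obtain ⟨g0, hg0⟩ := (h.isCyclic 0).exists_generator
  let γ : ∀ n, L n ≃ₐ[K] L n := fun n => Nat.rec g0 (fun n g => lift n g) n
  have hγ : ∀ n, ∀ σ : L n ≃ₐ[K] L n, σ ∈ Subgroup.zpowers (γ n) := by
    intro n
    induction n with
    | zero => exact hg0
    | succ n ih => exact (hl n (γ n) ih).1
  refine ⟨γ, hγ, ?_⟩
  intro n x
  rw [hρ']
  congr 2
  exact (hl n (γ n) (hγ n)).2

theorem IsZpTower.exists_data {L : ℕ → IntermediateField K Ω} (h : IsZpTower p k L) :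
    ∃ (T0 : Finset (Place k K)) (γ : ∀ n, L n ≃ₐ[K] L n) (a : ℕ → Place k K → ℕ) (B : ℕ),
      (∀ n, ∀ σ : L n ≃ₐ[K] L n, σ ∈ Subgroup.zpowers (γ n)) ∧
      (∀ n (w : Place k (L n)),
        (haveI := h.finiteDimensional n; w.below K) ∉ T0 →
        (haveI := h.finiteDimensional n; w.IsUnramifiedOver K)) ∧
      (∀ v ∉ T0, ∀ n, ∀ w : Place k (L n), (haveI := h.finiteDimensional n; w.below K) = v →
        ∀ b ∈ w.ring, w.ring.valuation
          ((γ n ^ a n v) b - b ^ Nat.card (IsLocalRing.ResidueField v.ring)) < 1) ∧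
      (∀ v ∉ T0, ∀ n, ((a (n + 1) v : ℕ) : ZMod (p ^ n)) = ((a n v : ℕ) : ZMod (p ^ n))) ∧
      (∀ n (w : Place k (L n)),
        (haveI := h.finiteDimensional n; w.below K) ∈ T0 → w.deg ≤ B) := by
  classical
  haveI := h.finiteDimensional
  haveI := h.isGalois
  haveI hff : ∀ n, IsFunctionField k (L n) := fun n =>
    IsFunctionField.of_finiteDimensional (k := k) (K := K) (L := L n)
  have hp : p.Prime := Fact.out
  obtain ⟨γ, hγ, hγ'⟩ := h.exists_generators
  set T0 := h.finite_ramified.toFinset with hT0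
  have hunr : ∀ n (w : Place k (L n)), w.below K ∉ T0 → w.IsUnramifiedOver K := by
    intro n w hw
    by_contra hram
    apply hw
    rw [hT0, Set.Finite.mem_toFinset]
    exact ⟨n, w, rfl, hram⟩
  have hcomm : ∀ n, ∀ σ τ : L n ≃ₐ[K] L n, σ * τ = τ * σ := by
    intro n σ τ
    obtain ⟨i, rfl⟩ := Subgroup.mem_zpowers_iff.mp (hγ n σ)
    obtain ⟨j, rfl⟩ := Subgroup.mem_zpowers_iff.mp (hγ n τ)
    rw [← zpow_add, ← zpow_add, add_comm]
  have hfrob : ∀ n (v : Place k K), ∃ a : ℕ, v ∉ T0 → IsFrob v (γ n ^ a) := by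
    intro n v
    by_cases hv : v ∉ T0
    · obtain ⟨σ, hσ, -⟩ := exists_frobenius (hcomm n) v (fun w hw => hunr n w (by rw [hw]; exact hv))
      obtain ⟨j, hj⟩ := (mem_powers_iff_mem_zpowers (x := γ n) (y := σ)).mpr (hγ n σ)
      have hj : γ n ^ j = σ := hj
      exact ⟨j, fun _ => by rw [hj]; exact hσ⟩
    · exact ⟨0, fun h => absurd h hv⟩
  choose a ha using hfrob
  have hbound : ∀ v ∈ T0, ∃ B : ℕ, ∀ n (w : Place k (L n)), w.below K = v → w.deg ≤ B := by
    intro v hv
    rw [hT0, Set.Finite.mem_toFinset] at hv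
    obtain ⟨n0, w0, hw0, hram⟩ := hv
    have hb : ∀ n, ∃ b : ℕ, ∀ w : Place k (L n), w.below K = v → w.deg ≤ b := by
      intro n
      have hfin := (finite_below (L := L n) v).image (fun w => w.deg)
      obtain ⟨b, hb⟩ := hfin.bddAbove
      exact ⟨b, fun w hw => hb ⟨w, hw, rfl⟩⟩
    choose b hb using hb
    refine ⟨(∑ n ∈ Finset.range n0, b n) + Module.finrank K (L n0) * v.deg, ?_⟩
    intro n w hw
    by_cases hn : n < n0
    · refine (hb n w hw).trans ((Finset.single_le_sum (f := b) (fun _ _ => Nat.zero_le _)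
        (Finset.mem_range.mpr hn)).trans (Nat.le_add_right _ _))
    · have hle : L n0 ≤ L n := h.mono (not_lt.mp hn)
      letI : Algebra (L n0) (L n) := (IntermediateField.inclusion hle).toAlgebra
      haveI : IsScalarTower K (L n0) (L n) := IsScalarTower.of_algebraMap_eq fun _ => rfl
      haveI : IsScalarTower k (L n0) (L n) := IsScalarTower.of_algebraMap_eq fun _ => rfl
      haveI : FiniteDimensional (L n0) (L n) := FiniteDimensional.right K (L n0) (L n)
      haveI : IsGalois (L n0) (L n) := IsGalois.tower_top_of_isGalois K (L n0) (L n)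
      exact (deg_le_of_ramified' p n (h.card n) (h.isCyclic n) v w0 hw0 hram w hw).trans
        (Nat.le_add_left _ _)
  have hboundall : ∃ B : ℕ, ∀ n (w : Place k (L n)), w.below K ∈ T0 → w.deg ≤ B := by
    have hb : ∀ v : Place k K, ∃ B : ℕ, v ∈ T0 →
        ∀ n (w : Place k (L n)), w.below K = v → w.deg ≤ B := by
      intro v
      by_cases hv : v ∈ T0
      · obtain ⟨B, hB⟩ := hbound v hv
        exact ⟨B, fun _ => hB⟩
      · exact ⟨0, fun h => absurd h hv⟩
    choose B hB using hb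
    refine ⟨∑ v ∈ T0, B v, ?_⟩
    intro n w hw
    exact (hB _ hw n w rfl).trans (Finset.single_le_sum (f := B) (fun _ _ => Nat.zero_le _) hw)
  obtain ⟨B, hB⟩ := hboundall
  refine ⟨T0, γ, a, B, hγ, hunr, ?_, ?_, hB⟩
  · intro v hv n
    exact ha n v hv
  · intro v hv n
    letI : Algebra (L n) (L (n + 1)) := (IntermediateField.inclusion (h.le_succ n)).toAlgebra
    haveI : IsScalarTower K (L n) (L (n + 1)) := IsScalarTower.of_algebraMap_eq fun _ => rfl
    haveI : IsScalarTower k (L n) (L (n + 1)) := IsScalarTower.of_algebraMap_eq fun _ => rfl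
    haveI : FiniteDimensional (L n) (L (n + 1)) := FiniteDimensional.right K (L n) (L (n + 1))
    have hpow : ∀ (m : ℕ) (x : L n), (γ (n + 1) ^ m) (algebraMap (L n) (L (n + 1)) x) =
        algebraMap (L n) (L (n + 1)) ((γ n ^ m) x) := by
      intro m
      induction m with
      | zero => intro x; rfl
      | succ m ih =>
        intro x
        rw [pow_succ, pow_succ, AlgEquiv.mul_apply, AlgEquiv.mul_apply]
        have h1 : γ (n + 1) (algebraMap (L n) (L (n + 1)) x) =
            algebraMap (L n) (L (n + 1)) (γ n x) := hγ' n x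
        rw [h1, ih]
    have h1 : IsFrob v (γ n ^ a (n + 1) v) := (ha (n + 1) v hv).restrict (hpow _)
    have h2 := ha n v hv
    obtain ⟨w, hw⟩ := exists_below_eq (L := L n) v
    have h3 : γ n ^ a (n + 1) v = γ n ^ a n v := by
      subst hw
      exact frobenius_unique w (hunr n w hv) _ _ (h1 w rfl) (h2 w rfl)
    have h4 : orderOf (γ n) = p ^ n := by
      rw [orderOf_eq_card_of_forall_mem_zpowers (hγ n), h.card n]
    rw [pow_eq_pow_iff_modEq, h4] at h3
    rw [ZMod.natCast_eq_natCast_iff]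
    exact h3

end

end Pool.Agent.helper90.Zp
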