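import Mathlib

/-!
# Places and zeta functions of function fields of one variable, and `ℤ_p`-towers

Definitions used in the statement of the main theorem.
-/

open scoped Polynomial

namespace Pool.Agent.helper90.Zp

section Places

variable (k F : Type*) [Field k] [Field F] [Algebra k F]

/-- `F` is an algebraic function field of one variable over `k`: there is `t ∈ F` transcendental
over `k` such that `F` is a finite extension of `k(t)`. -/
class IsFunctionField : Prop where
  exists_transcendental :
    ∃ t : F, Transcendental k t ∧ FiniteDimensional (IntermediateField.adjoin k {t}) F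

/-- The field `k` is algebraically closed in `F` (it is the full constant field of `F`). -/
class IsFullConstantField : Prop where
  exists_algebraMap_eq : ∀ x : F, IsAlgebraic k x → ∃ a : k, algebraMap k F a = x

/-- A place of `F / k` (a closed point of the smooth projective curve over `k` with function
field `F`): a valuation ring of `F` containing `k` and different from `F`. -/
structure Place where
  /-- the valuation ring (local ring) of the place -/
  ring : ValuationSubring F
  algebraMap_mem : ∀ a : k, algebraMap k F a ∈ ring
  ne_top : ring ≠ ⊤

end Places

namespace Place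

variable {k F : Type*} [Field k] [Field F] [Algebra k F]

/-- The inclusion of the constants in the valuation ring of a place. -/
def constHom (v : Place k F) : k →+* v.ring :=
  (algebraMap k F).codRestrict v.ring.toSubring v.algebraMap_mem

/-- The valuation ring of a place is an algebra over the constants. -/
instance algebraRing (v : Place k F) : Algebra k v.ring := (v.constHom).toAlgebra

/-- The degree of a place is the degree over `k` of its residue field. -/
noncomputable def deg (v : Place k F) : ℕ :=
  Module.finrank k (IsLocalRing.ResidueField v.ring)

end Place

section Restrict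

variable {k K L : Type*} [Field k] [Field K] [Field L] [Algebra k K] [Algebra k L] [Algebra K L]
  [IsScalarTower k K L]

omit [Algebra k K] [IsScalarTower k K L] in
/-- If `L / K` is algebraic, a valuation ring of `L` different from `L` does not contain `K`. -/
theorem comap_ne_top [Algebra.IsAlgebraic K L] (w : Place k L) :
    w.ring.comap (algebraMap K L) ≠ ⊤ := by
  intro h
  apply w.ne_top
  rw [eq_top_iff]
  intro x _
  have hx : IsIntegral w.ring x := by
    obtain ⟨P, hP, hPx⟩ := (Algebra.IsAlgebraic.isAlgebraic (R := K) x).isIntegral
    have hmem : ∀ a : K, algebraMap K L a ∈ w.ring := by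
      intro a
      have : a ∈ w.ring.comap (algebraMap K L) := by rw [h]; trivial
      exact this
    let f : K →+* w.ring := (algebraMap K L).codRestrict w.ring.toSubring hmem
    refine ⟨P.map f, hP.map f, ?_⟩
    rw [Polynomial.eval₂_map]
    exact hPx
  obtain ⟨y, hy⟩ := IsIntegrallyClosed.isIntegral_iff.mp hx
  rw [← hy]
  exact y.2

/-- The place of `K` below a place `w` of the algebraic extension `L` of `K`. -/
def Place.below (K : Type*) [Field K] [Algebra k K] [Algebra K L] [IsScalarTower k K L]
    [Algebra.IsAlgebraic K L] (w : Place k L) : Place k K where
  ring := w.ring.comap (algebraMap K L)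
  algebraMap_mem a := by
    rw [ValuationSubring.mem_comap, ← IsScalarTower.algebraMap_apply]
    exact w.algebraMap_mem a
  ne_top := comap_ne_top w

/-- The place `w` of `L` is unramified over `K`: its maximal ideal is generated by the maximal
ideal of the place of `K` below it, that is, every `x` in the maximal ideal of `w` is a multiple
in the valuation ring of `w` of some `y ∈ K` lying in the maximal ideal. -/
def Place.IsUnramifiedOver (K : Type*) [Field K] [Algebra k K] [Algebra K L]
    [IsScalarTower k K L] [Algebra.IsAlgebraic K L] (w : Place k L) : Prop :=
  ∀ x : L, w.ring.valuation x < 1 → ∃ y : K, w.ring.valuation (algebraMap K L y) < 1 ∧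
    w.ring.valuation x ≤ w.ring.valuation (algebraMap K L y)

end Restrict

section Zeta

variable (k F : Type*) [Field k] [Field F] [Algebra k F]

/-- The zeta function `∑_{D ≥ 0} s ^ (deg D) = ∏_v (1 - s ^ (deg v))⁻¹` of a function field `F / k`,
as a formal power series: the coefficient of `s ^ d` is the number of effective divisors
(finitely supported families of multiplicities of places) of degree `d`. -/
noncomputable def zetaSeries : PowerSeries ℤ :=
  PowerSeries.mk fun d =>
    (Nat.card {D : Place k F →₀ ℕ // (D.sum fun v m => m * v.deg) = d} : ℤ)

/-- `P` is the L-polynomial of `F / k`, where `q = #k`: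
`Z(s) = P(s) / ((1 - s) (1 - q s))`. -/
def IsLPolynomial (P : ℤ[X]) : Prop :=
  (P : PowerSeries ℤ) =
    zetaSeries k F * (1 - PowerSeries.X) * (1 - PowerSeries.C (Nat.card k : ℤ) * PowerSeries.X)

end Zeta

section Tower

/-- `(L n)` is (the tower of function fields of) a `ℤ_p`-tower of smooth projective geometrically
connected curves over `k`, with bottom function field `K`: `L 0 = K ⊆ L 1 ⊆ L 2 ⊆ ...`, each
`L n / K` is Galois with group `ℤ / p ^ n`, there is no constant field extension, and the tower
is ramified over only finitely many places of `K`. -/
structure IsZpTower (p : ℕ) (k : Type*) {K Ω : Type*} [Field k] [Field K] [Algebra k K] [Field Ω]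
    [Algebra k Ω] [Algebra K Ω] [IsScalarTower k K Ω] (L : ℕ → IntermediateField K Ω) : Prop where
  zero : L 0 = ⊥
  le_succ : ∀ n, L n ≤ L (n + 1)
  finiteDimensional : ∀ n, FiniteDimensional K (L n)
  isGalois : ∀ n, IsGalois K (L n)
  group : ∀ n, Nonempty ((L n ≃ₐ[K] L n) ≃* Multiplicative (ZMod (p ^ n)))
  isFullConstantField : ∀ n, IsFullConstantField k (L n)
  finite_ramified : {v : Place k K | ∃ n, ∃ w : Place k (L n),
    w.below K = v ∧ ¬ w.IsUnramifiedOver K}.Finite

/-- The field generated over `ℚ_p` by the roots of `P` in a fixed algebraic closure of `ℚ_p`. -/
noncomputable def padicSplittingField (p : ℕ) [Fact p.Prime] (P : ℤ[X]) :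
    IntermediateField ℚ_[p] (AlgebraicClosure ℚ_[p]) :=
  IntermediateField.adjoin ℚ_[p] (P.rootSet (AlgebraicClosure ℚ_[p]))

end Tower

end Pool.Agent.helper90.Zp
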