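import Pool.Agent.helper90.Zp.Approx

open scoped Polynomial WithZero

set_option linter.unusedSectionVars false

namespace Pool.Agent.helper90.Zp

section

variable {k F : Type*} [Field k] [Field F] [Algebra k F] [IsFunctionField k F]

theorem sum_ord_mul_deg {x : F} (hx : x ≠ 0) :
    ∑ᶠ v : Place k F, v.ord x * (v.deg : ℤ) = 0 := by
  have h := degD_divisor (k := k) hx
  rw [← h]
  unfold degD Finsupp.sum
  rw [finsum_eq_sum_of_support_subset]
  · rfl
  · intro v hv
    rw [Function.mem_support] at hv
    rw [Finset.mem_coe, Finsupp.mem_support_iff, divisor_apply]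
    intro h0
    rw [h0, zero_mul] at hv
    exact hv rfl

theorem adjoin_inv (x : F) : IntermediateField.adjoin k {x⁻¹} = IntermediateField.adjoin k {x} := by
  apply le_antisymm
  · rw [IntermediateField.adjoin_simple_le_iff]
    exact inv_mem (IntermediateField.mem_adjoin_simple_self k x)
  · rw [IntermediateField.adjoin_simple_le_iff]
    have := inv_mem (IntermediateField.mem_adjoin_simple_self k x⁻¹)
    rwa [inv_inv] at this

/-- number of zeros of `x`, counted with multiplicity and degree -/
theorem sum_zeros_eq_finrank {x : F} (hx : Transcendental k x) :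
    ∑ᶠ (v : Place k F) (_ : v.val x < 1), v.ord x * (v.deg : ℤ) =
      Module.finrank (IntermediateField.adjoin k {x}) F := by
  have hx0 : x ≠ 0 := by rintro rfl; exact hx isAlgebraic_zero
  have h := degD_poleDivisor (transcendental_inv hx)
  rw [adjoin_inv] at h
  rw [← h]
  unfold degD Finsupp.sum
  have hlt : ∀ v : Place k F, v.val x < 1 ↔ 0 < v.ord x := by
    intro v
    rw [v.val_eq_exp_neg_ord hx0, ← WithZero.exp_zero, WithZero.exp_lt_exp]
    omega
  rw [finsum_eq_sum_of_support_subset (s := (poleDivisor k x⁻¹).support)]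
  · apply Finset.sum_congr rfl
    intro v hv
    rw [Finsupp.mem_support_iff, poleDivisor_apply, v.ord_inv, neg_neg] at hv
    have h1 : 0 < v.ord x := by
      by_contra! h'
      apply hv
      rw [max_eq_right h']
    rw [finsum_eq_if, if_pos ((hlt v).mpr h1), poleDivisor_apply, v.ord_inv, neg_neg,
      max_eq_left h1.le]
  · intro v hv
    rw [Function.mem_support, finsum_eq_if] at hv
    rw [Finset.mem_coe, Finsupp.mem_support_iff, poleDivisor_apply, v.ord_inv, neg_neg]
    split_ifs at hv with h1
    · have := (hlt v).mp h1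
      rw [max_eq_left this.le]
      exact this.ne'
    · exact absurd rfl hv

/-- a function with a pole exactly at `v` -/
theorem exists_single_pole (v : Place k F) :
    ∃ f : F, 1 < v.val f ∧ ∀ w : Place k F, w ≠ v → w.val f ≤ 1 := by
  classical
  obtain ⟨γ, hγ⟩ := exists_riemann_bound k F
  obtain ⟨m, hm⟩ := exists_large_multiple v 0 (γ + ell (0 : Place k F →₀ ℤ) + 1)
  rw [add_zero] at hm
  have h1 := hγ (Finsupp.single v (m : ℤ))
  have h2 : ell (0 : Place k F →₀ ℤ) < ell (Finsupp.single v (m : ℤ)) := by linarith
  have h0le : (0 : Place k F →₀ ℤ) ≤ Finsupp.single v (m : ℤ) := by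
    intro w
    rw [Finsupp.single_apply, Finsupp.zero_apply]
    split_ifs <;> positivity
  have h3 : ∃ f ∈ LSpace (Finsupp.single v (m : ℤ)), f ∉ LSpace (0 : Place k F →₀ ℤ) := by
    by_contra! hcon
    have := Submodule.finrank_mono (show LSpace (Finsupp.single v (m : ℤ)) ≤
      LSpace (0 : Place k F →₀ ℤ) from hcon)
    unfold ell at h2
    have h4 : Module.finrank k (LSpace (0 : Place k F →₀ ℤ)) <
      Module.finrank k (LSpace (Finsupp.single v (m : ℤ))) := by exact_mod_cast h2
    omega
  obtain ⟨f, hf1, hf2⟩ := h3
  have h5 : ∀ w : Place k F, w ≠ v → w.val f ≤ 1 := by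
    intro w hw
    have := hf1 w
    rw [Finsupp.single_apply, if_neg (Ne.symm hw), WithZero.exp_zero] at this
    exact this
  refine ⟨f, ?_, h5⟩
  by_contra! h6
  apply hf2
  intro w
  rw [Finsupp.zero_apply, WithZero.exp_zero]
  by_cases hw : w = v
  · subst hw; exact h6
  · exact h5 w hw

theorem transcendental_of_one_lt_val {f : F} {v : Place k F} (h : 1 < v.val f) :
    Transcendental k f := by
  apply transcendental_of_val_ne_one (v := v) _ h.ne'
  rintro rfl
  rw [map_zero] at h
  exact absurd h (not_lt.mpr zero_le)

/-- there is a function with poles exactly at `T` -/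
theorem exists_poles_eq (T : Set (Place k F)) (hT : T.Finite) (hT' : T.Nonempty) :
    ∃ f : F, Transcendental k f ∧ {v : Place k F | 1 < v.val f} = T := by
  classical
  choose g hg1 hg2 using fun v : Place k F => exists_single_pole v
  let f : F := ∑ v ∈ hT.toFinset, g v
  have hout : ∀ v ∉ T, v.val f ≤ 1 := by
    intro v hv
    apply v.val.map_sum_le
    intro w hw
    rw [Set.Finite.mem_toFinset] at hw
    exact hg2 w v (by rintro rfl; exact hv hw)
  have hin : ∀ v ∈ T, 1 < v.val f := by
    intro v hv
    have : v.val f = v.val (g v) := by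
      apply Valuation.map_sum_eq_of_lt _ (by simpa using hv)
      intro w hw
      rw [Finset.mem_sdiff, Finset.mem_singleton] at hw
      exact lt_of_le_of_lt (hg2 w v (Ne.symm hw.2)) (hg1 v)
    rw [this]; exact hg1 v
  refine ⟨f, ?_, ?_⟩
  · obtain ⟨v, hv⟩ := hT'
    exact transcendental_of_one_lt_val (hin v hv)
  · ext v
    constructor
    · intro hv
      by_contra h
      exact absurd hv (not_lt.mpr (hout v h))
    · exact hin v

theorem finite_deg_eq [Finite k] (d : ℕ) : {v : Place k F | v.deg = d}.Finite := by
  obtain ⟨t, ht, -⟩ := IsFunctionField.exists_transcendental (k := k) (F := F)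
  rcases Nat.eq_zero_or_pos d with rfl | hd
  · convert Set.finite_empty
    ext v
    simp [v.deg_pos.ne']
  set q := Nat.card k with hq
  have hq1 : 1 < q := Finite.one_lt_card
  let y : F := t ^ (q ^ d) - t
  have hy : Transcendental k y := by
    intro halg
    have h1 : Polynomial.aeval t (Polynomial.X ^ (q ^ d) - Polynomial.X : k[X]) = y := by simp [y]
    have hqd : 1 < q ^ d := Nat.one_lt_pow hd.ne' hq1
    have hdeg : (Polynomial.X ^ (q ^ d) - Polynomial.X : k[X]).natDegree = q ^ d := by
      rw [Polynomial.natDegree_sub_eq_left_of_natDegree_lt]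
      · simp
      · simpa using hqd
    rw [← h1] at halg
    obtain ⟨P, hP0, hP⟩ := halg
    apply ht
    refine ⟨P.comp (Polynomial.X ^ (q ^ d) - Polynomial.X : k[X]), ?_, ?_⟩
    · intro h0
      rcases (Polynomial.comp_eq_zero_iff).mp h0 with h | ⟨-, h⟩
      · exact hP0 h
      · rw [h, Polynomial.natDegree_C] at hdeg
        omega
    · rw [Polynomial.aeval_comp]; exact hP
  apply ((finite_zeros hy).union (finite_zeros (transcendental_inv ht))).subset
  intro v hv
  by_cases htv : v.val t ≤ 1
  · left
    have hmem : t ∈ v.ring := (v.val_le_one_iff t).mp htv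
    have hfin : Finite (IsLocalRing.ResidueField v.ring) := Module.finite_of_finite k
    have hcard : Nat.card (IsLocalRing.ResidueField v.ring) = q ^ d := by
      rw [Module.natCard_eq_pow_finrank (K := k), ← hq]
      congr 1
    have h1 : (IsLocalRing.residue v.ring ⟨t, hmem⟩) ^ (q ^ d) =
        IsLocalRing.residue v.ring ⟨t, hmem⟩ := by
      rw [← hcard]
      have : Fintype (IsLocalRing.ResidueField v.ring) := Fintype.ofFinite _
      rw [Nat.card_eq_fintype_card]
      exact FiniteField.pow_card _
    rw [← sub_eq_zero, ← map_pow, ← map_sub, v.residue_eq_zero_iff, ← v.val_lt_one_iff] at h1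
    exact h1
  · right
    push Not at htv
    change v.val t⁻¹ < 1
    rw [map_inv₀]
    exact inv_lt_one_of_one_lt₀ htv

/-- the ring of functions regular outside the poles of `h` is a finite `k[h]`-module -/
theorem exists_finset_span_eq (h : F) (hh : Transcendental k h) :
    ∃ s : Finset F, ∀ f : F, f ∈ regularOutside {v : Place k F | h ∉ v.ring} ↔
      f ∈ Submodule.span (Algebra.adjoin k {h}) (s : Set F) := by
  classical
  have hh0 : h ≠ 0 := by rintro rfl; exact hh isAlgebraic_zero
  obtain ⟨g, c, -, hc⟩ := exists_riemann k F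
  have hdeg := degD_poleDivisor hh
  have hfin := finiteDimensional_adjoin hh
  set B := poleDivisor k h with hB
  set n : ℤ := ((Module.finrank (IntermediateField.adjoin k {h}) F : ℕ) : ℤ) with hn
  have hn0 : 0 < n := by
    rw [hn]
    exact_mod_cast Module.finrank_pos
  have hB0 : 0 ≤ B := poleDivisor_nonneg h
  have hell : ∀ l : ℤ, c ≤ l * n → ell (l • B) = l * n - g := by
    intro l hl
    rw [hc _ (by rw [degD_smul, hdeg]; exact hl), degD_smul, hdeg]
  obtain ⟨l1, hl1, hl1'⟩ : ∃ l1 : ℕ, c ≤ ((l1 : ℤ) - 1) * n ∧ 1 ≤ l1 := by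
    refine ⟨c.toNat + 1, ?_, by omega⟩
    push_cast
    have := Int.self_le_toNat c
    nlinarith
  -- the key step
  have hstep : ∀ l : ℕ, l1 ≤ l → ∀ f ∈ LSpace (((l : ℤ) + 1) • B),
      ∃ f1 ∈ LSpace ((l : ℤ) • B), ∃ f2 ∈ LSpace ((l : ℤ) • B), f = f1 + h * f2 := by
    intro l hl
    let V := LSpace ((l : ℤ) • B)
    let mulh : F →ₗ[k] F := LinearMap.mulLeft k h
    let U := V.map mulh
    have hVle : V ≤ LSpace (((l : ℤ) + 1) • B) := by
      apply LSpace_mono
      intro v
      rw [Finsupp.smul_apply, Finsupp.smul_apply, smul_eq_mul, smul_eq_mul]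
      have := hB0 v
      rw [Finsupp.zero_apply] at this
      nlinarith
    have hUle : U ≤ LSpace (((l : ℤ) + 1) • B) := by
      rintro _ ⟨f, hf, rfl⟩
      have := mul_mem_LSpace (mem_LSpace_poleDivisor (k := k) h) hf
      rw [← hB] at this
      have heq : B + (l : ℤ) • B = ((l : ℤ) + 1) • B := by rw [add_smul, one_smul, add_comm]
      rw [heq] at this
      exact this
    have hinj : Function.Injective mulh := by
      intro a b hab
      exact mul_left_cancel₀ hh0 hab
    have hinf : V ⊓ U = (LSpace (((l : ℤ) - 1) • B)).map mulh := by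
      ext f
      constructor
      · rintro ⟨hfV, f', hf', rfl⟩
        refine ⟨f', ?_, rfl⟩
        intro v
        have h1 := hfV v
        have h2 := hf' v
        change v.val (h * f') ≤ _ at h1
        rw [Finsupp.smul_apply, smul_eq_mul] at h1 h2 ⊢
        by_cases hv : v.ord h < 0
        · have hBv : B v = - v.ord h := by
            rw [hB, poleDivisor_apply, max_eq_left]; omega
          rw [map_mul, v.val_eq_exp_neg_ord hh0, ← hBv] at h1
          have h3 : WithZero.exp ((l : ℤ) * B v) =
              WithZero.exp (B v) * (WithZero.exp (((l : ℤ) - 1) * B v) : ℤᵐ⁰) := by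
            rw [← WithZero.exp_add]
            congr 1
            ring
          rw [h3] at h1
          exact (mul_le_mul_iff_right₀ WithZero.exp_pos).mp h1
        · have hBv : B v = 0 := by
            rw [hB, poleDivisor_apply, max_eq_right]; omega
          rw [hBv, mul_zero] at h2 ⊢
          exact h2
      · rintro ⟨f', hf', rfl⟩
        constructor
        · have := mul_mem_LSpace (mem_LSpace_poleDivisor (k := k) h) hf'
          rw [← hB] at this
          have heq : B + ((l : ℤ) - 1) • B = (l : ℤ) • B := by rw [sub_smul, one_smul]; abel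
          rw [heq] at this
          exact this
        · refine ⟨f', ?_, rfl⟩
          apply LSpace_mono _ hf'
          intro v
          rw [Finsupp.smul_apply, Finsupp.smul_apply, smul_eq_mul, smul_eq_mul]
          have := hB0 v
          rw [Finsupp.zero_apply] at this
          nlinarith
    have hdimsum := Submodule.finrank_sup_add_finrank_inf_eq V U
    have hdU : (Module.finrank k U : ℤ) = ell ((l : ℤ) • B) := by
      unfold ell
      rw [← (Submodule.equivMapOfInjective mulh hinj V).finrank_eq]
    have hdI : (Module.finrank k (V ⊓ U : Submodule k F) : ℤ) = ell (((l : ℤ) - 1) • B) := by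
      rw [hinf]
      unfold ell
      rw [← (Submodule.equivMapOfInjective mulh hinj _).finrank_eq]
    have hl' : (l1 : ℤ) ≤ l := by exact_mod_cast hl
    have e1 := hell l (by nlinarith)
    have e2 := hell ((l : ℤ) - 1) (by nlinarith)
    have e3 := hell ((l : ℤ) + 1) (by nlinarith)
    have hdimsum' : (Module.finrank k (V ⊔ U : Submodule k F) : ℤ) +
        Module.finrank k (V ⊓ U : Submodule k F) = ell ((l : ℤ) • B) + Module.finrank k U := by
      unfold ell
      exact_mod_cast hdimsum
    have htop : V ⊔ U = LSpace (((l : ℤ) + 1) • B) := by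
      apply Submodule.eq_of_le_of_finrank_eq (sup_le hVle hUle)
      have : (Module.finrank k (V ⊔ U : Submodule k F) : ℤ) = ell (((l : ℤ) + 1) • B) := by
        rw [hdU, hdI] at hdimsum'
        rw [e3]
        linarith
      unfold ell at this
      exact_mod_cast this
    intro f hf
    rw [← htop, Submodule.mem_sup] at hf
    obtain ⟨f1, hf1, f2, hf2, rfl⟩ := hf
    obtain ⟨f3, hf3, rfl⟩ := hf2
    exact ⟨f1, hf1, f3, hf3, rfl⟩
  -- generating set
  let s : Finset F := Finset.univ.image
    (fun i => ((Module.finBasis k (LSpace ((l1 : ℤ) • B)) i : LSpace ((l1 : ℤ) • B)) : F))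
  have hspan0 : ∀ f ∈ LSpace ((l1 : ℤ) • B), f ∈ Submodule.span (Algebra.adjoin k {h}) (s : Set F) := by
    intro f hf
    have h1 := (Module.finBasis k (LSpace ((l1 : ℤ) • B))).sum_repr ⟨f, hf⟩
    have h2 : f = ∑ i, (Module.finBasis k (LSpace ((l1 : ℤ) • B))).repr ⟨f, hf⟩ i •
        ((Module.finBasis k (LSpace ((l1 : ℤ) • B)) i : LSpace ((l1 : ℤ) • B)) : F) := by
      have := congrArg Subtype.val h1
      rw [Submodule.coe_sum] at this
      exact this.symm
    rw [h2]
    apply Submodule.sum_mem
    intro i _
    rw [← algebraMap_smul (Algebra.adjoin k {h})]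
    apply Submodule.smul_mem
    apply Submodule.subset_span
    simp [s]
  have hspan : ∀ l : ℕ, ∀ f ∈ LSpace (((l1 + l : ℕ) : ℤ) • B),
      f ∈ Submodule.span (Algebra.adjoin k {h}) (s : Set F) := by
    intro l
    induction l with
    | zero => simpa using hspan0
    | succ l ih =>
      intro f hf
      obtain ⟨f1, hf1, f2, hf2, rfl⟩ := hstep (l1 + l) (by omega) f (by
        have heq : (((l1 + l : ℕ) : ℤ) + 1) = ((l1 + (l + 1) : ℕ) : ℤ) := by push_cast; ring
        rw [heq]
        exact hf)
      apply Submodule.add_mem _ (ih f1 hf1)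
      have h3 := ih f2 hf2
      exact Submodule.smul_mem _ (⟨h, Algebra.subset_adjoin rfl⟩ : Algebra.adjoin k {h}) h3
  refine ⟨s, ?_⟩
  intro f
  constructor
  · intro hf
    by_cases hf0 : f = 0
    · subst hf0; exact Submodule.zero_mem _
    -- find l with f ∈ L(l B)
    obtain ⟨l, hl⟩ : ∃ l : ℕ, f ∈ LSpace (((l1 + l : ℕ) : ℤ) • B) := by
      refine ⟨∑ v ∈ (poleDivisor k f).support, (poleDivisor k f v).toNat, ?_⟩
      rw [mem_LSpace_iff_ord hf0]
      intro v
      rw [Finsupp.zero_apply, Finsupp.add_apply, divisor_apply, Finsupp.smul_apply, smul_eq_mul]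
      by_cases hv : h ∈ v.ring
      · have h1 : f ∈ v.ring := hf v (by simpa using hv)
        rw [← v.val_le_one_iff, v.val_eq_exp_neg_ord hf0, ← WithZero.exp_zero,
          WithZero.exp_le_exp] at h1
        have h2 := hB0 v
        rw [Finsupp.zero_apply] at h2
        have : 0 ≤ v.ord f := by omega
        positivity
      · have h1 : 1 ≤ B v := by
          rw [← v.val_le_one_iff, v.val_eq_exp_neg_ord hh0, ← WithZero.exp_zero,
            WithZero.exp_le_exp] at hv
          rw [hB, poleDivisor_apply]
          omega
        have h2 : -(v.ord f) ≤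
            ((∑ v ∈ (poleDivisor k f).support, (poleDivisor k f v).toNat : ℕ) : ℤ) := by
          by_cases hvs : v ∈ (poleDivisor k f).support
          · have h3 := Finset.single_le_sum
              (f := fun v : Place k F => (poleDivisor k f v).toNat)
              (fun _ _ => Nat.zero_le _) hvs
            have h4 : -(v.ord f) ≤ ((poleDivisor k f v).toNat : ℤ) := by
              rw [poleDivisor_apply]; omega
            have h5 : (((poleDivisor k f v).toNat : ℕ) : ℤ) ≤
              ((∑ v ∈ (poleDivisor k f).support, (poleDivisor k f v).toNat : ℕ) : ℤ) := by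
              exact_mod_cast h3
            exact h4.trans h5
          · rw [Finsupp.mem_support_iff, not_not, poleDivisor_apply] at hvs
            have : -(v.ord f) ≤ 0 := by
              rw [← hvs]; exact le_max_left _ _
            exact this.trans (by positivity)
        push_cast at h2 ⊢
        have h6 : (0 : ℤ) ≤ l1 + ∑ v ∈ (poleDivisor k f).support, ((poleDivisor k f v).toNat : ℤ) := by
          positivity
        nlinarith
    exact hspan l f hl
  · intro hf
    have hsub : ∀ y ∈ (s : Set F), y ∈ regularOutside {v : Place k F | h ∉ v.ring} := by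
      intro y hy
      simp only [s, Finset.coe_image, Finset.coe_univ, Set.image_univ, Set.mem_range] at hy
      obtain ⟨i, rfl⟩ := hy
      intro v hv
      have h1 := (Module.finBasis k (LSpace ((l1 : ℤ) • B)) i).2 v
      rw [Finsupp.smul_apply, smul_eq_mul] at h1
      have hv' : h ∈ v.ring := by simpa using hv
      rw [← v.val_le_one_iff, v.val_eq_exp_neg_ord hh0, ← WithZero.exp_zero,
            WithZero.exp_le_exp] at hv'
      have hBv : B v = 0 := by
        rw [hB, poleDivisor_apply, max_eq_right hv']
      rw [hBv, mul_zero, WithZero.exp_zero, v.val_le_one_iff] at h1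
      exact h1
    have hadj : ∀ c : Algebra.adjoin k {h}, (c : F) ∈ regularOutside {v : Place k F | h ∉ v.ring} := by
      intro c
      have : Algebra.adjoin k {h} ≤ regularOutside {v : Place k F | h ∉ v.ring} := by
        apply Algebra.adjoin_le
        intro y hy
        rw [Set.mem_singleton_iff] at hy
        subst hy
        intro v hv
        simpa using hv
      exact this c.2
    induction hf using Submodule.span_induction with
    | mem y hy => exact hsub y hy
    | zero => exact Subalgebra.zero_mem _
    | add y z _ _ hy hz => exact Subalgebra.add_mem _ hy hz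
    | smul c y _ hy =>
      rw [Algebra.smul_def]
      exact Subalgebra.mul_mem _ (hadj c) hy

end

end Pool.Agent.helper90.Zp
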