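import Pool.Agent.helper90.Zp.PolyL
import Pool.Agent.helper68.Zp.Reciprocity
import Pool.Agent.helper41.Zp.Artin

open scoped Polynomial WithZero

set_option linter.unusedSectionVars false

namespace Pool.Agent.helper90.Zp

section

variable {k K L : Type*} [Field k] [Finite k] [Field K] [Field L] [Algebra k K] [Algebra k L]
  [Algebra K L] [IsScalarTower k K L] [IsFunctionField k K] [IsFunctionField k L]
  [FiniteDimensional K L] {R : Type*} [Field R] [CharZero R]

/-- characters have a modulus -/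
theorem exists_modulus (p n : ℕ) [Fact p.Prime] [CharP k p] [IsGalois K L] {γ : L ≃ₐ[K] L}
    (hγ : ∀ σ : L ≃ₐ[K] L, σ ∈ Subgroup.zpowers γ)
    (hcard : Nat.card (L ≃ₐ[K] L) = p ^ n) (T : Finset (Place k K)) (hTne : T.Nonempty)
    (hT : ∀ w : Place k L, w.below K ∉ T → w.IsUnramifiedOver K) (a : Place k K → ℕ)
    (ha : ∀ v ∉ T, IsFrob v (γ ^ a v)) {ζ : R} (hζ : ζ ^ p ^ n = 1) :
    ∃ m : ℕ, 0 < m ∧ ∀ g : K, g ≠ 0 →
      (∀ v ∈ T, v.val (g - 1) ≤ WithZero.exp (-(m : ℤ))) →
      dwt (fun v => ζ ^ a v) (divisor k g) = 1 := by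
  classical
  have hpos : 0 < p ^ n := pow_pos (Fact.out : p.Prime).pos n
  have hζ0 : ζ ≠ 0 := by
    rintro rfl
    rw [zero_pow hpos.ne'] at hζ
    exact zero_ne_one hζ
  obtain ⟨E, hE0, hE⟩ := exists_artin_poly (K := K) (L := L) p n (T : Set (Place k K))
    T.finite_toSet (by exact_mod_cast hTne) (by
      intro w hw
      exact hT w (by simpa using hw)) γ hγ hcard a (by
      intro v hv
      exact ha v (by simpa using hv))
  obtain ⟨m, hm⟩ := Pool.Agent.helper68.Zp.reciprocity p (T : Set (Place k K)) T.finite_toSet n E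
    hE0 a hE
  refine ⟨m + 1, Nat.succ_pos m, ?_⟩
  intro g hg hgT
  have h1 := hm g hg (by
    intro v hv
    refine (hgT v (by simpa using hv)).trans ?_
    rw [WithZero.exp_le_exp]
    push_cast
    omega)
  have h2 : (∑ᶠ (v : Place k K) (_ : v ∉ (T : Set (Place k K))), v.ord g * (a v : ℤ)) =
      ∑ v ∈ (divisor k g).support, v.ord g * (a v : ℤ) := by
    have h3 : (∑ᶠ (v : Place k K) (_ : v ∉ (T : Set (Place k K))), v.ord g * (a v : ℤ)) =
        ∑ᶠ (v : Place k K), v.ord g * (a v : ℤ) := by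
      apply finsum_congr
      intro v
      by_cases hv : v ∈ (T : Set (Place k K))
      · rw [finsum_eq_if, if_neg (not_not.mpr hv)]
        rw [(v.ord_eq_zero_iff hg).mpr
          (val_eq_one_of_congr (Nat.succ_pos m) (hgT v (by simpa using hv))), zero_mul]
      · rw [finsum_eq_if, if_pos hv]
    rw [h3]
    apply finsum_eq_finsetSum_of_support_subset
    intro v hv
    rw [Function.mem_support] at hv
    rw [Finset.mem_coe, Finsupp.mem_support_iff, divisor_apply]
    exact left_ne_zero_of_mul hv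
  rw [h2] at h1
  obtain ⟨c, hc⟩ := (ZMod.intCast_zmod_eq_zero_iff_dvd _ (p ^ n)).mp h1
  have h4 : dwt (fun v => ζ ^ a v) (divisor k g) =
      ζ ^ (∑ v ∈ (divisor k g).support, v.ord g * (a v : ℤ)) := by
    rw [zpow_sum_aux _ _ hζ0]
    apply Finset.prod_congr rfl
    intro v _
    change (ζ ^ a v) ^ (v.ord g) = ζ ^ (v.ord g * (a v : ℤ))
    rw [← zpow_natCast, ← zpow_mul, mul_comm]
  rw [h4, hc, zpow_mul, zpow_natCast, hζ, one_zpow]

end

end Pool.Agent.helper90.Zp
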