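import Pool.Agent.helper90.Zp.Coeffs
import Pool.Agent.helper90.Zp.Data
import Pool.Agent.helper90.Zp.Recip
import Pool.Agent.helper86.Zp.Cyc
import Pool.Agent.helper68.Zp.FactorCoeff
import Pool.Agent.helper68.Zp.MapPlace

open scoped Polynomial WithZero

set_option linter.unusedSectionVars false

namespace Pool.Agent.helper90.Zp

section

variable {p : ℕ} [Fact p.Prime] {k K Ω : Type*} [Field k] [Finite k] [CharP k p] [Field K]
  [Algebra k K] [IsFunctionField k K] [Field Ω] [Algebra k Ω] [Algebra K Ω] [IsScalarTower k K Ω]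

theorem exists_primitive_roots (p : ℕ) [Fact p.Prime] :
    ∃ ζ : ℕ → AlgebraicClosure ℚ_[p], ∀ n, IsPrimitiveRoot (ζ n) (p ^ n) := by
  have h : ∀ n : ℕ, ∃ ζ : AlgebraicClosure ℚ_[p], IsPrimitiveRoot ζ (p ^ n) := by
    intro n
    have hp : p.Prime := Fact.out
    have hpos : 0 < p ^ n := pow_pos hp.pos n
    have : NeZero ((p ^ n : ℕ) : AlgebraicClosure ℚ_[p]) := ⟨by
      rw [Nat.cast_ne_zero]; exact hpos.ne'⟩
    obtain ⟨ζ, hζ⟩ := IsAlgClosed.exists_root (Polynomial.cyclotomic (p ^ n) (AlgebraicClosure ℚ_[p]))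
      (Polynomial.degree_cyclotomic_pos _ _ hpos).ne'
    exact ⟨ζ, Polynomial.isRoot_cyclotomic_iff.mp hζ⟩
  choose ζ hζ using h
  exact ⟨ζ, hζ⟩

/-- Statement about the L-series of the characters in a tower. -/
theorem tower_LSer {R : Type*} [Field R] [CharZero R] [IsAlgClosed R]
    {L : ℕ → IntermediateField K Ω} (h : IsZpTower p k L)
    [hff : ∀ n, IsFunctionField k (L n)] [hfd : ∀ n, FiniteDimensional K (L n)] {P0 : ℤ[X]}
    (P : ℕ → ℤ[X]) (hP0 : IsLPolynomial k K P0)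
    (hP : ∀ n, IsLPolynomial k (L n) (P n)) (T0 : Finset (Place k K))
    (γ : ∀ n, L n ≃ₐ[K] L n) (a : ℕ → Place k K → ℕ)
    (hγ : ∀ n, ∀ σ : L n ≃ₐ[K] L n, σ ∈ Subgroup.zpowers (γ n))
    (hunr : ∀ n (w : Place k (L n)), w.below K ∉ T0 → w.IsUnramifiedOver K)
    (hfrob : ∀ v ∉ T0, ∀ n, IsFrob v (γ n ^ a n v))
    (hcompat : ∀ v ∉ T0, ∀ n, ((a (n + 1) v : ℕ) : ZMod (p ^ n)) = ((a n v : ℕ) : ZMod (p ^ n)))
    (ζ : ℕ → R) (hζ : ∀ n, IsPrimitiveRoot (ζ n) (p ^ n)) :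
    (∃ Λ : ℕ → R[X], ∀ n, (Λ n : PowerSeries R) = LSer T0 (a (n + 1)) (ζ (n + 1)) ∧
      Λ n ∣ (P (n + 1)).map (Int.castRingHom R) *
      ∏ w ∈ above (L (n + 1)) T0, (1 - Polynomial.X ^ w.deg)) ∧
    ∃ x0, x0 ∉ T0 ∧ ((a 1 x0 : ℕ) : ZMod (p ^ 1)) ≠ 0 := by
  classical
  have hp : p.Prime := Fact.out
  have hgal := h.isGalois
  -- compatibility modulo `p`
  have hcp : ∀ v ∉ T0, ∀ n, ((a (n + 1) v : ℕ) : ZMod p) = ((a 1 v : ℕ) : ZMod p) := by
    intro v hv n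
    induction n with
    | zero => rfl
    | succ n ih =>
      rw [← ih]
      have h1 := hcompat v hv (n + 1)
      rw [ZMod.natCast_eq_natCast_iff] at h1 ⊢
      exact h1.of_dvd (dvd_pow_self p (Nat.succ_ne_zero n))
  -- nontriviality on degree zero divisors, level 1
  have hM9 : ∀ ζ' : R, IsPrimitiveRoot ζ' p → ∀ T' : Finset (Place k K), T0 ⊆ T' →
      ∃ J : Place k K →₀ ℤ, (∀ v ∈ T', J v = 0) ∧ degD J = 0 ∧
        dwt (fun v => ζ' ^ a 1 v) J ≠ 1 := by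
    intro ζ' hζ' T' hT'
    have hc1 : Nat.card (L 1 ≃ₐ[K] L 1) = p := by rw [h.card 1, pow_one]
    exact exists_deg_zero_nontrivial (hγ 1) hc1 T'
      (fun w hw => hunr 1 w (fun hw' => hw (hT' hw'))) (a 1)
      (fun v hv => hfrob v (fun hv' => hv (hT' hv')) 1) hζ' hP0 (hP 1)
  -- nontriviality, all levels
  have hJ : ∀ n, ∀ ξ : R, ξ ^ p ^ (n + 1) = 1 → ξ ≠ 1 → ∀ T' : Finset (Place k K), T0 ⊆ T' →
      ∃ J : Place k K →₀ ℤ, (∀ v ∈ T', J v = 0) ∧ degD J = 0 ∧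
        dwt (fun v => ξ ^ a (n + 1) v) J ≠ 1 := by
    intro n ξ hξ hξ1 T' hT'
    obtain ⟨j, hj, hj'⟩ := (Nat.dvd_prime_pow hp).mp (orderOf_dvd_of_pow_eq_one hξ)
    have hj0 : j ≠ 0 := by
      rintro rfl
      rw [pow_zero, orderOf_eq_one_iff] at hj'
      exact hξ1 hj'
    obtain ⟨i, rfl⟩ := Nat.exists_eq_succ_of_ne_zero hj0
    have hprim : IsPrimitiveRoot (ξ ^ p ^ i) p := by
      have h1 := IsPrimitiveRoot.orderOf ξ
      rw [hj'] at h1
      exact h1.pow (pow_pos hp.pos _) (by rw [pow_succ])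
    obtain ⟨J, hJT, hJ0, hJ1⟩ := hM9 _ hprim T' hT'
    refine ⟨J, hJT, hJ0, ?_⟩
    intro h1
    apply hJ1
    have h2 : dwt (fun v => (ξ ^ p ^ i) ^ a 1 v) J =
        dwt (fun v => (ξ ^ p ^ i) ^ a (n + 1) v) J := by
      apply Finset.prod_congr rfl
      intro v hv
      have hvT : v ∉ T0 := by
        intro hvT
        rw [Finsupp.mem_support_iff] at hv
        exact hv (hJT v (hT' hvT))
      have h3 := hcp v hvT n
      rw [ZMod.natCast_eq_natCast_iff] at h3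
      have h4 : (ξ ^ p ^ i) ^ a 1 v = (ξ ^ p ^ i) ^ a (n + 1) v := by
        rw [pow_eq_pow_mod (a 1 v) hprim.pow_eq_one, pow_eq_pow_mod (a (n + 1) v) hprim.pow_eq_one,
          h3]
      simp only [h4]
    have h3 : dwt (fun v => (ξ ^ p ^ i) ^ a (n + 1) v) J =
        dwt (fun v => ξ ^ a (n + 1) v) J ^ p ^ i := by
      unfold dwt Finsupp.prod
      rw [← Finset.prod_pow]
      apply Finset.prod_congr rfl
      intro v _
      change ((ξ ^ p ^ i) ^ a (n + 1) v) ^ J v = ((ξ ^ a (n + 1) v) ^ J v) ^ p ^ i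
      have h5 : (ξ ^ p ^ i) ^ a (n + 1) v = (ξ ^ a (n + 1) v) ^ p ^ i := by
        rw [← pow_mul, ← pow_mul, mul_comm]
      rw [h5]
      generalize ξ ^ a (n + 1) v = x
      rw [← zpow_natCast x (p ^ i), ← zpow_mul, mul_comm, zpow_mul, zpow_natCast]
    rw [h2, h3, h1, one_pow]
  -- L-series are polynomials
  have hpoly : ∀ n, ∀ ξ : R, ξ ^ p ^ (n + 1) = 1 → ξ ≠ 1 →
      ∃ Q : R[X], (Q : PowerSeries R) = LSer T0 (a (n + 1)) ξ := by
    intro n ξ hξ hξ1
    have hpos : 0 < p ^ (n + 1) := pow_pos hp.pos _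
    have hξ0 : ξ ≠ 0 := by
      rintro rfl
      rw [zero_pow hpos.ne'] at hξ
      exact zero_ne_one hξ
    refine LSer_polynomial T0 (a (n + 1)) hξ0 ?_ (hJ n ξ hξ hξ1)
    intro T' hT' hne
    exact exists_modulus p (n + 1) (hγ (n + 1)) (h.card (n + 1)) T' hne
      (fun w hw => hunr (n + 1) w (fun hw' => hw (hT' hw'))) (a (n + 1))
      (fun v hv => hfrob v (fun hv' => hv (hT' hv')) (n + 1)) hξ
  have hζ1 : ∀ n, ζ (n + 1) ≠ 1 := by
    intro n h1
    have h2 := hζ (n + 1)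
    rw [h1] at h2
    have h3 := h2.unique IsPrimitiveRoot.one
    have h4 : 1 < p ^ (n + 1) := Nat.one_lt_pow (Nat.succ_ne_zero n) hp.one_lt
    omega
  have hΛ : ∀ n, ∃ Q : R[X], (Q : PowerSeries R) = LSer T0 (a (n + 1)) (ζ (n + 1)) := fun n =>
    hpoly n (ζ (n + 1)) (hζ (n + 1)).pow_eq_one (hζ1 n)
  choose Λ hΛ using hΛ
  refine ⟨⟨Λ, fun n => ⟨hΛ n, ?_⟩⟩, ?_⟩
  · have h4 : 1 < p ^ (n + 1) := Nat.one_lt_pow (Nat.succ_ne_zero n) hp.one_lt
    refine LSer_dvd (hγ (n + 1)) h4 (h.card (n + 1)) T0 (hunr (n + 1)) (a (n + 1))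
      (fun v hv => hfrob v hv (n + 1)) (hζ (n + 1)) hP0 (hP (n + 1)) ?_ (hΛ n)
    intro i hi0 hi
    apply hpoly n
    · rw [← pow_mul, mul_comm, pow_mul, (hζ (n + 1)).pow_eq_one, one_pow]
    · exact (hζ (n + 1)).pow_ne_one_of_pos_of_lt hi0.ne' hi
  · obtain ⟨J, hJT, hJ0, hJ1⟩ := hM9 (ζ 1) (by simpa using hζ 1) T0 (Finset.Subset.refl _)
    by_contra! hall
    apply hJ1
    apply Finset.prod_eq_one
    intro v hv
    have hvT : v ∉ T0 := by
      intro hvT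
      rw [Finsupp.mem_support_iff] at hv
      exact hv (hJT v hvT)
    have h1 := hall v hvT
    rw [ZMod.natCast_eq_zero_iff] at h1
    have h2 : ζ 1 ^ a 1 v = 1 := by
      rw [(hζ 1).pow_eq_one_iff_dvd]
      exact h1
    simp only [h2, one_zpow]

/-- Lower bound for the degree of a coefficient. -/
theorem coeff_lower_bound (T0 : Finset (Place k K)) (a : ℕ → Place k K → ℕ)
    (hcompat : ∀ v ∉ T0, ∀ n, ((a (n + 1) v : ℕ) : ZMod (p ^ n)) = ((a n v : ℕ) : ZMod (p ^ n)))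
    (ζ : ℕ → AlgebraicClosure ℚ_[p]) (hζ : ∀ n, IsPrimitiveRoot (ζ n) (p ^ n))
    {x0 : Place k K} (hx0T : x0 ∉ T0) (hx0 : ((a 1 x0 : ℕ) : ZMod (p ^ 1)) ≠ 0) :
    ∃ c : ℝ, 0 < c ∧ ∀ᶠ n : ℕ in Filter.atTop,
      c * (p : ℝ) ^ n ≤ Module.finrank ℚ_[p] (IntermediateField.adjoin ℚ_[p]
        {PowerSeries.coeff x0.deg (LSer T0 (a n) (ζ n))}) := by
  classical
  have hp : p.Prime := Fact.out
  set d := x0.deg with hd
  have hmem0 : (Finsupp.single x0 (1 : ℤ)) ∈ (finite_Eff T0 (d : ℤ)).toFinset := by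
    rw [Set.Finite.mem_toFinset]
    refine ⟨?_, ?_, ?_⟩
    · intro v
      rw [Finsupp.zero_apply, Finsupp.single_apply]
      split_ifs <;> norm_num
    · intro v hv
      rw [Finsupp.single_apply, if_neg]
      rintro rfl
      exact hx0T hv
    · rw [degD_single, one_mul]
  obtain ⟨c, hc, hbound⟩ := exists_lower_bound p
    (X := {D : Place k K →₀ ℤ // D ∈ (finite_Eff T0 (d : ℤ)).toFinset})
    (fun n D => ((expo (a n) D.1 : ℤ) : ZMod (p ^ n)))
    (by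
      intro n D
      rw [map_intCast]
      unfold expo Finsupp.sum
      push_cast
      apply Finset.sum_congr rfl
      intro v hv
      have hD := D.2
      rw [Set.Finite.mem_toFinset] at hD
      have hvT : v ∉ T0 := by
        intro hvT
        rw [Finsupp.mem_support_iff] at hv
        exact hv (hD.2.1 v hvT)
      rw [hcompat v hvT n])
    ⟨Finsupp.single x0 1, hmem0⟩
    (by
      unfold expo
      rw [Finsupp.sum_single_index (by simp), one_mul]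
      exact_mod_cast hx0) ζ hζ
  refine ⟨c, hc, ?_⟩
  filter_upwards [hbound] with n hn
  have hcoef : (∑ D : {D : Place k K →₀ ℤ // D ∈ (finite_Eff T0 (d : ℤ)).toFinset},
      ζ n ^ ((expo (a n) D.1 : ℤ) : ZMod (p ^ n)).val) = PowerSeries.coeff d (LSer T0 (a n) (ζ n)) := by
    rw [coeff_LSer, ← Finset.sum_coe_sort (finite_Eff T0 (d : ℤ)).toFinset]
    apply Finset.sum_congr rfl
    intro D _
    rw [dwt_eq_pow (pow_pos hp.pos _) _ (hζ n).pow_eq_one]
  rw [← hcoef]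
  exact hn

/-- The main theorem: the degree of the `p`-adic splitting field of the L-polynomials in a
`ℤ_p`-tower grows at least like a constant times `p ^ n`. -/
theorem main_bound {L : ℕ → IntermediateField K Ω} (h : IsZpTower p k L) (P : ℕ → ℤ[X])
    (hP : ∀ n, IsLPolynomial k (L n) (P n)) :
    ∃ c : ℝ, 0 < c ∧ ∀ᶠ n : ℕ in Filter.atTop,
      c * (p : ℝ) ^ n ≤ Module.finrank ℚ_[p] (padicSplittingField p (P n)) := by
  classical
  have hfd := h.finiteDimensional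
  have hff : ∀ n, IsFunctionField k (L n) := fun n =>
    IsFunctionField.of_finiteDimensional (k := k) (K := K) (L := L n)
  obtain ⟨T0, γ, a, B, hγ, hunr, hfrob, hcompat, hB⟩ := h.exists_data
  have hP0 : IsLPolynomial k K (P 0) := by
    have e1 : (L 0) ≃ₐ[K] K :=
      (IntermediateField.equivOfEq h.zero).trans (IntermediateField.botEquiv K Ω)
    exact Pool.Agent.helper68.Zp.IsLPolynomial.of_algEquiv (e1.restrictScalars k) (hP 0)
  obtain ⟨ζ, hζ⟩ := exists_primitive_roots p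
  obtain ⟨⟨Λ, hΛ⟩, x0, hx0T, hx0⟩ := tower_LSer h P hP0 hP T0 γ a hγ hunr hfrob hcompat ζ hζ
  obtain ⟨c, hc, hbound⟩ := coeff_lower_bound T0 a hcompat ζ hζ hx0T hx0
  refine ⟨c / B.factorial, by positivity, ?_⟩
  filter_upwards [hbound, Filter.eventually_ge_atTop 1] with n hn hn1
  obtain ⟨n, rfl⟩ := Nat.exists_eq_succ_of_ne_zero (by omega : n ≠ 0)
  have hne : P (n + 1) ≠ 0 := by
    intro h0
    have h2 := eval_LPolynomial_ne_zero (R := ℚ) (hP (n + 1))
    rw [h0, Polynomial.map_zero, Polynomial.eval_zero] at h2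
    exact h2 rfl
  have h0 : (Λ n).coeff 0 = 1 := by
    rw [← Polynomial.coeff_coe, (hΛ n).1, coeff_zero_LSer]
  have h1 := Pool.Agent.helper68.Zp.finrank_coeff_le p (P (n + 1)) hne B (above (L (n + 1)) T0) (fun w => w.deg)
    (fun w _ => w.deg_pos) (fun w hw => hB (n + 1) w (mem_above.mp hw)) (Λ n) h0 (hΛ n).2 x0.deg
  rw [← Polynomial.coeff_coe, (hΛ n).1] at h1
  have h2 : (c : ℝ) * (p : ℝ) ^ (n + 1) ≤ B.factorial *
      Module.finrank ℚ_[p] (padicSplittingField p (P (n + 1))) := by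
    refine hn.trans ?_
    exact_mod_cast h1
  have hBpos : (0 : ℝ) < B.factorial := by exact_mod_cast B.factorial_pos
  rw [div_mul_eq_mul_div, div_le_iff₀ hBpos, Nat.succ_eq_add_one]
  linarith

end

end Pool.Agent.helper90.Zp
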