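import Pool.Agent.helper90.Zp.Product

open scoped Polynomial WithZero

set_option linter.unusedSectionVars false

namespace Pool.Agent.helper90.Zp

section

variable {k K : Type*} [Field k] [Finite k] [Field K] [Algebra k K] [IsFunctionField k K]
  {R : Type*} [CommRing R]

theorem LSer_rescale (T : Finset (Place k K)) (a : Place k K → ℕ) {ζ η : R}
    (h : ∀ v ∉ T, ζ ^ a v = η ^ v.deg) : LSer T a ζ = PowerSeries.rescale η (LSer T a (1 : R)) := by
  ext d
  rw [PowerSeries.coeff_rescale]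
  unfold LSer eulerSeries
  rw [PowerSeries.coeff_mk, PowerSeries.coeff_mk]
  have hfin : Finite {D : Place k K →₀ ℕ // (D.sum fun v m => m * v.deg) = d} :=
    finite_degree_eq (fun v : Place k K => v.deg) (fun v => v.deg_pos) finite_deg_eq d
  have := Fintype.ofFinite {D : Place k K →₀ ℕ // (D.sum fun v m => m * v.deg) = d}
  rw [finsum_eq_sum_of_fintype, finsum_eq_sum_of_fintype, Finset.mul_sum]
  apply Finset.sum_congr rfl
  intro D _
  have h1 : ∀ v, chi T a ζ v = η ^ v.deg * chi T a (1 : R) v := by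
    intro v
    by_cases hv : v ∈ T
    · rw [chi_of_mem a ζ hv, chi_of_mem a 1 hv, mul_zero]
    · rw [chi_of_notMem a ζ hv, chi_of_notMem a 1 hv, one_pow, mul_one, h v hv]
  have h2 : η ^ d = D.1.prod fun v m => (η ^ v.deg) ^ m := by
    refine (congrArg (fun e => η ^ e) D.2.symm).trans ?_
    unfold Finsupp.sum Finsupp.prod
    rw [← Finset.prod_pow_eq_pow_sum]
    apply Finset.prod_congr rfl
    intro v _
    change η ^ (D.1 v * v.deg) = (η ^ v.deg) ^ D.1 v
    rw [← pow_mul, mul_comm]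
  rw [h2]
  unfold Finsupp.prod
  rw [← Finset.prod_mul_distrib]
  apply Finset.prod_congr rfl
  intro v _
  change chi T a ζ v ^ (D.1 v) = (η ^ v.deg) ^ (D.1 v) * chi T a (1 : R) v ^ (D.1 v)
  rw [h1, mul_pow]

theorem coe_prod {ι : Type*} (s : Finset ι) (f : ι → R[X]) :
    ((∏ i ∈ s, f i : R[X]) : PowerSeries R) = ∏ i ∈ s, (f i : PowerSeries R) := by
  rw [← Polynomial.coeToPowerSeries.ringHom_apply, map_prod]
  rfl

theorem rescale_coe (Q : R[X]) (c : R) :
    PowerSeries.rescale c (Q : PowerSeries R) =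
      ((Q.comp (Polynomial.C c * Polynomial.X) : R[X]) : PowerSeries R) := by
  ext n
  rw [PowerSeries.coeff_rescale, Polynomial.coeff_coe, Polynomial.coeff_coe,
    Polynomial.comp_C_mul_X_coeff, mul_comm]

theorem coe_LPolynomial {P : ℤ[X]} (hP : IsLPolynomial k K P) :
    ((P.map (Int.castRingHom R) : R[X]) : PowerSeries R) = zetaR k K R *
      ((1 - PowerSeries.X) * (1 - PowerSeries.C (Nat.card k : R) * PowerSeries.X)) := by
  rw [Polynomial.polynomial_map_coe, hP, ← zetaSeries_map]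
  simp [mul_assoc]

end

theorem eval_prod_one_sub_ne_zero {R : Type*} [Field R] [CharZero R] {q : ℕ} (hq : 2 ≤ q)
    {ι : Type*} (s : Finset ι) (e : ι → ℕ) (he : ∀ i ∈ s, 0 < e i) {ρ : R}
    (hρ : ∃ N, 0 < N ∧ ρ ^ N = 1) :
    (∏ i ∈ s, (1 - Polynomial.X ^ e i : R[X])).eval (ρ * (q : R)⁻¹) ≠ 0 := by
  have hq0 : (q : R) ≠ 0 := by rw [Nat.cast_ne_zero]; omega
  rw [Polynomial.eval_prod, Finset.prod_ne_zero_iff]
  intro i hi h
  rw [Polynomial.eval_sub, Polynomial.eval_one, Polynomial.eval_pow, Polynomial.eval_X,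
    sub_eq_zero, mul_pow, inv_pow, eq_comm, mul_inv_eq_one₀ (pow_ne_zero _ hq0)] at h
  have h1 : 2 ≤ q ^ e i := by
    calc 2 ≤ q := hq
      _ = q ^ 1 := (pow_one q).symm
      _ ≤ q ^ e i := Nat.pow_le_pow_right (by omega) (he i hi)
  refine rootOfUnity_ne_mul h1 (ρ := ρ ^ e i) (σ := (1 : R)) ?_ ⟨1, one_pos, one_pow 1⟩ ?_
  · obtain ⟨N, hN, hN'⟩ := hρ
    exact ⟨N, hN, by rw [← pow_mul, mul_comm, pow_mul, hN', one_pow]⟩
  · rw [h, mul_one]
    push_cast
    rfl

section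

variable {k K L : Type*} [Field k] [Finite k] [Field K] [Field L] [Algebra k K] [Algebra k L]
  [Algebra K L] [IsScalarTower k K L] [IsFunctionField k K] [IsFunctionField k L]
  [FiniteDimensional K L] {R : Type*} [Field R] [CharZero R]

/-- Comparison of the zeta functions of `K` and `L` if the character depends only on the degree. -/
theorem compare_zeta [IsGalois K L] {γ : L ≃ₐ[K] L}
    (hγ : ∀ σ : L ≃ₐ[K] L, σ ∈ Subgroup.zpowers γ)
    {N : ℕ} (hcard : Nat.card (L ≃ₐ[K] L) = N) (T : Finset (Place k K))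
    (hT : ∀ w : Place k L, w.below K ∉ T → w.IsUnramifiedOver K) (a : Place k K → ℕ)
    (ha : ∀ v ∉ T, IsFrob v (γ ^ a v)) {ζ : R} (hζ : IsPrimitiveRoot ζ N)
    {P0 P1 : ℤ[X]} (hP0 : IsLPolynomial k K P0) (hP1 : IsLPolynomial k L P1) {η : R}
    (h : ∀ v ∉ T, ζ ^ a v = η ^ v.deg) :
    P1.map (Int.castRingHom R) * (∏ w ∈ above L T, (1 - Polynomial.X ^ w.deg)) *
      ∏ i ∈ Finset.range N, ((1 - Polynomial.C (η ^ i) * Polynomial.X) *
        (1 - Polynomial.C ((Nat.card k : R) * η ^ i) * Polynomial.X)) =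
      (1 - Polynomial.X) * (1 - Polynomial.C (Nat.card k : R) * Polynomial.X) *
        ∏ i ∈ Finset.range N,
          (((P0.map (Int.castRingHom R)).comp (Polynomial.C (η ^ i) * Polynomial.X)) *
          ((∏ v ∈ T, (1 - Polynomial.X ^ v.deg : R[X])).comp
            (Polynomial.C (η ^ i) * Polynomial.X))) := by
  apply Polynomial.coe_injective
  have h1 := prod_LSer (R := R) hγ hcard T hT a ha hζ
  have h2 : ∀ i ∈ Finset.range N, LSer T a (ζ ^ i) =
      PowerSeries.rescale (η ^ i) (zetaR k K R * ∏ v ∈ T, (1 - PowerSeries.X ^ v.deg)) := by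
    intro i _
    rw [LSer_rescale T a (η := η ^ i), LSer_one]
    intro v hv
    rw [← pow_mul, mul_comm i, pow_mul, h v hv, ← pow_mul, ← pow_mul, mul_comm]
  rw [Finset.prod_congr rfl h2] at h1
  have hV : ((∏ v ∈ T, (1 - Polynomial.X ^ v.deg) : R[X]) : PowerSeries R) =
      ∏ v ∈ T, (1 - PowerSeries.X ^ v.deg) := by
    rw [coe_prod]
    simp
  have hU : ((∏ w ∈ above L T, (1 - Polynomial.X ^ w.deg) : R[X]) : PowerSeries R) =
      ∏ w ∈ above L T, (1 - PowerSeries.X ^ w.deg) := by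
    rw [coe_prod]
    simp
  have hfac : ∀ i : ℕ, (((1 - Polynomial.C (η ^ i) * Polynomial.X) *
        (1 - Polynomial.C ((Nat.card k : R) * η ^ i) * Polynomial.X) : R[X]) : PowerSeries R) =
        PowerSeries.rescale (η ^ i) ((1 - PowerSeries.X) *
          (1 - PowerSeries.C (Nat.card k : R) * PowerSeries.X)) := by
    intro i
    have : ((1 - PowerSeries.X) * (1 - PowerSeries.C (Nat.card k : R) * PowerSeries.X) :
        PowerSeries R) = (((1 - Polynomial.X) * (1 - Polynomial.C (Nat.card k : R) *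
          Polynomial.X) : R[X]) : PowerSeries R) := by
      push_cast
      rfl
    rw [this, rescale_coe]
    congr 1
    simp only [Polynomial.mul_comp, Polynomial.sub_comp, Polynomial.one_comp, Polynomial.X_comp,
      Polynomial.C_comp, Polynomial.C_mul]
    ring
  rw [Polynomial.coe_mul, Polynomial.coe_mul, hU, coe_LPolynomial hP1, Polynomial.coe_mul,
    coe_prod, coe_prod, Finset.prod_congr rfl (fun i _ => hfac i)]
  have hR : ∀ i ∈ Finset.range N,
      (((P0.map (Int.castRingHom R)).comp (Polynomial.C (η ^ i) * Polynomial.X) *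
        (∏ v ∈ T, (1 - Polynomial.X ^ v.deg : R[X])).comp
            (Polynomial.C (η ^ i) * Polynomial.X) : R[X]) : PowerSeries R) =
      PowerSeries.rescale (η ^ i) (zetaR k K R * ∏ v ∈ T, (1 - PowerSeries.X ^ v.deg)) *
      PowerSeries.rescale (η ^ i) ((1 - PowerSeries.X) *
          (1 - PowerSeries.C (Nat.card k : R) * PowerSeries.X)) := by
    intro i _
    rw [Polynomial.coe_mul, ← rescale_coe, ← rescale_coe, coe_LPolynomial hP0, hV]
    simp only [map_mul]
    ring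
  rw [Finset.prod_congr rfl hR, Finset.prod_mul_distrib, ← h1]
  push_cast
  ring

/-- divisors are powers: values of the weight at divisors depending only on the degree -/
theorem exists_eta [IsAlgClosed R] {N : ℕ} (hN : 0 < N) {ζ : R} (hζ : ζ ^ N = 1)
    (T : Finset (Place k K)) (a : Place k K → ℕ)
    (htriv : ∀ J : Place k K →₀ ℤ, (∀ v ∈ T, J v = 0) → degD J = 0 →
      dwt (fun v => ζ ^ a v) J = 1) :
    ∃ η : R, (∃ M, 0 < M ∧ η ^ M = 1) ∧ ∀ v ∉ T, ζ ^ a v = η ^ v.deg := by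
  classical
  have hζ0 : ζ ≠ 0 := by
    rintro rfl
    rw [zero_pow hN.ne'] at hζ
    exact zero_ne_one hζ
  have hc : ∀ v : Place k K, ζ ^ a v ≠ 0 := fun v => pow_ne_zero _ hζ0
  -- the group of divisors off `T`
  let G : AddSubgroup (Place k K →₀ ℤ) :=
    { carrier := {J | ∀ v ∈ T, J v = 0}
      add_mem' := by
        intro A B hA hB v hv
        rw [Finsupp.add_apply, hA v hv, hB v hv, add_zero]
      zero_mem' := by intro v _; rfl
      neg_mem' := by
        intro A hA v hv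
        rw [Finsupp.neg_apply, hA v hv, neg_zero] }
  let δ : (Place k K →₀ ℤ) →+ ℤ :=
    { toFun := degD, map_zero' := degD_zero, map_add' := degD_add }
  obtain ⟨b, hb⟩ := Int.subgroup_cyclic (G.map δ)
  have hbG : b ∈ G.map δ := by rw [hb]; exact AddSubgroup.mem_closure_singleton_self b
  obtain ⟨D0, hD0, hD0b⟩ := hbG
  have hD0b : degD D0 = b := hD0b
  have hsmul : ∀ (n : ℤ) (J : Place k K →₀ ℤ),
      dwt (fun v => ζ ^ a v) (n • J) = dwt (fun v => ζ ^ a v) J ^ n := by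
    intro n J
    unfold dwt
    rw [Finsupp.prod_of_support_subset (s := J.support) _ Finsupp.support_smul _
      (by intro i _; simp)]
    unfold Finsupp.prod
    rw [← Finset.prod_zpow]
    apply Finset.prod_congr rfl
    intro v _
    rw [← zpow_mul, Finsupp.smul_apply, smul_eq_mul, mul_comm]
  have hsingle : ∀ v : Place k K, dwt (fun v => ζ ^ a v) (Finsupp.single v 1) = ζ ^ a v := by
    intro v
    unfold dwt
    rw [Finsupp.prod_single_index (by simp), zpow_one]
  have hdwtN : ∀ J : Place k K →₀ ℤ, dwt (fun v => ζ ^ a v) J ^ N = 1 := by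
    intro J
    unfold dwt Finsupp.prod
    rw [← Finset.prod_pow]
    apply Finset.prod_eq_one
    intro v _
    rw [← zpow_natCast, ← zpow_mul, mul_comm, zpow_mul, zpow_natCast, ← pow_mul, mul_comm (a v),
      pow_mul, hζ, one_pow, one_zpow]
  by_cases hb0 : b = 0
  · refine ⟨1, ⟨1, one_pos, one_pow 1⟩, ?_⟩
    intro v hv
    exfalso
    have h1 : degD (Finsupp.single v 1 : Place k K →₀ ℤ) ∈ G.map δ := by
      refine ⟨Finsupp.single v 1, ?_, rfl⟩
      intro w hw
      rw [Finsupp.single_apply, if_neg]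
      rintro rfl
      exact hv hw
    rw [hb, hb0, AddSubgroup.mem_closure_singleton] at h1
    obtain ⟨n, hn⟩ := h1
    rw [smul_zero, degD_single, one_mul] at hn
    have := v.deg_pos
    omega
  · obtain ⟨η0, hη0⟩ := IsAlgClosed.exists_pow_nat_eq (dwt (fun v => ζ ^ a v) D0)
      (Int.natAbs_pos.mpr hb0)
    -- adjust the sign
    obtain ⟨η, hη, hη1⟩ : ∃ η : R, η ^ b = dwt (fun v => ζ ^ a v) D0 ∧ ∃ M, 0 < M ∧ η ^ M = 1 := by
      have hroot : ∃ M, 0 < M ∧ η0 ^ M = 1 := by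
        refine ⟨b.natAbs * N, Nat.mul_pos (Int.natAbs_pos.mpr hb0) hN, ?_⟩
        rw [pow_mul, hη0, hdwtN]
      rcases Int.natAbs_eq b with h | h
      · refine ⟨η0, ?_, hroot⟩
        rw [h, zpow_natCast, hη0]
      · refine ⟨η0⁻¹, ?_, ?_⟩
        · rw [h, zpow_neg, inv_zpow, inv_inv, zpow_natCast, hη0]
        · obtain ⟨M, hM, hM'⟩ := hroot
          exact ⟨M, hM, by rw [inv_pow, hM', inv_one]⟩
    refine ⟨η, hη1, ?_⟩
    intro v hv
    have hvG : (Finsupp.single v 1 : Place k K →₀ ℤ) ∈ G := by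
      intro w hw
      rw [Finsupp.single_apply, if_neg]
      rintro rfl
      exact hv hw
    have h1 : degD (Finsupp.single v 1 : Place k K →₀ ℤ) ∈ G.map δ := ⟨_, hvG, rfl⟩
    rw [hb, AddSubgroup.mem_closure_singleton] at h1
    obtain ⟨n, hn⟩ := h1
    rw [smul_eq_mul, degD_single, one_mul] at hn
    have h2 := htriv (Finsupp.single v 1 - n • D0) (G.sub_mem hvG (G.zsmul_mem hD0 n)) (by
      rw [degD_sub, degD_smul, hD0b, degD_single, one_mul, hn, sub_self])
    have h3 : dwt (fun v => ζ ^ a v) (Finsupp.single v 1 : Place k K →₀ ℤ) =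
        dwt (fun v => ζ ^ a v) (Finsupp.single v 1 - n • D0) *
          dwt (fun v => ζ ^ a v) (n • D0) := by
      rw [← dwt_add hc, sub_add_cancel]
    rw [hsingle, h2, one_mul, hsmul, ← hη, ← zpow_mul, mul_comm, hn, zpow_natCast] at h3
    exact h3

/-- A nontrivial character of prime order is nontrivial on divisors of degree `0` off `T`. -/
theorem exists_deg_zero_nontrivial [IsAlgClosed R] [IsGalois K L] {γ : L ≃ₐ[K] L}
    (hγ : ∀ σ : L ≃ₐ[K] L, σ ∈ Subgroup.zpowers γ)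
    {p : ℕ} [Fact p.Prime] (hcard : Nat.card (L ≃ₐ[K] L) = p) (T : Finset (Place k K))
    (hT : ∀ w : Place k L, w.below K ∉ T → w.IsUnramifiedOver K) (a : Place k K → ℕ)
    (ha : ∀ v ∉ T, IsFrob v (γ ^ a v)) {ζ : R} (hζ : IsPrimitiveRoot ζ p)
    {P0 P1 : ℤ[X]} (hP0 : IsLPolynomial k K P0) (hP1 : IsLPolynomial k L P1) :
    ∃ J : Place k K →₀ ℤ, (∀ v ∈ T, J v = 0) ∧ degD J = 0 ∧ dwt (fun v => ζ ^ a v) J ≠ 1 := by
  classical
  by_contra! hcon
  have hp : p.Prime := Fact.out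
  obtain ⟨η, hη1, hη⟩ := exists_eta hp.pos hζ.pow_eq_one T a hcon
  have hq : 2 ≤ Nat.card k := Finite.one_lt_card
  have hP0' : (P0.map (Int.castRingHom R)).eval ((Nat.card k : R)⁻¹) ≠ 0 :=
    eval_LPolynomial_ne_zero hP0
  have hP1' : (P1.map (Int.castRingHom R)).eval ((Nat.card k : R)⁻¹) ≠ 0 :=
    eval_LPolynomial_ne_zero hP1
  obtain ⟨p', hp'⟩ : ∃ p', p = p' + 1 := ⟨p - 1, by have := hp.pos; omega⟩
  have hp'1 : 1 ≤ p' := by have := hp.two_le; omega
  have hcmp : ∀ (ζ η : R), IsPrimitiveRoot ζ p → (∀ v ∉ T, ζ ^ a v = η ^ v.deg) → _ :=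
    fun ζ η hζ h => compare_zeta hγ hcard T hT a ha hζ hP0 hP1 (η := η) h
  have hV : ∀ ρ : R, (∃ N, 0 < N ∧ ρ ^ N = 1) →
      (∏ v ∈ T, (1 - Polynomial.X ^ v.deg : R[X])).eval (ρ * (Nat.card k : R)⁻¹) ≠ 0 := fun ρ hρ =>
    eval_prod_one_sub_ne_zero hq T (fun v => v.deg) (fun v _ => v.deg_pos) hρ
  have hU : ∀ ρ : R, (∃ N, 0 < N ∧ ρ ^ N = 1) →
      (∏ w ∈ above L T, (1 - Polynomial.X ^ w.deg : R[X])).eval (ρ * (Nat.card k : R)⁻¹) ≠ 0 :=
    fun ρ hρ => eval_prod_one_sub_ne_zero hq (above L T) (fun v => v.deg) (fun v _ => v.deg_pos) hρ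
  have hV1 := hV 1 ⟨1, one_pos, one_pow 1⟩
  have hU1 := hU 1 ⟨1, one_pos, one_pow 1⟩
  rw [one_mul] at hV1 hU1
  by_cases hex : ∃ i < p', η ^ (i + 1) = 1
  · obtain ⟨i, hi, hi1⟩ := hex
    have h1 : ∀ v ∉ T, ζ ^ a v = (1 : R) ^ v.deg := by
      intro v hv
      rw [one_pow]
      have h2 : (ζ ^ a v) ^ (i + 1) = 1 := by
        rw [hη v hv, ← pow_mul, mul_comm, pow_mul, hi1, one_pow]
      have h3 : (ζ ^ a v) ^ p = 1 := by
        rw [← pow_mul, mul_comm, pow_mul, hζ.pow_eq_one, one_pow]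
      have h4 : Nat.Coprime (i + 1) p := by
        rw [Nat.coprime_comm, Nat.Prime.coprime_iff_not_dvd hp]
        intro hd
        have := Nat.le_of_dvd (by omega) hd
        omega
      have h5 := orderOf_dvd_of_pow_eq_one h2
      have h6 := orderOf_dvd_of_pow_eq_one h3
      have h7 := Nat.dvd_gcd h5 h6
      rw [h4, Nat.dvd_one, orderOf_eq_one_iff] at h7
      exact h7
    have h2 := hcmp ζ 1 hζ h1
    rw [hp'] at h2
    exact compare_one hp'1 hq _ _ _ _ hV1 hP0' h2
  · push Not at hex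
    have h1 := hcmp ζ η hζ hη
    rw [hp'] at h1
    have hA := compare_A hq _ _ _ _ hη1 hex hU1 hP1' h1
    have hB := compare_B hp'1 hq _ _ _ _ hη1 hV (fun i hi => hA i (by omega)) h1
    have hη0 : η ≠ 0 := by
      rintro rfl
      obtain ⟨N, hN, hN'⟩ := hη1
      rw [zero_pow hN.ne'] at hN'
      exact zero_ne_one hN'
    have hη1' : ∃ N, 0 < N ∧ (η⁻¹) ^ N = 1 := by
      obtain ⟨N, hN, hN'⟩ := hη1
      exact ⟨N, hN, by rw [inv_pow, hN', inv_one]⟩
    have h1' := hcmp ζ⁻¹ η⁻¹ hζ.inv (by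
      intro v hv
      rw [inv_pow, inv_pow, hη v hv])
    rw [hp'] at h1'
    have hA' := compare_A hq _ _ _ _ hη1' (by
      intro i hi h
      rw [inv_pow, inv_eq_one] at h
      exact hex i hi h) hU1 hP1' h1' 1 (by omega)
    rw [pow_one] at hA'
    exact hA' hB

end

end Pool.Agent.helper90.Zp
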