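import Pool.Agent.helper90.Zp.Nontrivial

open scoped Polynomial WithZero

set_option linter.unusedSectionVars false

namespace Pool.Agent.helper90.Zp

theorem zpow_sum_aux {R : Type*} [Field R] {ι : Type*} (s : Finset ι) (f : ι → ℤ) {x : R}
    (hx : x ≠ 0) : x ^ (∑ i ∈ s, f i) = ∏ i ∈ s, x ^ f i := by
  classical
  induction s using Finset.induction_on with
  | empty => simp
  | insert a s ha ih => rw [Finset.sum_insert ha, Finset.prod_insert ha, zpow_add₀ hx, ih]

section

variable {k K : Type*} [Field k] [Finite k] [Field K] [Algebra k K] [IsFunctionField k K]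
  {R : Type*} [Field R] [CharZero R]

/-- If all the sums over a degree vanish from some point on, the series is a polynomial. -/
theorem exists_poly_of_coeff {A : Type*} [CommRing A] {f : PowerSeries A} {d0 : ℕ}
    (h : ∀ d, d0 ≤ d → PowerSeries.coeff d f = 0) : ∃ Q : A[X], (Q : PowerSeries A) = f := by
  refine ⟨PowerSeries.trunc d0 f, ?_⟩
  ext d
  rw [Polynomial.coeff_coe, PowerSeries.coeff_trunc]
  split_ifs with hd
  · rfl
  · exact (h d (by omega)).symm

theorem LSer_polynomial_nonempty (T : Finset (Place k K)) (hT : T.Nonempty) (a : Place k K → ℕ)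
    {ζ : R} (hζ0 : ζ ≠ 0)
    (hrec : ∃ m : ℕ, 0 < m ∧ ∀ g : K, g ≠ 0 →
      (∀ v ∈ T, v.val (g - 1) ≤ WithZero.exp (-(m : ℤ))) →
      dwt (fun v => ζ ^ a v) (divisor k g) = 1)
    (hJ : ∃ J : Place k K →₀ ℤ, (∀ v ∈ T, J v = 0) ∧ degD J = 0 ∧
      dwt (fun v => ζ ^ a v) J ≠ 1) : ∃ Q : R[X], (Q : PowerSeries R) = LSer T a ζ := by
  classical
  obtain ⟨m, hm, hrec⟩ := hrec
  obtain ⟨J, hJT, hJ0, hJ⟩ := hJ
  have hdwt : ∀ J : Place k K →₀ ℤ, (∀ v ∈ T, J v = 0) →
      dwt (chi T a ζ) J = dwt (fun v => ζ ^ a v) J := by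
    intro J hJ
    apply Finset.prod_congr rfl
    intro v hv
    have hvT : v ∉ T := by
      intro h
      rw [Finsupp.mem_support_iff] at hv
      exact hv (hJ v h)
    simp only [chi_of_notMem a ζ hvT]
  obtain ⟨d0, hd0⟩ := ray_sum_eq_zero T hT hm (chi T a ζ) (fun v hv => chi_of_mem a ζ hv)
    (fun v hv => by rw [chi_of_notMem a ζ hv]; exact pow_ne_zero _ hζ0)
    (by
      intro g hg hgT
      rw [hdwt]
      · exact hrec g hg hgT
      · intro v hv
        rw [divisor_apply]
        exact (v.ord_eq_zero_iff hg).mpr (val_eq_one_of_congr hm (hgT v hv)))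
    J hJT hJ0 (by rw [hdwt J hJT]; exact hJ)
  apply exists_poly_of_coeff (d0 := d0)
  intro d hd
  unfold LSer eulerSeries
  rw [PowerSeries.coeff_mk]
  exact hd0 d hd

/-- L-series of nontrivial characters are polynomials. -/
theorem LSer_polynomial [IsAlgClosed R] (T : Finset (Place k K)) (a : Place k K → ℕ)
    {ζ : R} (hζ0 : ζ ≠ 0)
    (hrec : ∀ T' : Finset (Place k K), T ⊆ T' → T'.Nonempty → ∃ m : ℕ, 0 < m ∧ ∀ g : K, g ≠ 0 →
      (∀ v ∈ T', v.val (g - 1) ≤ WithZero.exp (-(m : ℤ))) →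
      dwt (fun v => ζ ^ a v) (divisor k g) = 1)
    (hJ : ∀ T' : Finset (Place k K), T ⊆ T' → ∃ J : Place k K →₀ ℤ, (∀ v ∈ T', J v = 0) ∧
      degD J = 0 ∧ dwt (fun v => ζ ^ a v) J ≠ 1) :
    ∃ Q : R[X], (Q : PowerSeries R) = LSer T a ζ := by
  classical
  obtain ⟨J, hJT, hJ0, hJ1⟩ := hJ T (Finset.Subset.refl T)
  let I : Ideal R[X] :=
    { carrier := {Q | ∃ P : R[X], (P : PowerSeries R) = LSer T a ζ * (Q : PowerSeries R)}
      add_mem' := by
        rintro A B ⟨P, hP⟩ ⟨Q, hQ⟩
        exact ⟨P + Q, by rw [Polynomial.coe_add, hP, hQ, Polynomial.coe_add, mul_add]⟩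
      zero_mem' := ⟨0, by simp⟩
      smul_mem' := by
        rintro c A ⟨P, hP⟩
        refine ⟨c * P, ?_⟩
        rw [Polynomial.coe_mul, hP, smul_eq_mul, Polynomial.coe_mul]
        ring }
  have hI : ∀ x : Place k K, x ∉ T →
      (1 - Polynomial.C (ζ ^ a x) * Polynomial.X ^ x.deg : R[X]) ∈ I := by
    intro x hx
    obtain ⟨Q, hQ⟩ := LSer_polynomial_nonempty (insert x T) (Finset.insert_nonempty _ _) a hζ0
      (hrec _ (Finset.subset_insert _ _) (Finset.insert_nonempty _ _))
      (hJ _ (Finset.subset_insert _ _))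
    refine ⟨Q, ?_⟩
    rw [hQ, LSer_insert T a ζ hx]
    congr 1
    push_cast
    rfl
  set B : R[X] := Submodule.IsPrincipal.generator I with hB
  have hBI : B ∈ I := Submodule.IsPrincipal.generator_mem I
  have hdvd : ∀ x : Place k K, x ∉ T →
      B ∣ (1 - Polynomial.C (ζ ^ a x) * Polynomial.X ^ x.deg : R[X]) := by
    intro x hx
    exact (Submodule.IsPrincipal.mem_iff_generator_dvd I).mp (hI x hx)
  by_cases hdeg : B.degree = 0
  · -- `B` is a unit
    obtain ⟨P, hP⟩ := hBI
    rw [Polynomial.eq_C_of_degree_eq_zero hdeg] at hP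
    have hc : B.coeff 0 ≠ 0 := by
      intro h
      rw [Polynomial.eq_C_of_degree_eq_zero hdeg, h] at hdeg
      simp at hdeg
    refine ⟨P * Polynomial.C (B.coeff 0)⁻¹, ?_⟩
    rw [Polynomial.coe_mul, hP, mul_assoc, ← Polynomial.coe_mul, ← Polynomial.C_mul,
      mul_inv_cancel₀ hc, Polynomial.C_1, Polynomial.coe_one, mul_one]
  · exfalso
    obtain ⟨ρ, hρ⟩ := IsAlgClosed.exists_root B hdeg
    have hρx : ∀ x : Place k K, x ∉ T → ζ ^ a x * ρ ^ x.deg = 1 := by
      intro x hx
      obtain ⟨C, hC⟩ := hdvd x hx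
      have h1 := congrArg (Polynomial.eval ρ) hC
      rw [Polynomial.eval_mul, hρ, zero_mul] at h1
      simp only [Polynomial.eval_sub, Polynomial.eval_one, Polynomial.eval_mul, Polynomial.eval_C,
        Polynomial.eval_pow, Polynomial.eval_X] at h1
      linear_combination -h1
    -- `J` is nonzero
    have hne : ∃ x : Place k K, x ∉ T := by
      by_contra! hall
      apply hJ1
      have : J = 0 := by
        ext v
        exact hJT v (hall v)
      rw [this]
      simp [dwt]
    have hρ0 : ρ ≠ 0 := by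
      rintro rfl
      obtain ⟨x, hx⟩ := hne
      have := hρx x hx
      rw [zero_pow x.deg_pos.ne', mul_zero] at this
      exact zero_ne_one this
    apply hJ1
    have h1 : dwt (fun v => ζ ^ a v) J = ρ⁻¹ ^ degD J := by
      unfold dwt degD Finsupp.prod Finsupp.sum
      rw [zpow_sum_aux _ _ (inv_ne_zero hρ0)]
      apply Finset.prod_congr rfl
      intro v hv
      have hvT : v ∉ T := by
        intro h
        rw [Finsupp.mem_support_iff] at hv
        exact hv (hJT v h)
      have h2 : ζ ^ a v = ρ⁻¹ ^ v.deg := by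
        rw [inv_pow]
        exact eq_inv_of_mul_eq_one_left (hρx v hvT)
      change (ζ ^ a v) ^ (J v) = ρ⁻¹ ^ (J v * (v.deg : ℤ))
      rw [h2, mul_comm (J v), zpow_mul, zpow_natCast]
    rw [h1, hJ0, zpow_zero]

end

end Pool.Agent.helper90.Zp
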