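import Pool.Agent.helper90.Zp.Growth
import Pool.Agent.helper90.Zp.AlgLemma
import Pool.Agent.helper86.Zp.Euler
import Pool.Agent.helper41.Zp.Ramif

open scoped Polynomial WithZero

set_option linter.unusedSectionVars false

namespace Pool.Agent.helper90.Zp

section

variable {k K : Type*} [Field k] [Finite k] [Field K] [Algebra k K] [IsFunctionField k K]
  {R : Type*} [CommRing R]

/-- the zeta function with coefficients in `R` -/
noncomputable def zetaR (k K R : Type*) [Field k] [Field K] [Algebra k K] [CommRing R] :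
    PowerSeries R :=
  eulerSeries (fun v : Place k K => v.deg) (fun _ => (1 : R))

theorem zetaSeries_map : (zetaSeries k K).map (Int.castRingHom R) = zetaR k K R := by
  ext d
  rw [PowerSeries.coeff_map]
  unfold zetaSeries zetaR eulerSeries
  rw [PowerSeries.coeff_mk, PowerSeries.coeff_mk]
  have hfin : Finite {D : Place k K →₀ ℕ // (D.sum fun v m => m * v.deg) = d} :=
    finite_degree_eq (fun v : Place k K => v.deg) (fun v => v.deg_pos) finite_deg_eq d
  have := Fintype.ofFinite {D : Place k K →₀ ℕ // (D.sum fun v m => m * v.deg) = d}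
  rw [finsum_eq_sum_of_fintype, Nat.card_eq_fintype_card]
  simp

/-- values of the character `γ ↦ ζ` at places outside `T` -/
noncomputable def chi (T : Finset (Place k K)) (a : Place k K → ℕ) (ζ : R) (v : Place k K) : R := by
  classical exact if v ∈ T then 0 else ζ ^ a v

theorem chi_of_mem {T : Finset (Place k K)} (a : Place k K → ℕ) (ζ : R) {v : Place k K}
    (hv : v ∈ T) : chi T a ζ v = 0 := by simp [chi, hv]

theorem chi_of_notMem {T : Finset (Place k K)} (a : Place k K → ℕ) (ζ : R) {v : Place k K}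
    (hv : v ∉ T) : chi T a ζ v = ζ ^ a v := by simp [chi, hv]

/-- L-series without Euler factors at `T` -/
noncomputable def LSer (T : Finset (Place k K)) (a : Place k K → ℕ) (ζ : R) : PowerSeries R :=
  eulerSeries (fun v : Place k K => v.deg) (chi T a ζ)

theorem eulerSeries_restrict (T : Finset (Place k K)) (a : Place k K → ℕ) (ζ : R) :
    eulerSeries (fun v : {v : Place k K // v ∉ T} => v.1.deg) (fun v => ζ ^ a v.1) =
      LSer T a ζ := by
  have h1 := eulerSeries_compl (fun v : Place k K => v.deg) (chi T a ζ) (fun v => v.deg_pos)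
    finite_deg_eq T
  rw [Finset.prod_eq_one (fun x hx => by rw [chi_of_mem a ζ hx, map_zero, zero_mul, sub_zero]),
    mul_one] at h1
  unfold LSer
  rw [← h1]
  congr 1
  ext v
  rw [chi_of_notMem a ζ v.2]

theorem LSer_eq (T : Finset (Place k K)) (a : Place k K → ℕ) (ζ : R) :
    LSer T a ζ = eulerSeries (fun v : Place k K => v.deg) (fun v => ζ ^ a v) *
      ∏ v ∈ T, (1 - PowerSeries.C (ζ ^ a v) * PowerSeries.X ^ v.deg) := by
  rw [← eulerSeries_restrict]
  exact eulerSeries_compl (fun v : Place k K => v.deg) (fun v => ζ ^ a v) (fun v => v.deg_pos)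
    finite_deg_eq T

theorem LSer_one (T : Finset (Place k K)) (a : Place k K → ℕ) :
    LSer T a (1 : R) = zetaR k K R * ∏ v ∈ T, (1 - PowerSeries.X ^ v.deg) := by
  rw [LSer_eq]
  simp [zetaR]

theorem LSer_insert [DecidableEq (Place k K)] (T : Finset (Place k K)) (a : Place k K → ℕ) (ζ : R)
    {x : Place k K} (hx : x ∉ T) : LSer (insert x T) a ζ =
      LSer T a ζ * (1 - PowerSeries.C (ζ ^ a x) * PowerSeries.X ^ x.deg) := by
  rw [LSer_eq, LSer_eq, Finset.prod_insert hx]
  ring

end

section

variable {k K L : Type*} [Field k] [Finite k] [Field K] [Field L] [Algebra k K] [Algebra k L]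
  [Algebra K L] [IsScalarTower k K L] [IsFunctionField k K] [IsFunctionField k L]
  [FiniteDimensional K L] {R : Type*} [CommRing R]

variable (L) in
theorem finite_above (T : Finset (Place k K)) : {w : Place k L | w.below K ∈ T}.Finite := by
  have : {w : Place k L | w.below K ∈ T} = ⋃ v ∈ T, {w : Place k L | w.below K = v} := by
    ext w
    simp
  rw [this]
  exact Set.Finite.biUnion (Finset.finite_toSet T) (fun v _ => finite_below v)

variable (L) in
/-- places above `T` -/
noncomputable def above (T : Finset (Place k K)) : Finset (Place k L) := (finite_above L T).toFinset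

theorem mem_above {T : Finset (Place k K)} {w : Place k L} : w ∈ above L T ↔ w.below K ∈ T := by
  unfold above
  rw [Set.Finite.mem_toFinset]
  rfl

/-- the Frobenius property of `σ` at `v` -/
def IsFrob (v : Place k K) (σ : L ≃ₐ[K] L) : Prop :=
  ∀ w : Place k L, w.below K = v → ∀ b ∈ w.ring,
    w.ring.valuation (σ b - b ^ Nat.card (IsLocalRing.ResidueField v.ring)) < 1

theorem frob_data [IsGalois K L] {γ : L ≃ₐ[K] L} (hγ : ∀ σ : L ≃ₐ[K] L, σ ∈ Subgroup.zpowers γ)
    {N : ℕ} (hcard : Nat.card (L ≃ₐ[K] L) = N) {v : Place k K}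
    (hv : ∀ w : Place k L, w.below K = v → w.IsUnramifiedOver K) {a : ℕ}
    (ha : IsFrob v (γ ^ a)) :
    (∀ w : Place k L, w.below K = v → w.deg = N / N.gcd a * v.deg) ∧
      Nat.card {w : Place k L // w.below K = v} = N.gcd a := by
  have hcomm : ∀ σ τ : L ≃ₐ[K] L, σ * τ = τ * σ := by
    intro σ τ
    obtain ⟨i, rfl⟩ := Subgroup.mem_zpowers_iff.mp (hγ σ)
    obtain ⟨j, rfl⟩ := Subgroup.mem_zpowers_iff.mp (hγ τ)
    rw [← zpow_add, ← zpow_add, add_comm]
  obtain ⟨σ, hσ, hdeg, hmul⟩ := exists_frobenius hcomm v hv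
  obtain ⟨w, hw⟩ := exists_below_eq (L := L) v
  have hσγ : σ = γ ^ a := by
    subst hw
    exact frobenius_unique w (hv w rfl) σ (γ ^ a) (hσ w rfl) (ha w rfl)
  have hfinG : Finite (L ≃ₐ[K] L) := inferInstance
  have hord : orderOf γ = N := by
    rw [← hcard]
    exact orderOf_eq_card_of_forall_mem_zpowers hγ
  have hNpos : 0 < N := by rw [← hcard]; exact Nat.card_pos
  have hordσ : orderOf σ = N / N.gcd a := by
    rw [hσγ, orderOf_pow, hord]
  refine ⟨?_, ?_⟩
  · intro w' hw'
    rw [hdeg w' hw', hordσ]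
  · rw [hordσ, hcard] at hmul
    have hgpos : 0 < N.gcd a := Nat.gcd_pos_of_pos_left _ hNpos
    have hdvd := Nat.gcd_dvd_left N a
    have hqpos : 0 < N / N.gcd a := Nat.div_pos (Nat.le_of_dvd hNpos hdvd) hgpos
    apply Nat.eq_of_mul_eq_mul_right hqpos
    rw [hmul, Nat.mul_div_cancel' hdvd]

/-- the zeta function of `L` is a product of L-series -/
theorem prod_LSer [IsDomain R] [IsGalois K L] {γ : L ≃ₐ[K] L}
    (hγ : ∀ σ : L ≃ₐ[K] L, σ ∈ Subgroup.zpowers γ)
    {N : ℕ} (hcard : Nat.card (L ≃ₐ[K] L) = N) (T : Finset (Place k K))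
    (hT : ∀ w : Place k L, w.below K ∉ T → w.IsUnramifiedOver K) (a : Place k K → ℕ)
    (ha : ∀ v ∉ T, IsFrob v (γ ^ a v)) {ζ : R} (hζ : IsPrimitiveRoot ζ N) :
    zetaR k L R * ∏ w ∈ above L T, (1 - PowerSeries.X ^ w.deg) =
      ∏ i ∈ Finset.range N, LSer T a (ζ ^ i) := by
  classical
  have hNpos : 0 < N := by rw [← hcard]; exact Nat.card_pos
  have h1 := eulerSeries_compl (R := R) (fun w : Place k L => w.deg) (fun _ => 1)
    (fun w => w.deg_pos) finite_deg_eq (above L T)
  simp only [map_one, one_mul] at h1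
  unfold zetaR
  rw [← h1]
  have h2 := eulerSeries_fiber (R := R) (ι := Fin N)
    (fun v : {v : Place k K // v ∉ T} => v.1.deg)
    (fun w : {w : Place k L // w ∉ above L T} => w.1.deg) (fun v => v.1.deg_pos)
    (fun d => (finite_deg_eq (k := k) (F := K) d).preimage Subtype.val_injective.injOn)
    (fun w => ⟨w.1.below K, fun h => w.2 (mem_above.mpr h)⟩)
    (fun v => N / N.gcd (a v.1)) (fun v => Nat.div_pos (Nat.le_of_dvd hNpos (Nat.gcd_dvd_left _ _))
      (Nat.gcd_pos_of_pos_left _ hNpos))
    (fun v => N.gcd (a v.1)) (fun v => Nat.gcd_pos_of_pos_left _ hNpos)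
    (by
      intro v
      have hv : ∀ w : Place k L, w.below K = v.1 → w.IsUnramifiedOver K := by
        intro w hw
        exact hT w (by rw [hw]; exact v.2)
      rw [← (frob_data hγ hcard hv (ha v.1 v.2)).2]
      apply Nat.card_congr
      exact
        { toFun := fun y => ⟨y.1.1, congrArg Subtype.val y.2⟩
          invFun := fun w => ⟨⟨w.1, fun h => by
            rw [mem_above, w.2] at h
            exact v.2 h⟩, Subtype.ext w.2⟩
          left_inv := fun y => rfl
          right_inv := fun w => rfl })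
    (by
      intro w
      have hwT : w.1.below K ∉ T := fun h => w.2 (mem_above.mpr h)
      have hv : ∀ w' : Place k L, w'.below K = w.1.below K → w'.IsUnramifiedOver K := by
        intro w' hw'
        exact hT w' (by rw [hw']; exact hwT)
      exact (frob_data hγ hcard hv (ha _ hwT)).1 w.1 rfl)
    (fun i v => (ζ ^ (i : ℕ)) ^ a v.1)
    (by
      intro v
      rw [← prod_one_sub_zeta hNpos hζ (a v.1), Finset.prod_range]
      simp only [pow_mul])
  rw [h2, Finset.prod_range]
  apply Finset.prod_congr rfl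
  intro i _
  exact eulerSeries_restrict T a (ζ ^ (i : ℕ))

end

end Pool.Agent.helper90.Zp
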