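import Pool.Agent.helper90.Zp.Finite

open scoped Polynomial WithZero

set_option linter.unusedSectionVars false

namespace Pool.Agent.helper90.Zp

section

variable {k F : Type*} [Field k] [Field F] [Algebra k F] [IsFunctionField k F]

theorem finsetSum_single_apply [DecidableEq (Place k F)] (T : Finset (Place k F)) (n : ℤ)
    (v : Place k F) :
    (∑ w ∈ T, Finsupp.single w n : Place k F →₀ ℤ) v = if v ∈ T then n else 0 := by
  rw [Finsupp.finsetSum_apply]
  simp only [Finsupp.single_apply]
  rw [Finset.sum_ite_eq' T v (fun _ => n)]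

/-- Existence of functions congruent to `1` at `T` in Riemann-Roch spaces of large degree. -/
theorem exists_congr_one {c : ℤ} (hc : ∀ (v : Place k F) (D : Place k F →₀ ℤ) (t : F)
    (ht : v.val t = WithZero.exp (-(D v))), c ≤ degD (D - Finsupp.single v 1) →
    Function.Surjective (leadMap v D t ht)) (T : Finset (Place k F)) (D : Place k F →₀ ℤ)
    (hDT : ∀ v ∈ T, D v = 0) (m : ℕ)
    (hD : c ≤ degD (D - ∑ v ∈ T, Finsupp.single v (m : ℤ))) :
    ∃ f : F, (∀ v ∈ T, v.val (f - 1) ≤ WithZero.exp (-(m : ℤ))) ∧
      ∀ v ∉ T, v.val f ≤ WithZero.exp (D v) := by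
  classical
  set mT : Place k F →₀ ℤ := ∑ v ∈ T, Finsupp.single v (m : ℤ) with hmT
  have hmTv : ∀ v, mT v = if v ∈ T then (m : ℤ) else 0 := fun v => finsetSum_single_apply T m v
  -- induction on G with 0 ≤ G ≤ mT
  have step : ∀ (G : Place k F →₀ ℤ), 0 ≤ G → ∀ v ∈ T, G + Finsupp.single v 1 ≤ mT →
      (∃ f : F, (∀ w ∈ T, w.val (f - 1) ≤ WithZero.exp (-(G w))) ∧
        ∀ w ∉ T, w.val f ≤ WithZero.exp (D w)) →
      ∃ f : F, (∀ w ∈ T, w.val (f - 1) ≤
          WithZero.exp (-((G + Finsupp.single v 1 : Place k F →₀ ℤ) w))) ∧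
        ∀ w ∉ T, w.val f ≤ WithZero.exp (D w) := by
    intro G hG0 v hv hGm ⟨f, hf1, hf2⟩
    set E : Place k F →₀ ℤ := D - G with hE
    have hEv : ∀ w ∈ T, E w = - G w := by
      intro w hw
      rw [hE, Finsupp.sub_apply, hDT w hw, zero_sub]
    have hGout : ∀ w ∉ T, G w = 0 := by
      intro w hw
      have h1 := hGm w
      have h2 := hG0 w
      rw [hmTv, if_neg hw, Finsupp.add_apply] at h1
      rw [Finsupp.zero_apply] at h2
      have h3 : (0 : ℤ) ≤ (Finsupp.single v (1 : ℤ)) w := by
        rw [Finsupp.single_apply]; split_ifs <;> norm_num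
      omega
    obtain ⟨t, ht⟩ := v.exists_val_eq_exp (-(E v))
    have hsurj := hc v E t ht (by
      refine hD.trans (degD_mono ?_)
      rw [hE, sub_sub]
      exact sub_le_sub_left hGm D)
    have hmem : (1 - f) * t ∈ v.ring := by
      rw [← v.val_le_one_iff, map_mul, ht, hEv v hv, neg_neg]
      have := hf1 v hv
      rw [Valuation.map_sub_swap] at this
      calc _ ≤ WithZero.exp (-(G v)) * WithZero.exp (G v) := by gcongr
        _ = 1 := by rw [← WithZero.exp_add, neg_add_cancel, WithZero.exp_zero]
    obtain ⟨f1, hf1'⟩ := hsurj (IsLocalRing.residue v.ring ⟨(1 - f) * t, hmem⟩)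
    have hf1D := f1.2
    refine ⟨f + f1, ?_, ?_⟩
    · intro w hw
      by_cases hwv : w = v
      · subst hwv
        rw [Finsupp.add_apply, Finsupp.single_eq_same]
        have h1 : IsLocalRing.residue w.ring ⟨(f1 : F) * t, by
            rw [← w.val_le_one_iff, map_mul, ht]
            calc _ ≤ WithZero.exp (E w) * WithZero.exp (-(E w)) := by gcongr; exact hf1D w
              _ = 1 := by rw [← WithZero.exp_add, add_neg_cancel, WithZero.exp_zero]⟩ =
            IsLocalRing.residue w.ring ⟨(1 - f) * t, hmem⟩ := hf1'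
        rw [← sub_eq_zero, ← map_sub, w.residue_eq_zero_iff, ← w.val_lt_one_iff] at h1
        have h2 : w.val (((f1 : F) * t) - (1 - f) * t) < 1 := h1
        have h3 : ((f1 : F) * t) - (1 - f) * t = (f + f1 - 1) * t := by ring
        rw [h3, map_mul, ht, hEv w hw, neg_neg] at h2
        have h4 : (1 : ℤᵐ⁰) = WithZero.exp (-(G w)) * WithZero.exp (G w) := by
          rw [← WithZero.exp_add, neg_add_cancel, WithZero.exp_zero]
        rw [h4, mul_lt_mul_iff_left₀ WithZero.exp_pos, exp_lt_iff_le_sub_one] at h2
        convert h2 using 2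
        ring
      · have h1 : (G + Finsupp.single v 1 : Place k F →₀ ℤ) w = G w := by
          rw [Finsupp.add_apply, Finsupp.single_apply, if_neg (Ne.symm hwv), add_zero]
        rw [h1]
        have h2 : f + (f1 : F) - 1 = (f - 1) + f1 := by ring
        rw [h2]
        refine (w.val.map_add _ _).trans (max_le (hf1 w hw) ?_)
        have h3 := hf1D w
        rw [hEv w hw] at h3
        exact h3
    · intro w hw
      refine (w.val.map_add _ _).trans (max_le (hf2 w hw) ?_)
      have h3 := hf1D w
      have hDw : E w = D w := by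
        rw [hE, Finsupp.sub_apply, hGout w hw, sub_zero]
      rw [hDw] at h3
      exact h3
  have steps : ∀ (G : Place k F →₀ ℤ), 0 ≤ G → ∀ v ∈ T, ∀ n : ℕ,
      G + Finsupp.single v (n : ℤ) ≤ mT →
      (∃ f : F, (∀ w ∈ T, w.val (f - 1) ≤ WithZero.exp (-(G w))) ∧
        ∀ w ∉ T, w.val f ≤ WithZero.exp (D w)) →
      ∃ f : F, (∀ w ∈ T, w.val (f - 1) ≤
          WithZero.exp (-((G + Finsupp.single v (n : ℤ) : Place k F →₀ ℤ) w))) ∧
        ∀ w ∉ T, w.val f ≤ WithZero.exp (D w) := by
    intro G hG0 v hv n
    induction n with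
    | zero => intro _ h; simpa using h
    | succ n ih =>
      intro hle h
      have heq : G + Finsupp.single v ((n + 1 : ℕ) : ℤ) =
          (G + Finsupp.single v (n : ℤ)) + Finsupp.single v 1 := by
        rw [add_assoc, ← Finsupp.single_add]
        push_cast
        rfl
      have hle' : G + Finsupp.single v (n : ℤ) ≤ mT := by
        refine le_trans ?_ hle
        rw [heq]
        intro w
        rw [Finsupp.add_apply (G + Finsupp.single v (n : ℤ))]
        have h3 : (0 : ℤ) ≤ (Finsupp.single v (1 : ℤ)) w := by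
          rw [Finsupp.single_apply]; split_ifs <;> norm_num
        linarith
      have h1 := step (G + Finsupp.single v (n : ℤ)) (by
        intro w
        rw [Finsupp.add_apply, Finsupp.zero_apply]
        have h3 : (0 : ℤ) ≤ (Finsupp.single v (n : ℤ)) w := by
          rw [Finsupp.single_apply]; split_ifs <;> positivity
        have h2 := hG0 w
        rw [Finsupp.zero_apply] at h2
        linarith) v hv (by rw [← heq]; exact hle) (ih hle' h)
      rw [heq]
      exact h1
  have key : ∀ T' : Finset (Place k F), T' ⊆ T →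
      ∃ f : F, (∀ w ∈ T, w.val (f - 1) ≤
        WithZero.exp (-((∑ v ∈ T', Finsupp.single v (m : ℤ) : Place k F →₀ ℤ) w))) ∧
        ∀ w ∉ T, w.val f ≤ WithZero.exp (D w) := by
    intro T'
    induction T' using Finset.induction_on with
    | empty =>
      intro _
      refine ⟨0, ?_, ?_⟩
      · intro w _
        simp
      · intro w _
        simp
    | insert v T' hvT' ih =>
      intro hsub
      have hvT : v ∈ T := hsub (Finset.mem_insert_self v T')
      have h1 := ih (fun x hx => hsub (Finset.mem_insert_of_mem hx))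
      have h2 := steps (∑ v ∈ T', Finsupp.single v (m : ℤ)) (by
        intro w
        rw [finsetSum_single_apply, Finsupp.zero_apply]
        split_ifs <;> positivity) v hvT m (by
        intro w
        rw [Finsupp.add_apply, finsetSum_single_apply, hmTv, Finsupp.single_apply]
        by_cases hw : v = w
        · subst hw
          rw [if_neg hvT', if_pos rfl, if_pos hvT, zero_add]
        · rw [if_neg hw, add_zero]
          by_cases hw' : w ∈ T'
          · rw [if_pos hw', if_pos (hsub (Finset.mem_insert_of_mem hw'))]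
          · rw [if_neg hw']
            split_ifs <;> positivity) h1
      rw [Finset.sum_insert hvT', add_comm]
      exact h2
  obtain ⟨f, hf1, hf2⟩ := key T (Finset.Subset.refl T)
  refine ⟨f, ?_, hf2⟩
  intro v hv
  have := hf1 v hv
  rw [finsetSum_single_apply, if_pos hv] at this
  exact this

end

end Pool.Agent.helper90.Zp
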