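import Pool.Agent.helper90.Zp.Ray

open scoped Polynomial WithZero

set_option linter.unusedSectionVars false

namespace Pool.Agent.helper90.Zp

section

variable {k F : Type*} [Field k] [Field F] [Algebra k F] [IsFunctionField k F]

/-- If `div g = div g'` and both are congruent to `1` at a place, they are equal. -/
theorem eq_of_divisor_eq {g g' : F} (hg : g ≠ 0) (hg' : g' ≠ 0) (h : divisor k g = divisor k g')
    (v : Place k F) (h1 : v.val (g - 1) < 1) (h1' : v.val (g' - 1) < 1) : g = g' := by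
  have hdiv : divisor k (g * g'⁻¹) = 0 := by
    rw [divisor_mul hg (inv_ne_zero hg'), divisor_inv, h, add_neg_cancel]
  have hne : g * g'⁻¹ ≠ 0 := mul_ne_zero hg (inv_ne_zero hg')
  -- `g / g'` is algebraic over `k`
  have halg : IsAlgebraic k (g * g'⁻¹) := by
    by_contra htr
    obtain ⟨w, hw⟩ := Place.exists_of_transcendental (g * g'⁻¹) htr
    have := congrArg (fun D => D w) hdiv
    simp only [divisor_apply, Finsupp.zero_apply] at this
    rw [w.ord_eq_zero_iff hne] at this
    rw [this] at hw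
    exact lt_irrefl _ hw
  have halg' : IsAlgebraic k (g * g'⁻¹ - 1) := halg.sub isAlgebraic_one
  by_contra hgg
  have hne' : g * g'⁻¹ - 1 ≠ 0 := by
    intro h0
    apply hgg
    rw [sub_eq_zero] at h0
    exact mul_inv_eq_one₀ hg' |>.mp h0
  have hval : v.val (g * g'⁻¹ - 1) = 1 := by
    by_contra hv
    exact transcendental_of_val_ne_one hne' hv halg'
  have hg'1 : v.val g' = 1 := by
    have : g' = (g' - 1) + 1 := by ring
    rw [this, Valuation.map_add_eq_of_lt_right _ (by rwa [map_one]), map_one]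
  have h2 : g * g'⁻¹ - 1 = ((g - 1) - (g' - 1)) * g'⁻¹ := by
    field_simp
    ring
  rw [h2, map_mul, map_inv₀, hg'1, inv_one, mul_one] at hval
  have h3 := v.val.map_sub (g - 1) (g' - 1)
  rw [hval] at h3
  exact absurd (h3.trans_lt (max_lt h1 h1')) (lt_irrefl _)

/-- effective divisors of degree `d` avoiding `T` -/
def Eff (T : Finset (Place k F)) (d : ℤ) : Set (Place k F →₀ ℤ) :=
  {D | 0 ≤ D ∧ (∀ v ∈ T, D v = 0) ∧ degD D = d}

/-- `D'` is equivalent to `D` modulo `T`, to order `m` -/
def RayEquiv (T : Finset (Place k F)) (m : ℕ) (D D' : Place k F →₀ ℤ) : Prop :=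
  ∃ g : F, g ≠ 0 ∧ (∀ v ∈ T, v.val (g - 1) ≤ WithZero.exp (-(m : ℤ))) ∧ D' = D + divisor k g

/-- functions congruent to `1` with poles bounded by `D` -/
def congrSet (T : Finset (Place k F)) (m : ℕ) (D : Place k F →₀ ℤ) : Set F :=
  {g | (∀ v ∈ T, v.val (g - 1) ≤ WithZero.exp (-(m : ℤ))) ∧ ∀ v ∉ T, v.val g ≤ WithZero.exp (D v)}

theorem val_eq_one_of_congr {v : Place k F} {m : ℕ} (hm : 0 < m) {g : F}
    (h : v.val (g - 1) ≤ WithZero.exp (-(m : ℤ))) : v.val g = 1 := by
  have h1 : v.val (g - 1) < 1 := by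
    refine h.trans_lt ?_
    rw [← WithZero.exp_zero, WithZero.exp_lt_exp]
    omega
  have : g = (g - 1) + 1 := by ring
  rw [this, Valuation.map_add_eq_of_lt_right _ (by rwa [map_one]), map_one]

theorem ncard_rayEquiv (T : Finset (Place k F)) (hT : T.Nonempty) {m : ℕ} (hm : 0 < m)
    {D : Place k F →₀ ℤ} (hD : ∀ v ∈ T, D v = 0) :
    Set.ncard {D' | D' ∈ Eff T (degD D) ∧ RayEquiv T m D D'} = Set.ncard (congrSet T m D) := by
  obtain ⟨v0, hv0⟩ := hT
  have hlt : ∀ v ∈ T, ∀ g : F, v.val (g - 1) ≤ WithZero.exp (-(m : ℤ)) → v.val (g - 1) < 1 := by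
    intro v _ g h
    refine h.trans_lt ?_
    rw [← WithZero.exp_zero, WithZero.exp_lt_exp]
    omega
  have hne : ∀ g ∈ congrSet T m D, g ≠ 0 := by
    rintro g ⟨hg, -⟩ rfl
    have := val_eq_one_of_congr hm (hg v0 hv0)
    simp at this
  have himg : {D' | D' ∈ Eff T (degD D) ∧ RayEquiv T m D D'} =
      (fun g => D + divisor k g) '' congrSet T m D := by
    ext D'
    constructor
    · rintro ⟨⟨h0, hT0, hdeg⟩, g, hg0, hgT, rfl⟩
      refine ⟨g, ⟨hgT, ?_⟩, rfl⟩
      intro v _
      rw [v.val_eq_exp_neg_ord hg0, WithZero.exp_le_exp]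
      have := h0 v
      rw [Finsupp.zero_apply, Finsupp.add_apply, divisor_apply] at this
      linarith
    · rintro ⟨g, hg, rfl⟩
      have hg0 := hne g hg
      refine ⟨⟨?_, ?_, ?_⟩, g, hg0, hg.1, rfl⟩
      · intro v
        rw [Finsupp.zero_apply, Finsupp.add_apply, divisor_apply]
        by_cases hv : v ∈ T
        · rw [hD v hv, (v.ord_eq_zero_iff hg0).mpr (val_eq_one_of_congr hm (hg.1 v hv)), add_zero]
        · have := hg.2 v hv
          rw [v.val_eq_exp_neg_ord hg0, WithZero.exp_le_exp] at this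
          linarith
      · intro v hv
        rw [Finsupp.add_apply, divisor_apply, hD v hv,
          (v.ord_eq_zero_iff hg0).mpr (val_eq_one_of_congr hm (hg.1 v hv)), add_zero]
      · rw [degD_add, degD_divisor hg0, add_zero]
  rw [himg]
  apply Set.InjOn.ncard_image
  intro g hg g' hg' h
  have h' : divisor k g = divisor k g' := add_left_cancel h
  exact eq_of_divisor_eq (hne g hg) (hne g' hg') h' v0 (hlt v0 hv0 g (hg.1 v0 hv0))
    (hlt v0 hv0 g' (hg'.1 v0 hv0))

theorem ncard_congrSet_eq (T : Finset (Place k F)) (m : ℕ)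
    {D : Place k F →₀ ℤ} (hD : ∀ v ∈ T, D v = 0) (hne : (congrSet T m D).Nonempty) :
    Set.ncard (congrSet T m D) =
      Nat.card (LSpace (D - ∑ v ∈ T, Finsupp.single v (m : ℤ))) := by
  classical
  obtain ⟨f, hf⟩ := hne
  have hval : ∀ v, (D - ∑ v ∈ T, Finsupp.single v (m : ℤ) : Place k F →₀ ℤ) v =
      if v ∈ T then -(m : ℤ) else D v := by
    intro v
    rw [Finsupp.sub_apply, finsetSum_single_apply]
    split_ifs with h
    · rw [hD v h, zero_sub]
    · rw [sub_zero]
  have himg : congrSet T m D = (fun g => g + f) ''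
      (LSpace (D - ∑ v ∈ T, Finsupp.single v (m : ℤ)) : Set F) := by
    ext g
    constructor
    · intro hg
      refine ⟨g - f, ?_, by simp⟩
      intro v
      rw [hval]
      split_ifs with h
      · have : g - f = (g - 1) - (f - 1) := by ring
        rw [this]
        exact (v.val.map_sub _ _).trans (max_le (hg.1 v h) (hf.1 v h))
      · exact (v.val.map_sub _ _).trans (max_le (hg.2 v h) (hf.2 v h))
    · rintro ⟨h, hh, rfl⟩
      refine ⟨?_, ?_⟩
      · intro v hv
        have h1 := hh v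
        rw [hval, if_pos hv] at h1
        have : h + f - 1 = h + (f - 1) := by ring
        change v.val (h + f - 1) ≤ _
        rw [this]
        exact (v.val.map_add _ _).trans (max_le h1 (hf.1 v hv))
      · intro v hv
        have h1 := hh v
        rw [hval, if_neg hv] at h1
        exact (v.val.map_add _ _).trans (max_le h1 (hf.2 v hv))
  rw [himg, Set.ncard_image_of_injective _ (add_left_injective f)]
  rfl

variable (k F) in
/-- The number of effective divisors in a ray class depends only on the degree, if it is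
large. -/
theorem exists_card_ray [Finite k] (T : Finset (Place k F)) (hT : T.Nonempty) {m : ℕ} (hm : 0 < m) :
    ∃ d0 : ℤ, ∀ d : ℤ, d0 ≤ d → ∃ N : ℕ, 0 < N ∧ ∀ D : Place k F →₀ ℤ, (∀ v ∈ T, D v = 0) →
      degD D = d → Set.ncard {D' | D' ∈ Eff T d ∧ RayEquiv T m D D'} = N := by
  classical
  obtain ⟨g, c1, -, hR⟩ := exists_riemann k F
  obtain ⟨c2, hc2⟩ := exists_leadMap_surjective k F
  set e := degD (∑ v ∈ T, Finsupp.single v (m : ℤ) : Place k F →₀ ℤ) with he
  refine ⟨max c1 c2 + e, fun d hd => ⟨Nat.card k ^ (d - e - g).toNat, ?_, ?_⟩⟩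
  · exact pow_pos Nat.card_pos _
  · intro D hDT hDd
    have hle : max c1 c2 ≤ degD (D - ∑ v ∈ T, Finsupp.single v (m : ℤ)) := by
      rw [degD_sub, hDd, ← he]
      linarith
    obtain ⟨f, hf1, hf2⟩ := exists_congr_one hc2 T D hDT m ((le_max_right _ _).trans hle)
    have h1 := ncard_rayEquiv T hT hm hDT
    rw [hDd] at h1
    rw [h1, ncard_congrSet_eq T m hDT ⟨f, hf1, hf2⟩]
    have h2 := hR (D - ∑ v ∈ T, Finsupp.single v (m : ℤ)) ((le_max_left _ _).trans hle)
    rw [degD_sub, hDd, ← he] at h2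
    unfold ell at h2
    rw [← h2, Int.toNat_natCast]
    exact Module.natCard_eq_pow_finrank (K := k)

end

end Pool.Agent.helper90.Zp
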