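import Pool.Agent.helper90.Zp.Ray2

open scoped Polynomial WithZero

set_option linter.unusedSectionVars false

namespace Pool.Agent.helper90.Zp

section

variable {k F : Type*} [Field k] [Field F] [Algebra k F] [IsFunctionField k F]

theorem finite_deg_le [Finite k] (d : ℤ) : {v : Place k F | (v.deg : ℤ) ≤ d}.Finite := by
  have : {v : Place k F | (v.deg : ℤ) ≤ d} ⊆ ⋃ i ∈ Finset.range (d.toNat + 1), {v | v.deg = i} := by
    intro v hv
    simp only [Finset.mem_range, Set.mem_iUnion, Set.mem_ofPred_eq] at hv ⊢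
    exact ⟨v.deg, by omega, rfl⟩
  refine Set.Finite.subset ?_ this
  apply Set.Finite.biUnion (Finset.finite_toSet _)
  intro i _
  exact finite_deg_eq i

theorem finite_Eff [Finite k] (T : Finset (Place k F)) (d : ℤ) : (Eff T d).Finite := by
  classical
  let E : Place k F →₀ ℤ := ∑ v ∈ (finite_deg_le (k := k) (F := F) d).toFinset, Finsupp.single v d
  apply (Set.finite_Icc (0 : Place k F →₀ ℤ) E).subset
  rintro D ⟨h0, -, hd⟩
  refine ⟨h0, fun v => ?_⟩
  rw [show E v = _ from finsetSum_single_apply _ d v]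
  have h0v : ∀ w, 0 ≤ D w := fun w => h0 w
  by_cases hDv : D v = 0
  · rw [hDv]
    split_ifs with h
    · have := degD_nonneg h0
      omega
    · exact le_rfl
  · have hpos : 0 < D v := lt_of_le_of_ne (h0v v) (Ne.symm hDv)
    have h1 : D v * (v.deg : ℤ) ≤ d := by
      rw [← hd]
      unfold degD Finsupp.sum
      refine Finset.single_le_sum (f := fun w => D w * (w.deg : ℤ)) ?_ ?_
      · intro w _
        exact mul_nonneg (h0v w) (by positivity)
      · rw [Finsupp.mem_support_iff]; exact hDv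
    have hdeg : (1 : ℤ) ≤ v.deg := by
      have := v.deg_pos
      omega
    have h2 : (v.deg : ℤ) ≤ d := by nlinarith
    have h3 : D v ≤ d := by nlinarith
    rw [if_pos]
    · exact h3
    · rw [Set.Finite.mem_toFinset]; exact h2

/-- multiplicative weight of a divisor -/
noncomputable def dwt {R : Type*} [Field R] (c : Place k F → R) (D : Place k F →₀ ℤ) : R :=
  D.prod fun v n => c v ^ n

theorem dwt_add {R : Type*} [Field R] {c : Place k F → R} (hc : ∀ v, c v ≠ 0)
    (D E : Place k F →₀ ℤ) : dwt c (D + E) = dwt c D * dwt c E := by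
  classical
  unfold dwt
  rw [Finsupp.prod_add_index']
  · intro v; simp
  · intro v a b; exact zpow_add₀ (hc v) a b

theorem dwt_ne_zero {R : Type*} [Field R] {c : Place k F → R} (hc : ∀ v, c v ≠ 0)
    (D : Place k F →₀ ℤ) : dwt c D ≠ 0 := by
  unfold dwt
  apply Finset.prod_ne_zero_iff.mpr
  intro v _
  exact zpow_ne_zero _ (hc v)

theorem RayEquiv.symm' {T : Finset (Place k F)} {m : ℕ} (hm : 0 < m) {D D' J : Place k F →₀ ℤ} :
    RayEquiv T m (D + J) D' ↔ RayEquiv T m (D' - J) D := by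
  have key : ∀ g : F, g ≠ 0 → (∀ v ∈ T, v.val (g - 1) ≤ WithZero.exp (-(m : ℤ))) →
      ∀ v ∈ T, v.val (g⁻¹ - 1) ≤ WithZero.exp (-(m : ℤ)) := by
    intro g hg h v hv
    have h1 : g⁻¹ - 1 = -((g - 1) * g⁻¹) := by field_simp; ring
    rw [h1, Valuation.map_neg, map_mul, map_inv₀, val_eq_one_of_congr hm (h v hv), inv_one,
      mul_one]
    exact h v hv
  constructor
  · rintro ⟨g, hg, hgT, rfl⟩
    refine ⟨g⁻¹, inv_ne_zero hg, key g hg hgT, ?_⟩
    rw [divisor_inv]
    abel
  · rintro ⟨g, hg, hgT, rfl⟩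
    refine ⟨g⁻¹, inv_ne_zero hg, key g hg hgT, ?_⟩
    rw [divisor_inv]
    abel

theorem ray_sum_aux [Finite k] {R : Type*} [Field R] [CharZero R]
    (T : Finset (Place k F)) (hT : T.Nonempty) {m : ℕ} (hm : 0 < m) (c : Place k F → R)
    (hc : ∀ v, c v ≠ 0)
    (hrec : ∀ g : F, g ≠ 0 → (∀ v ∈ T, v.val (g - 1) ≤ WithZero.exp (-(m : ℤ))) →
      dwt c (divisor k g) = 1)
    (J : Place k F →₀ ℤ) (hJT : ∀ v ∈ T, J v = 0) (hJ0 : degD J = 0) (hJ : dwt c J ≠ 1) :
    ∃ d0 : ℤ, ∀ d : ℤ, d0 ≤ d → ∑ D ∈ (finite_Eff T d).toFinset, dwt c D = 0 := by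
  classical
  obtain ⟨d0, hd0⟩ := exists_card_ray k F T hT hm
  refine ⟨d0, fun d hd => ?_⟩
  obtain ⟨N, hN, hcard⟩ := hd0 d hd
  set S := (finite_Eff T d).toFinset with hS
  have hmemS : ∀ D, D ∈ S ↔ D ∈ Eff T d := fun D => by rw [hS, Set.Finite.mem_toFinset]
  have hcount : ∀ D : Place k F →₀ ℤ, (∀ v ∈ T, D v = 0) → degD D = d →
      (S.filter (fun D' => RayEquiv T m D D')).card = N := by
    intro D hDT hDd
    rw [← hcard D hDT hDd, ← Set.ncard_coe_finset]
    congr 1
    ext D'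
    simp [hmemS]
  have h1 : (N : R) * ∑ D ∈ S, dwt c D =
      ∑ D ∈ S, ∑ D' ∈ S, if RayEquiv T m (D + J) D' then dwt c D else 0 := by
    rw [Finset.mul_sum]
    apply Finset.sum_congr rfl
    intro D hD
    rw [hmemS] at hD
    rw [← Finset.sum_filter, Finset.sum_const, nsmul_eq_mul, hcount]
    · intro v hv
      rw [Finsupp.add_apply, hD.2.1 v hv, hJT v hv, add_zero]
    · rw [degD_add, hD.2.2, hJ0, add_zero]
  have h2 : ∑ D ∈ S, ∑ D' ∈ S, (if RayEquiv T m (D + J) D' then dwt c D else 0) =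
      (N : R) * (dwt c J)⁻¹ * ∑ D ∈ S, dwt c D := by
    rw [Finset.sum_comm, Finset.mul_sum]
    apply Finset.sum_congr rfl
    intro D' hD'
    rw [hmemS] at hD'
    have h3 : ∀ D ∈ S, (if RayEquiv T m (D + J) D' then dwt c D else 0) =
        if RayEquiv T m (D' - J) D then (dwt c J)⁻¹ * dwt c D' else 0 := by
      intro D _
      by_cases hR : RayEquiv T m (D + J) D'
      · rw [if_pos hR, if_pos ((RayEquiv.symm' hm).mp hR)]
        obtain ⟨g, hg, hgT, rfl⟩ := hR
        rw [dwt_add hc, dwt_add hc, hrec g hg hgT, mul_one, mul_comm (dwt c D),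
          inv_mul_cancel_left₀ (dwt_ne_zero hc J)]
      · rw [if_neg hR, if_neg (fun h => hR ((RayEquiv.symm' hm).mpr h))]
    rw [Finset.sum_congr rfl h3, ← Finset.sum_filter, Finset.sum_const, nsmul_eq_mul, hcount]
    · ring
    · intro v hv
      rw [Finsupp.sub_apply, hD'.2.1 v hv, hJT v hv, sub_zero]
    · rw [degD_sub, hD'.2.2, hJ0, sub_zero]
  rw [h2] at h1
  have hN' : (N : R) ≠ 0 := by
    rw [Nat.cast_ne_zero]; omega
  have h4 : (1 - (dwt c J)⁻¹) * ∑ D ∈ S, dwt c D = 0 := by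
    have : (N : R) * ((1 - (dwt c J)⁻¹) * ∑ D ∈ S, dwt c D) = 0 := by
      linear_combination h1
    exact (mul_eq_zero.mp this).resolve_left hN'
  refine (mul_eq_zero.mp h4).resolve_left ?_
  intro h5
  rw [sub_eq_zero, eq_comm, inv_eq_one] at h5
  exact hJ h5

/-- an effective divisor with natural number coefficients, as a divisor -/
noncomputable def toZ (D : Place k F →₀ ℕ) : Place k F →₀ ℤ :=
  D.mapRange (fun n : ℕ => (n : ℤ)) rfl

theorem toZ_apply (D : Place k F →₀ ℕ) (v : Place k F) : toZ D v = (D v : ℤ) := rfl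

theorem toZ_nonneg (D : Place k F →₀ ℕ) : 0 ≤ toZ D := by
  intro v; simp [toZ_apply]

theorem toZ_injective : Function.Injective (toZ : (Place k F →₀ ℕ) → _) := by
  intro D E h
  ext v
  have := congrArg (fun D => D v) h
  simpa [toZ_apply] using this

theorem exists_toZ_eq {D : Place k F →₀ ℤ} (h : 0 ≤ D) : ∃ E : Place k F →₀ ℕ, toZ E = D := by
  refine ⟨D.mapRange Int.toNat rfl, ?_⟩
  ext v
  have := h v
  rw [toZ_apply, Finsupp.mapRange_apply, Int.toNat_of_nonneg this]

theorem degD_toZ (D : Place k F →₀ ℕ) : degD (toZ D) = ((D.sum fun v m => m * v.deg : ℕ) : ℤ) := by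
  unfold degD toZ
  rw [Finsupp.sum_mapRange_index (by simp)]
  unfold Finsupp.sum
  push_cast
  rfl

theorem prod_toZ {R : Type*} [Field R] (c : Place k F → R) (D : Place k F →₀ ℕ) :
    (D.prod fun v m => c v ^ m) = dwt c (toZ D) := by
  unfold dwt toZ
  rw [Finsupp.prod_mapRange_index (by simp)]
  simp

/-- the coefficients of an L-series, in terms of `ℤ`-valued divisors -/
theorem finsum_eq_sum_Eff [Finite k] {R : Type*} [Field R] (T : Finset (Place k F))
    (c : Place k F → R) (hcT : ∀ v ∈ T, c v = 0) (c' : Place k F → R) (hc' : ∀ v ∉ T, c' v = c v)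
    (d : ℕ) :
    (∑ᶠ D : {D : Place k F →₀ ℕ // (D.sum fun v m => m * v.deg) = d},
      D.1.prod fun v m => c v ^ m) = ∑ D ∈ (finite_Eff T d).toFinset, dwt c' D := by
  classical
  have h1 := finsum_set_coe_eq_finsum_mem (M := R)
    (s := {D : Place k F →₀ ℕ | (D.sum fun v m => m * v.deg) = d})
    (f := fun D => D.prod fun v m => c v ^ m)
  rw [show (∑ᶠ D : {D : Place k F →₀ ℕ // (D.sum fun v m => m * v.deg) = d},
      D.1.prod fun v m => c v ^ m) = _ from h1]
  rw [← finsum_mem_eq_finite_toFinset_sum]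
  have h2 : ∑ᶠ D ∈ {D : Place k F →₀ ℕ | (D.sum fun v m => m * v.deg) = d},
      (D.prod fun v m => c v ^ m) =
      ∑ᶠ D ∈ {D : Place k F →₀ ℕ | (D.sum fun v m => m * v.deg) = d ∧ ∀ v ∈ T, D v = 0},
      (D.prod fun v m => c v ^ m) := by
    apply finsum_mem_inter_support_eq
    ext D
    constructor
    · rintro ⟨hD, hs⟩
      refine ⟨⟨hD, ?_⟩, hs⟩
      intro v hv
      by_contra h0
      apply hs
      exact Finset.prod_eq_zero (Finsupp.mem_support_iff.mpr h0)
        (by simp only [hcT v hv]; exact zero_pow h0)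
    · rintro ⟨hD, hs⟩
      exact ⟨hD.1, hs⟩
  rw [h2]
  refine finsum_mem_eq_of_bijOn toZ ⟨?_, toZ_injective.injOn, ?_⟩ ?_
  · rintro D ⟨hD, hDT⟩
    refine ⟨toZ_nonneg D, fun v hv => ?_, ?_⟩
    · rw [toZ_apply, hDT v hv]; rfl
    · rw [degD_toZ, hD]
  · rintro D ⟨h0, hDT, hd⟩
    obtain ⟨E, rfl⟩ := exists_toZ_eq h0
    refine ⟨E, ⟨?_, fun v hv => ?_⟩, rfl⟩
    · rw [degD_toZ] at hd
      exact_mod_cast hd
    · have := hDT v hv
      rw [toZ_apply] at this
      exact_mod_cast this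
  · rintro D ⟨hD, hDT⟩
    rw [← prod_toZ]
    apply Finset.prod_congr rfl
    intro v hv
    have hvT : v ∉ T := by
      intro h
      rw [Finsupp.mem_support_iff] at hv
      exact hv (hDT v h)
    simp only [hc' v hvT]

/-- L-series with nontrivial character on divisors of degree zero are polynomials. -/
theorem ray_sum_eq_zero [Finite k] {R : Type*} [Field R] [CharZero R]
    (T : Finset (Place k F)) (hT : T.Nonempty) {m : ℕ} (hm : 0 < m) (c : Place k F → R)
    (hcT : ∀ v ∈ T, c v = 0) (hc : ∀ v ∉ T, c v ≠ 0)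
    (hrec : ∀ g : F, g ≠ 0 → (∀ v ∈ T, v.val (g - 1) ≤ WithZero.exp (-(m : ℤ))) →
      dwt c (divisor k g) = 1)
    (J : Place k F →₀ ℤ) (hJT : ∀ v ∈ T, J v = 0) (hJ0 : degD J = 0) (hJ : dwt c J ≠ 1) :
    ∃ d0 : ℕ, ∀ d : ℕ, d0 ≤ d →
      (∑ᶠ D : {D : Place k F →₀ ℕ // (D.sum fun v m => m * v.deg) = d},
        D.1.prod fun v m => c v ^ m) = 0 := by
  classical
  set c' : Place k F → R := fun v => if v ∈ T then 1 else c v with hc'
  have hc'0 : ∀ v, c' v ≠ 0 := by
    intro v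
    rw [hc']
    by_cases h : v ∈ T
    · simp [h]
    · simp only [if_neg h]; exact hc v h
  have hc'T : ∀ v ∉ T, c' v = c v := fun v hv => by rw [hc']; simp [hv]
  have hwt : ∀ D : Place k F →₀ ℤ, (∀ v ∈ T, D v = 0) → dwt c' D = dwt c D := by
    intro D hD
    apply Finset.prod_congr rfl
    intro v hv
    have hvT : v ∉ T := by
      intro h
      rw [Finsupp.mem_support_iff] at hv
      exact hv (hD v h)
    simp only [hc'T v hvT]
  obtain ⟨d0, hd0⟩ := ray_sum_aux T hT hm c' hc'0 (by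
    intro g hg hgT
    rw [hwt _ (fun v hv => ?_)]
    · exact hrec g hg hgT
    · rw [divisor_apply]
      exact (v.ord_eq_zero_iff hg).mpr (val_eq_one_of_congr hm (hgT v hv))) J hJT hJ0
    (by rw [hwt J hJT]; exact hJ)
  refine ⟨d0.toNat, fun d hd => ?_⟩
  rw [finsum_eq_sum_Eff T c hcT c' hc'T d]
  exact hd0 d (by omega)

end

end Pool.Agent.helper90.Zp
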