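import Pool.Agent.helper90.Zp.Val

/-!
Further definitions: regular functions, restriction of places, unramified places,
Euler series.
-/

open scoped Polynomial WithZero

namespace Pool.Agent.helper90.Zp

section Regular

variable {k F : Type*} [Field k] [Field F] [Algebra k F]

/-- The ring of functions regular outside the set `T` of places. -/
def regularOutside (T : Set (Place k F)) : Subalgebra k F where
  carrier := {f | ∀ v : Place k F, v ∉ T → f ∈ v.ring}
  mul_mem' hf hg v hv := v.ring.mul_mem _ _ (hf v hv) (hg v hv)
  add_mem' hf hg v hv := v.ring.add_mem _ _ (hf v hv) (hg v hv)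
  algebraMap_mem' a v _ := v.algebraMap_mem a

theorem mem_regularOutside {T : Set (Place k F)} {f : F} :
    f ∈ regularOutside T ↔ ∀ v : Place k F, v ∉ T → f ∈ v.ring := Iff.rfl

/-- The value at the place `v ∉ T` of a function regular outside `T`. -/
noncomputable def evalAt {T : Set (Place k F)} (v : Place k F) (hv : v ∉ T) :
    regularOutside T →+* IsLocalRing.ResidueField v.ring :=
  (IsLocalRing.residue v.ring).comp
    { toFun := fun f => ⟨f.1, f.2 v hv⟩
      map_one' := rfl
      map_mul' := fun _ _ => rfl
      map_zero' := rfl
      map_add' := fun _ _ => rfl }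

/-- For a polynomial `E` whose coefficients are regular outside `T` and a place `v ∉ T` with
residue field of cardinality `p ^ r`, the product of the `r` Frobenius conjugates of the
value of `E` at `v`, i.e. `N_v(E) = ∏_{i < r} (E(v))^{(p^i)}`
(Frobenius acts on the coefficients only). -/
noncomputable def frobNorm (p : ℕ) [Fact p.Prime] [CharP k p] {T : Set (Place k F)}
    (E : (regularOutside T)[X]) (v : Place k F) (hv : v ∉ T) :
    (IsLocalRing.ResidueField v.ring)[X] :=
  haveI : CharP (IsLocalRing.ResidueField v.ring) p :=
    charP_of_injective_algebraMap (algebraMap k (IsLocalRing.ResidueField v.ring)).injective p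
  ∏ i ∈ Finset.range (Nat.log p (Nat.card (IsLocalRing.ResidueField v.ring))),
    (E.map (evalAt v hv)).map (iterateFrobenius (IsLocalRing.ResidueField v.ring) p i)

end Regular

end Pool.Agent.helper90.Zp
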