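import Pool.Agent.helper90.Zp.Regular

open scoped Polynomial WithZero

namespace Pool.Agent.helper90.Zp

section

variable {k F Γ : Type*} [Field k] [Field F] [Algebra k F]
    [LinearOrderedCommGroupWithZero Γ] (V : Valuation F Γ) [V.IsTrivialOn k]

theorem exists_const_of_mem_adjoin {w : F} (hw : 1 < V w) {c : F}
    (hc : c ∈ IntermediateField.adjoin k {w}) (hc1 : V c ≤ 1) :
    ∃ a : k, V (c - algebraMap k F a) < 1 := by
  by_cases hlt : V c < 1
  · exact ⟨0, by simpa using hlt⟩
  have hc2 : V c = 1 := le_antisymm hc1 (not_lt.mp hlt)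
  have hc0 : c ≠ 0 := by rintro rfl; simp at hc2
  rw [IntermediateField.mem_adjoin_simple_iff] at hc
  obtain ⟨r, s, rfl⟩ := hc
  have hr : r ≠ 0 := by rintro rfl; simp at hc0
  have hs : s ≠ 0 := by rintro rfl; simp at hc0
  have hw0 : V w ≠ 0 := (zero_lt_one.trans hw).ne'
  have hVr := Polynomial.valuation_aeval_eq_valuation_X_pow_natDegree_of_one_lt_valuation_X
    (v := V) w hw hr
  have hVs := Polynomial.valuation_aeval_eq_valuation_X_pow_natDegree_of_one_lt_valuation_X
    (v := V) w hw hs
  rw [map_div₀, hVr, hVs, div_eq_one_iff_eq (pow_ne_zero _ hw0)] at hc2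
  have hdeg : r.natDegree = s.natDegree :=
    pow_right_injective₀ (zero_lt_one.trans hw) hw.ne' hc2
  set a := r.leadingCoeff / s.leadingCoeff with ha
  have hsl : s.leadingCoeff ≠ 0 := by simpa using hs
  have ha0 : a ≠ 0 := div_ne_zero (by simpa using hr) hsl
  refine ⟨a, ?_⟩
  have hs0 : Polynomial.aeval w s ≠ 0 := by
    intro h; rw [h, map_zero] at hVs; exact pow_ne_zero _ hw0 hVs.symm
  have heq : Polynomial.aeval w r / Polynomial.aeval w s - algebraMap k F a =
      Polynomial.aeval w (r - Polynomial.C a * s) / Polynomial.aeval w s := by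
    rw [map_sub, map_mul, Polynomial.aeval_C, sub_div, mul_div_assoc, div_self hs0, mul_one]
  rw [heq, map_div₀, hVs]
  by_cases hzero : r - Polynomial.C a * s = 0
  · rw [hzero]; simp
  · rw [Polynomial.valuation_aeval_eq_valuation_X_pow_natDegree_of_one_lt_valuation_X
      (v := V) w hw hzero, div_lt_one₀ (pow_pos (zero_lt_iff.mpr hw0) _)]
    apply pow_lt_pow_right₀ hw
    rw [← hdeg]
    have hd : (r - Polynomial.C a * s).degree < r.degree := by
      apply Polynomial.degree_sub_lt
      · rw [Polynomial.degree_C_mul ha0, Polynomial.degree_eq_natDegree hr,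
          Polynomial.degree_eq_natDegree hs, hdeg]
      · exact hr
      · rw [Polynomial.leadingCoeff_mul, Polynomial.leadingCoeff_C, ha, div_mul_cancel₀ _ hsl]
    exact Polynomial.natDegree_lt_natDegree hzero hd

end

namespace Place

variable {k F : Type*} [Field k] [Field F] [Algebra k F] (v : Place k F)

theorem algebraMap_ring_apply (a : k) : ((algebraMap k v.ring a : v.ring) : F) = algebraMap k F a :=
  rfl

theorem residue_eq_zero_iff (x : v.ring) :
    IsLocalRing.residue v.ring x = 0 ↔ v.ring.valuation (x : F) < 1 := by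
  rw [IsLocalRing.residue_eq_zero_iff, v.ring.valuation_lt_one_iff]

variable [IsFunctionField k F]

theorem exists_adjoin_bound {w : F} (hw : 1 < v.ring.valuation w) {ι : Type*} [Fintype ι]
    (b : ι → IsLocalRing.ResidueField v.ring) (hb : LinearIndependent k b) :
    Fintype.card ι ≤ Module.finrank (IntermediateField.adjoin k {w}) F := by
  classical
  set V := v.ring.valuation with hV
  have hw0 : w ≠ 0 := by rintro rfl; rw [map_zero] at hw; exact absurd hw (not_lt.mpr zero_le_one)
  have hwt : Transcendental k w := Valuation.transcendental_of_ne_one k w hw0 hw.ne'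
  have hfin := finiteDimensional_adjoin hwt
  have hsurj := IsLocalRing.residue_surjective (R := v.ring)
  choose x hx using fun i => hsurj (b i)
  have hLI : LinearIndependent (IntermediateField.adjoin k {w}) (fun i => (x i : F)) := by
    rw [Fintype.linearIndependent_iff]
    intro g hg
    by_contra! hne
    obtain ⟨i1, hi1⟩ := hne
    obtain ⟨i0, -, hmax⟩ := Finset.exists_max_image Finset.univ (fun i => V (g i : F)) ⟨i1, by simp⟩
    have hgi0 : (g i0 : F) ≠ 0 := by
      intro h0
      have := hmax i1 (Finset.mem_univ _)
      rw [h0, map_zero, le_zero_iff, map_eq_zero] at this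
      exact hi1 (by exact_mod_cast this)
    have hVgi0 : V (g i0 : F) ≠ 0 := by rwa [ne_eq, map_eq_zero]
    -- c i = g i / g i0
    have hc1 : ∀ i, V ((g i : F) / g i0) ≤ 1 := by
      intro i
      rw [map_div₀, div_le_one₀ (zero_lt_iff.mpr hVgi0)]
      exact hmax i (Finset.mem_univ _)
    have hca : ∀ i, ∃ a : k, V ((g i : F) / g i0 - algebraMap k F a) < 1 := fun i =>
      exists_const_of_mem_adjoin V hw (div_mem (g i).2 (g i0).2) (hc1 i)
    choose a ha using hca
    have hsum : ∑ i, ((g i : F) / g i0) * x i = 0 := by
      have : ∑ i, ((g i : F) / g i0) * x i = (∑ i, g i • (x i : F)) / g i0 := by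
        rw [Finset.sum_div]
        apply Finset.sum_congr rfl
        intro i _
        rw [IntermediateField.smul_def, smul_eq_mul]
        ring
      rw [this, hg, zero_div]
    have hcmem : ∀ i, (g i : F) / g i0 ∈ v.ring := fun i =>
      (v.ring.valuation_le_one_iff _).mp (hc1 i)
    have hsum' : ∑ i, (⟨(g i : F) / g i0, hcmem i⟩ : v.ring) * x i = 0 := by
      apply Subtype.ext
      have : ((∑ i, (⟨(g i : F) / g i0, hcmem i⟩ : v.ring) * x i : v.ring) : F)
          = ∑ i, ((g i : F) / g i0) * x i := by
        push_cast
        rfl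
      rw [this, hsum]; rfl
    have hres : ∀ i, IsLocalRing.residue v.ring ⟨(g i : F) / g i0, hcmem i⟩ =
        algebraMap k (IsLocalRing.ResidueField v.ring) (a i) := by
      intro i
      have h1 : algebraMap k (IsLocalRing.ResidueField v.ring) (a i) =
          IsLocalRing.residue v.ring (algebraMap k v.ring (a i)) := rfl
      rw [h1, ← sub_eq_zero, ← map_sub, residue_eq_zero_iff]
      exact ha i
    have hsum'' : ∑ i, a i • b i = 0 := by
      have := congrArg (IsLocalRing.residue v.ring) hsum'
      rw [map_sum, map_zero] at this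
      rw [← this]
      apply Finset.sum_congr rfl
      intro i _
      rw [map_mul, hres, hx, Algebra.smul_def]
    have ha0 := Fintype.linearIndependent_iff.mp hb a hsum'' i0
    have h1 := ha i0
    rw [ha0, map_zero, sub_zero, div_self hgi0, map_one] at h1
    exact absurd h1 (lt_irrefl _)
  exact hLI.fintype_card_le_finrank

instance finite_residueField : Module.Finite k (IsLocalRing.ResidueField v.ring) := by
  obtain ⟨w, hw⟩ := v.exists_one_lt
  set n := Module.finrank (IntermediateField.adjoin k {w}) F with hn
  have hrank : Module.rank k (IsLocalRing.ResidueField v.ring) ≤ n := by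
    apply rank_le
    intro s hs
    have := v.exists_adjoin_bound hw (fun i : s => (i : IsLocalRing.ResidueField v.ring)) hs
    simpa using this
  have : Module.rank k (IsLocalRing.ResidueField v.ring) < Cardinal.aleph0 :=
    lt_of_le_of_lt hrank (Cardinal.natCast_lt_aleph0)
  exact Module.rank_lt_aleph0_iff.mp this

theorem deg_pos : 0 < v.deg := Module.finrank_pos

end Place

end Pool.Agent.helper90.Zp
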