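import Pool.Agent.helper90.Zp.Zeros

open scoped Polynomial WithZero

set_option linter.unusedSectionVars false

namespace Pool.Agent.helper90.Zp

section

variable {k F : Type*} [Field k] [Field F] [Algebra k F]

/-- A transcendental function has a zero. -/
theorem Place.exists_of_transcendental' (x : F) (hx : Transcendental k x) :
    ∃ v : Place k F, v.ring.valuation x < 1 := by
  let A : Subring F := (Algebra.adjoin k {x}).toSubring
  have hxA : x ∈ A := Algebra.subset_adjoin (Set.mem_singleton x)
  let I : Ideal A := Ideal.span {⟨x, hxA⟩}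
  have hI : I ≠ ⊤ := by
    intro h
    rw [Ideal.eq_top_iff_one, Ideal.mem_span_singleton'] at h
    obtain ⟨⟨y, hy⟩, hyx⟩ := h
    have hy' : y ∈ (Polynomial.aeval x : k[X] →ₐ[k] F).range := by
      rw [← Algebra.adjoin_singleton_eq_range_aeval]
      exact hy
    obtain ⟨P, hP⟩ := hy'
    have h1 : y * x = 1 := congrArg Subtype.val hyx
    have h2 : Polynomial.aeval x (P * Polynomial.X - 1 : k[X]) = 0 := by
      rw [map_sub, map_mul, Polynomial.aeval_X, map_one]
      rw [sub_eq_zero, ← h1]
      congr 1
    have h3 : (P * Polynomial.X - 1 : k[X]) ≠ 0 := by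
      intro h0
      have := congrArg (Polynomial.eval 0) h0
      simp at this
    exact hx ⟨_, h3, h2⟩
  obtain ⟨B, hAB, hB⟩ := Ideal.image_subset_nonunits_valuationSubring I hI
  have hx0 : x ≠ 0 := by rintro rfl; exact hx isAlgebraic_zero
  have hxB : x ∈ B.nonunits := hB ⟨⟨x, hxA⟩, Ideal.subset_span rfl, rfl⟩
  have hlt : B.valuation x < 1 := (B.mem_nonunits_iff).mp hxB
  refine ⟨⟨B, fun a => hAB (Subalgebra.algebraMap_mem _ a), ?_⟩, hlt⟩
  intro htop
  have h1 : x⁻¹ ∈ B := by rw [htop]; trivial
  rw [← B.valuation_le_one_iff, map_inv₀] at h1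
  have h0 : 0 < B.valuation x := by
    rw [zero_lt_iff, ne_eq, map_eq_zero]; exact hx0
  exact absurd ((inv_le_one₀ h0).mp h1) (not_le.mpr hlt)

variable [IsFunctionField k F]

theorem Place.exists_of_transcendental (x : F) (hx : Transcendental k x) :
    ∃ v : Place k F, v.val x < 1 := by
  obtain ⟨v, hv⟩ := Place.exists_of_transcendental' x hx
  exact ⟨v, (v.val_lt_one_iff x).mpr hv⟩

theorem transcendental_of_val_ne_one {x : F} (hx : x ≠ 0) {v : Place k F} (hv : v.val x ≠ 1) :
    Transcendental k x :=
  Valuation.transcendental_of_ne_one k x hx hv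

theorem transcendental_inv {x : F} (hx : Transcendental k x) : Transcendental k x⁻¹ := by
  rwa [Transcendental, IsAlgebraic.inv_iff]

theorem exists_pole_of_transcendental (x : F) (hx : Transcendental k x) :
    ∃ v : Place k F, 1 < v.val x := by
  obtain ⟨v, hv⟩ := Place.exists_of_transcendental x⁻¹ (transcendental_inv hx)
  refine ⟨v, ?_⟩
  have hx0 : x ≠ 0 := by rintro rfl; exact hx isAlgebraic_zero
  rw [map_inv₀] at hv
  exact (inv_lt_one₀ (zero_lt_iff.mpr ((map_ne_zero _).mpr hx0))).mp hv

theorem finite_zeros {x : F} (hx : Transcendental k x) : {v : Place k F | v.val x < 1}.Finite := by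
  have hx0 : x ≠ 0 := by rintro rfl; exact hx isAlgebraic_zero
  by_contra hinf
  have hinf : {v : Place k F | v.val x < 1}.Infinite := hinf
  obtain ⟨W, hW, hcard⟩ := hinf.exists_subset_card_eq
    (Module.finrank (IntermediateField.adjoin k {x}) F + 1)
  have h1 := sum_ord_mul_deg_le_finrank hx W (fun v hv => hW hv)
  have h2 : W.card ≤ ∑ v ∈ W, (v.ord x).toNat * v.deg := by
    rw [Finset.card_eq_sum_ones]
    apply Finset.sum_le_sum
    intro v hv
    have hv1 : v.val x < 1 := hW hv
    rw [v.val_eq_exp_neg_ord hx0, ← WithZero.exp_zero, WithZero.exp_lt_exp] at hv1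
    have : 0 < (v.ord x).toNat := by omega
    exact Nat.mul_pos this v.deg_pos
  omega

theorem finite_val_ne_one {x : F} (hx : x ≠ 0) : {v : Place k F | v.val x ≠ 1}.Finite := by
  by_cases h : Transcendental k x
  · apply ((finite_zeros h).union (finite_zeros (transcendental_inv h))).subset
    intro v hv
    rcases lt_or_gt_of_ne hv with h1 | h1
    · exact Or.inl h1
    · right
      change v.val x⁻¹ < 1
      rw [map_inv₀]
      exact inv_lt_one_of_one_lt₀ h1
  · convert Set.finite_empty
    ext v
    simp only [Set.mem_ofPred_eq, Set.mem_empty_iff_false, iff_false, not_not]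
    by_contra hv
    exact h (transcendental_of_val_ne_one hx hv)

theorem Place.ord_eq_zero_iff (v : Place k F) {x : F} (hx : x ≠ 0) :
    v.ord x = 0 ↔ v.val x = 1 := by
  rw [v.val_eq_exp_neg_ord hx, ← WithZero.exp_zero, WithZero.exp_inj]
  omega

theorem finite_ord_ne_zero (x : F) : {v : Place k F | v.ord x ≠ 0}.Finite := by
  by_cases hx : x = 0
  · subst hx
    simp [Place.ord_zero]
  · apply (finite_val_ne_one (k := k) hx).subset
    intro v hv h
    exact hv ((v.ord_eq_zero_iff hx).mpr h)

/-- principal divisor -/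
noncomputable def divisor (k : Type*) {F : Type*} [Field k] [Field F] [Algebra k F]
    [IsFunctionField k F] (x : F) : Place k F →₀ ℤ :=
  Finsupp.ofSupportFinite (fun v => v.ord x) (finite_ord_ne_zero x)

@[simp] theorem divisor_apply (x : F) (v : Place k F) : divisor k x v = v.ord x := rfl

/-- degree of a divisor -/
noncomputable def degD (D : Place k F →₀ ℤ) : ℤ := D.sum fun v n => n * v.deg

theorem degD_add (D E : Place k F →₀ ℤ) : degD (D + E) = degD D + degD E := by
  classical
  unfold degD
  rw [Finsupp.sum_add_index']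
  · intro v; simp
  · intro v a b; ring

theorem degD_zero : degD (0 : Place k F →₀ ℤ) = 0 := by simp [degD]

theorem degD_neg (D : Place k F →₀ ℤ) : degD (-D) = - degD D := by
  have := degD_add D (-D)
  rw [add_neg_cancel, degD_zero] at this
  linarith

theorem degD_sub (D E : Place k F →₀ ℤ) : degD (D - E) = degD D - degD E := by
  rw [sub_eq_add_neg, degD_add, degD_neg, sub_eq_add_neg]

theorem degD_single (v : Place k F) (n : ℤ) : degD (Finsupp.single v n) = n * v.deg := by
  simp [degD]

theorem degD_nonneg {D : Place k F →₀ ℤ} (h : 0 ≤ D) : 0 ≤ degD D := by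
  apply Finset.sum_nonneg
  intro v _
  exact mul_nonneg (h v) (by positivity)

theorem degD_mono {D E : Place k F →₀ ℤ} (h : D ≤ E) : degD D ≤ degD E := by
  have := degD_nonneg (sub_nonneg.mpr h)
  rw [degD_sub] at this
  linarith

/-- Riemann-Roch space -/
def LSpace (D : Place k F →₀ ℤ) : Submodule k F where
  carrier := {f | ∀ v : Place k F, v.val f ≤ WithZero.exp (D v)}
  add_mem' ha hb v := (v.val.map_add _ _).trans (max_le (ha v) (hb v))
  zero_mem' v := by simp
  smul_mem' c f hf v := by
    rw [Algebra.smul_def, map_mul]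
    have hc1 : v.val (algebraMap k F c) ≤ 1 := by
      rw [v.val_le_one_iff]
      exact v.algebraMap_mem _
    calc _ ≤ 1 * v.val f := by gcongr
      _ ≤ _ := by rw [one_mul]; exact hf v

theorem mem_LSpace {D : Place k F →₀ ℤ} {f : F} :
    f ∈ LSpace D ↔ ∀ v : Place k F, v.val f ≤ WithZero.exp (D v) := Iff.rfl

theorem mem_LSpace_iff_ord {D : Place k F →₀ ℤ} {f : F} (hf : f ≠ 0) :
    f ∈ LSpace D ↔ 0 ≤ divisor k f + D := by
  rw [mem_LSpace]
  constructor
  · intro h v
    have := h v
    rw [v.val_eq_exp_neg_ord hf, WithZero.exp_le_exp] at this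
    rw [Finsupp.add_apply, divisor_apply, Finsupp.zero_apply]
    omega
  · intro h v
    have := h v
    rw [Finsupp.add_apply, divisor_apply, Finsupp.zero_apply] at this
    rw [v.val_eq_exp_neg_ord hf, WithZero.exp_le_exp]
    omega

theorem LSpace_mono {D E : Place k F →₀ ℤ} (h : D ≤ E) : LSpace D ≤ LSpace E := by
  intro f hf v
  exact (hf v).trans (WithZero.exp_le_exp.mpr (h v))

/-- leading coefficient at `v`, relative to a chosen element `t` -/
noncomputable def leadMap (v : Place k F) (D : Place k F →₀ ℤ) (t : F)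
    (ht : v.val t = WithZero.exp (-(D v))) :
    LSpace D →ₗ[k] IsLocalRing.ResidueField v.ring where
  toFun f := IsLocalRing.residue v.ring ⟨(f : F) * t, by
    rw [← v.val_le_one_iff, map_mul, ht]
    calc _ ≤ WithZero.exp (D v) * WithZero.exp (-(D v)) := by gcongr; exact f.2 v
      _ = 1 := by rw [← WithZero.exp_add, add_neg_cancel, WithZero.exp_zero]⟩
  map_add' f g := by
    rw [← map_add]
    congr 1
    apply Subtype.ext
    change (((f : F) + g) * t) = (f : F) * t + g * t
    ring
  map_smul' c f := by
    rw [RingHom.id_apply, Algebra.smul_def]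
    have h1 : algebraMap k (IsLocalRing.ResidueField v.ring) c =
          IsLocalRing.residue v.ring (algebraMap k v.ring c) := rfl
    rw [h1]
    refine Eq.trans ?_ (map_mul (IsLocalRing.residue v.ring) (algebraMap k v.ring c) _)
    congr 1
    apply Subtype.ext
    change ((c • (f : F)) * t) = algebraMap k F c * ((f : F) * t)
    rw [Algebra.smul_def]
    ring

theorem leadMap_eq_zero_iff (v : Place k F) (D : Place k F →₀ ℤ) (t : F)
    (ht : v.val t = WithZero.exp (-(D v))) (f : LSpace D) :
    leadMap v D t ht f = 0 ↔ v.val (f : F) < WithZero.exp (D v) := by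
  change IsLocalRing.residue v.ring _ = 0 ↔ _
  rw [v.residue_eq_zero_iff, ← v.val_lt_one_iff]
  change v.val ((f : F) * t) < 1 ↔ _
  rw [map_mul, ht]
  have : (1 : ℤᵐ⁰) = WithZero.exp (D v) * WithZero.exp (-(D v)) := by
    rw [← WithZero.exp_add, add_neg_cancel, WithZero.exp_zero]
  rw [this]
  exact mul_lt_mul_iff_left₀ WithZero.exp_pos

theorem exp_lt_iff_le_sub_one {y : ℤᵐ⁰} {n : ℤ} :
    y < WithZero.exp n ↔ y ≤ WithZero.exp (n - 1) := by
  by_cases hy : y = 0
  · subst hy; simp [WithZero.exp_pos]
  · rw [← WithZero.exp_log hy, WithZero.exp_lt_exp, WithZero.exp_le_exp]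
    omega

theorem mem_LSpace_sub_single {v : Place k F} {D : Place k F →₀ ℤ} {f : F} (hf : f ∈ LSpace D) :
    f ∈ LSpace (D - Finsupp.single v 1) ↔ v.val f < WithZero.exp (D v) := by
  classical
  constructor
  · intro h
    have := h v
    rw [exp_lt_iff_le_sub_one]
    simpa using this
  · intro h w
    by_cases hw : w = v
    · subst hw
      rw [exp_lt_iff_le_sub_one] at h
      simpa using h
    · have : (D - Finsupp.single v 1 : Place k F →₀ ℤ) w = D w := by
        rw [Finsupp.sub_apply, Finsupp.single_apply, if_neg (Ne.symm hw), sub_zero]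
      rw [this]
      exact hf w

theorem ker_leadMap (v : Place k F) (D : Place k F →₀ ℤ) (t : F)
    (ht : v.val t = WithZero.exp (-(D v))) :
    LinearMap.ker (leadMap v D t ht) = (LSpace (D - Finsupp.single v 1)).comap (LSpace D).subtype := by
  ext f
  rw [LinearMap.mem_ker, leadMap_eq_zero_iff, Submodule.mem_comap]
  exact (mem_LSpace_sub_single f.2).symm

theorem sub_single_le (v : Place k F) (D : Place k F →₀ ℤ) : D - Finsupp.single v 1 ≤ D := by
  intro w
  classical
  rw [Finsupp.sub_apply, Finsupp.single_apply]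
  split_ifs <;> omega

theorem finite_LSpace_of_sub (v : Place k F) (D : Place k F →₀ ℤ)
    (h : Module.Finite k (LSpace (D - Finsupp.single v 1))) : Module.Finite k (LSpace D) := by
  obtain ⟨t, ht⟩ := v.exists_val_eq_exp (-(D v))
  have hker : Module.Finite k (LinearMap.ker (leadMap v D t ht)) := by
    rw [ker_leadMap]
    exact Module.Finite.equiv (Submodule.comapSubtypeEquivOfLe (LSpace_mono (sub_single_le v D))).symm
  have hrange : Module.Finite k (LinearMap.range (leadMap v D t ht)) := inferInstance
  have hquot : Module.Finite k (LSpace D ⧸ LinearMap.ker (leadMap v D t ht)) :=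
    Module.Finite.equiv (LinearMap.quotKerEquivRange (leadMap v D t ht)).symm
  exact Module.Finite.of_submodule_quotient (LinearMap.ker (leadMap v D t ht))

theorem finrank_LSpace_le (v : Place k F) (D : Place k F →₀ ℤ)
    (h : Module.Finite k (LSpace (D - Finsupp.single v 1))) :
    Module.finrank k (LSpace D) ≤ Module.finrank k (LSpace (D - Finsupp.single v 1)) + v.deg := by
  obtain ⟨t, ht⟩ := v.exists_val_eq_exp (-(D v))
  have hfin := finite_LSpace_of_sub v D h
  have h1 := LinearMap.finrank_range_add_finrank_ker (leadMap v D t ht)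
  have h2 : Module.finrank k (LinearMap.ker (leadMap v D t ht)) =
      Module.finrank k (LSpace (D - Finsupp.single v 1)) := by
    rw [ker_leadMap]
    exact (Submodule.comapSubtypeEquivOfLe (LSpace_mono (sub_single_le v D))).finrank_eq
  have h3 : Module.finrank k (LinearMap.range (leadMap v D t ht)) ≤ v.deg :=
    Submodule.finrank_le _
  omega

theorem finite_LSpace_zero : Module.Finite k (LSpace (0 : Place k F →₀ ℤ)) := by
  obtain ⟨t, ht, -⟩ := IsFunctionField.exists_transcendental (k := k) (F := F)
  obtain ⟨v, -⟩ := Place.exists_of_transcendental' t ht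
  have h1 : (1 : F) ≠ 0 := one_ne_zero
  have ht1 : v.val (1 : F) = WithZero.exp (-((0 : Place k F →₀ ℤ) v)) := by simp
  apply Module.Finite.of_injective (leadMap v 0 1 ht1)
  rw [← LinearMap.ker_eq_bot, LinearMap.ker_eq_bot']
  intro f hf
  rw [leadMap_eq_zero_iff] at hf
  by_contra hne
  have hf0 : (f : F) ≠ 0 := fun h => hne (Subtype.ext h)
  have htr : Transcendental k (f : F) := by
    apply transcendental_of_val_ne_one hf0 (v := v)
    simp only [Finsupp.coe_zero, Pi.zero_apply, WithZero.exp_zero] at hf
    exact hf.ne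
  obtain ⟨w, hw⟩ := exists_pole_of_transcendental _ htr
  have := f.2 w
  simp only [Finsupp.coe_zero, Pi.zero_apply, WithZero.exp_zero] at this
  exact absurd this (not_le.mpr hw)

theorem finite_LSpace_add_single (v : Place k F) (D : Place k F →₀ ℤ)
    (h : Module.Finite k (LSpace D)) (n : ℕ) :
    Module.Finite k (LSpace (D + Finsupp.single v (n : ℤ))) ∧
    Module.finrank k (LSpace (D + Finsupp.single v (n : ℤ))) ≤
      Module.finrank k (LSpace D) + n * v.deg := by
  induction n with
  | zero =>
    have heq : D + Finsupp.single v ((0 : ℕ) : ℤ) = D := by simp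
    rw [heq]
    exact ⟨h, by omega⟩
  | succ n ih =>
    have heq : D + Finsupp.single v (n : ℤ) =
        (D + Finsupp.single v ((n + 1 : ℕ) : ℤ)) - Finsupp.single v 1 := by
      rw [add_sub_assoc, ← Finsupp.single_sub]
      congr 2
      push_cast
      ring
    rw [heq] at ih
    refine ⟨finite_LSpace_of_sub v _ ih.1, ?_⟩
    have := finrank_LSpace_le v _ ih.1
    calc _ ≤ _ := this
      _ ≤ _ := Nat.add_le_add_right ih.2 _
      _ = _ := by ring

theorem finite_LSpace_add (D : Place k F →₀ ℤ) (h : Module.Finite k (LSpace D))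
    (E : Place k F →₀ ℕ) :
    Module.Finite k (LSpace (D + E.mapRange (fun n : ℕ => (n : ℤ)) rfl)) ∧
    (Module.finrank k (LSpace (D + E.mapRange (fun n : ℕ => (n : ℤ)) rfl)) : ℤ) ≤
      Module.finrank k (LSpace D) + degD (E.mapRange (fun n : ℕ => (n : ℤ)) rfl) := by
  classical
  induction E using Finsupp.induction generalizing D with
  | zero =>
    have heq : D + (0 : Place k F →₀ ℕ).mapRange (fun n : ℕ => (n : ℤ)) rfl = D := by
      rw [Finsupp.mapRange_zero, add_zero]
    rw [heq, Finsupp.mapRange_zero, degD_zero, add_zero]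
    exact ⟨h, le_rfl⟩
  | single_add a b f ha hb ih =>
    have h1 := finite_LSpace_add_single a D h b
    have heq : D + (Finsupp.single a b + f).mapRange (fun n : ℕ => (n : ℤ)) rfl =
        (D + Finsupp.single a (b : ℤ)) + f.mapRange (fun n : ℕ => (n : ℤ)) rfl := by
      ext w
      simp only [Finsupp.add_apply, Finsupp.mapRange_apply, Nat.cast_add, Finsupp.single_apply]
      split_ifs <;> push_cast <;> ring
    have heq2 : (Finsupp.single a b + f).mapRange (fun n : ℕ => (n : ℤ)) rfl =
        Finsupp.single a (b : ℤ) + f.mapRange (fun n : ℕ => (n : ℤ)) rfl := by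
      ext w
      simp only [Finsupp.add_apply, Finsupp.mapRange_apply, Nat.cast_add, Finsupp.single_apply]
      split_ifs <;> push_cast <;> ring
    have h2 := ih _ h1.1
    rw [heq]
    refine ⟨h2.1, ?_⟩
    rw [heq2, degD_add, degD_single]
    have h3 := h2.2
    have h4 := h1.2
    have h5 : (Module.finrank k (LSpace (D + Finsupp.single a (b : ℤ))) : ℤ) ≤
        Module.finrank k (LSpace D) + b * a.deg := by exact_mod_cast h4
    linarith

theorem exists_nat_of_le {D E : Place k F →₀ ℤ} (h : D ≤ E) :
    ∃ G : Place k F →₀ ℕ, E = D + G.mapRange (fun n : ℕ => (n : ℤ)) rfl := by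
  refine ⟨(E - D).mapRange Int.toNat rfl, ?_⟩
  ext w
  have := h w
  simp only [Finsupp.add_apply, Finsupp.mapRange_apply, Finsupp.sub_apply]
  omega

theorem finite_LSpace_of_le {D E : Place k F →₀ ℤ} (h : D ≤ E)
    (hD : Module.Finite k (LSpace D)) : Module.Finite k (LSpace E) := by
  obtain ⟨G, rfl⟩ := exists_nat_of_le h
  exact (finite_LSpace_add D hD G).1

instance finite_LSpace (D : Place k F →₀ ℤ) : Module.Finite k (LSpace D) := by
  classical
  let E : Place k F →₀ ℤ := D.mapRange (fun n => max n 0) (by simp)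
  have h0E : 0 ≤ E := by
    intro w
    simp [E]
  have hDE : D ≤ E := by
    intro w
    simp [E]
  have h1 : Module.Finite k (LSpace E) := finite_LSpace_of_le h0E finite_LSpace_zero
  exact Module.Finite.of_injective (Submodule.inclusion (LSpace_mono hDE))
    (Submodule.inclusion_injective _)

/-- dimension of the Riemann-Roch space -/
noncomputable def ell (D : Place k F →₀ ℤ) : ℤ := Module.finrank k (LSpace D)

theorem ell_mono {D E : Place k F →₀ ℤ} (h : D ≤ E) : ell D ≤ ell E := by
  unfold ell
  exact_mod_cast Submodule.finrank_mono (LSpace_mono h)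

theorem ell_le {D E : Place k F →₀ ℤ} (h : D ≤ E) : ell E ≤ ell D + degD (E - D) := by
  obtain ⟨G, rfl⟩ := exists_nat_of_le h
  rw [add_sub_cancel_left]
  exact (finite_LSpace_add D inferInstance G).2

theorem ell_nonneg (D : Place k F →₀ ℤ) : 0 ≤ ell D := by unfold ell; positivity

end

end Pool.Agent.helper90.Zp
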