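import Pool.Agent.helper90.Zp.Riemann

open scoped Polynomial WithZero

set_option linter.unusedSectionVars false

namespace Pool.Agent.helper90.Zp

section

variable {k F : Type*} [Field k] [Field F] [Algebra k F] [IsFunctionField k F]

/-- the divisor of poles -/
noncomputable def poleDivisor (k : Type*) {F : Type*} [Field k] [Field F] [Algebra k F]
    [IsFunctionField k F] (x : F) : Place k F →₀ ℤ :=
  (divisor k x).mapRange (fun n => max (-n) 0) (by simp)

theorem poleDivisor_apply (x : F) (v : Place k F) : poleDivisor k x v = max (-(v.ord x)) 0 := rfl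

theorem poleDivisor_nonneg (x : F) : 0 ≤ poleDivisor k x := by
  intro v; simp [poleDivisor]

theorem mem_LSpace_poleDivisor (x : F) : x ∈ LSpace (poleDivisor k x) := by
  by_cases hx : x = 0
  · subst hx; exact Submodule.zero_mem _
  · rw [mem_LSpace_iff_ord hx]
    intro v
    rw [Finsupp.add_apply, divisor_apply, poleDivisor_apply, Finsupp.zero_apply]
    have := le_max_left (-(v.ord x)) 0
    linarith

theorem mul_mem_LSpace {D E : Place k F →₀ ℤ} {f g : F} (hf : f ∈ LSpace D) (hg : g ∈ LSpace E) :
    f * g ∈ LSpace (D + E) := by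
  intro v
  rw [map_mul, Finsupp.add_apply, WithZero.exp_add]
  gcongr
  · exact hf v
  · exact hg v

theorem one_mem_LSpace_zero : (1 : F) ∈ LSpace (0 : Place k F →₀ ℤ) := by
  intro v
  simp

theorem pow_mem_LSpace {D : Place k F →₀ ℤ} {f : F} (hf : f ∈ LSpace D) (n : ℕ) :
    f ^ n ∈ LSpace ((n : ℤ) • D) := by
  induction n with
  | zero => simpa using one_mem_LSpace_zero
  | succ n ih =>
    rw [pow_succ]
    have := mul_mem_LSpace ih hf
    have heq : ((n : ℤ) • D + D) = ((n + 1 : ℕ) : ℤ) • D := by
      push_cast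
      rw [add_smul, one_smul]
    rwa [heq] at this

theorem degD_poleDivisor_le {x : F} (hx : Transcendental k x) :
    degD (poleDivisor k x) ≤ Module.finrank (IntermediateField.adjoin k {x}) F := by
  classical
  have hx0 : x ≠ 0 := by rintro rfl; exact hx isAlgebraic_zero
  have hxi := transcendental_inv hx
  have hadj : IntermediateField.adjoin k {x⁻¹} = IntermediateField.adjoin k {x} := by
    apply le_antisymm
    · rw [IntermediateField.adjoin_simple_le_iff]
      exact inv_mem (IntermediateField.mem_adjoin_simple_self k x)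
    · rw [IntermediateField.adjoin_simple_le_iff]
      have := inv_mem (IntermediateField.mem_adjoin_simple_self k x⁻¹)
      rwa [inv_inv] at this
  have h1 := sum_ord_mul_deg_le_finrank hxi (poleDivisor k x).support (by
    intro v hv
    rw [Finsupp.mem_support_iff, poleDivisor_apply] at hv
    have : v.ord x < 0 := by
      by_contra! h
      apply hv
      rw [max_eq_right]; omega
    rw [v.val_eq_exp_neg_ord (inv_ne_zero hx0), v.ord_inv, neg_neg, ← WithZero.exp_zero,
      WithZero.exp_lt_exp]
    exact this)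
  rw [hadj] at h1
  have h2 : degD (poleDivisor k x) =
      ((∑ v ∈ (poleDivisor k x).support, (v.ord x⁻¹).toNat * v.deg : ℕ) : ℤ) := by
    unfold degD Finsupp.sum
    push_cast
    apply Finset.sum_congr rfl
    intro v _
    rw [poleDivisor_apply, v.ord_inv, Int.ofNat_toNat]
  rw [h2]
  exact_mod_cast h1

/-- Riemann's lower bound for multiples of a pole divisor. -/
theorem exists_lower {x : F} (hx : Transcendental k x) :
    ∃ C : Place k F →₀ ℤ, 0 ≤ C ∧ ∀ l : ℕ,
      ((l : ℤ) + 1) * Module.finrank (IntermediateField.adjoin k {x}) F ≤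
        ell ((l : ℤ) • poleDivisor k x + C) := by
  classical
  have hfin := finiteDimensional_adjoin hx
  set n := Module.finrank (IntermediateField.adjoin k {x}) F with hn
  let b := Module.finBasis (IntermediateField.adjoin k {x}) F
  let C : Place k F →₀ ℤ := ∑ i, poleDivisor k (b i)
  have hC0 : 0 ≤ C := Finset.sum_nonneg (fun i _ => poleDivisor_nonneg (b i))
  refine ⟨C, hC0, ?_⟩
  intro l
  have hbC : ∀ i, b i ∈ LSpace C := by
    intro i
    apply LSpace_mono _ (mem_LSpace_poleDivisor (b i))
    exact Finset.single_le_sum (fun i _ => poleDivisor_nonneg (b i)) (Finset.mem_univ i)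
  have hmem : ∀ ji : Fin (l + 1) × Fin n, x ^ (ji.1 : ℕ) * b ji.2 ∈
      LSpace ((l : ℤ) • poleDivisor k x + C) := by
    intro ji
    apply mul_mem_LSpace _ (hbC ji.2)
    apply LSpace_mono _ (pow_mem_LSpace (mem_LSpace_poleDivisor x) ji.1)
    intro v
    rw [Finsupp.smul_apply, Finsupp.smul_apply, smul_eq_mul, smul_eq_mul]
    have h1 := poleDivisor_nonneg (k := k) x v
    rw [Finsupp.zero_apply] at h1
    have h2 : ((ji.1 : ℕ) : ℤ) ≤ l := by have := ji.1.2; omega
    exact mul_le_mul_of_nonneg_right h2 h1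
  have hLI : LinearIndependent k (fun ji : Fin (l + 1) × Fin n =>
      (⟨x ^ (ji.1 : ℕ) * b ji.2, hmem ji⟩ : LSpace ((l : ℤ) • poleDivisor k x + C))) := by
    rw [Fintype.linearIndependent_iff]
    intro g hg
    have h1 : ∑ ji : Fin (l + 1) × Fin n, g ji • (x ^ (ji.1 : ℕ) * b ji.2) = 0 := by
      have := congrArg Subtype.val hg
      rw [Submodule.coe_sum] at this
      simpa using this
    have hbLI := Fintype.linearIndependent_iff.mp b.linearIndependent
    let P : Fin n → k[X] := fun i => ∑ j : Fin (l + 1), Polynomial.monomial (j : ℕ) (g (j, i))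
    have hPmem : ∀ i, Polynomial.aeval x (P i) ∈ IntermediateField.adjoin k {x} := by
      intro i
      apply IntermediateField.algebra_adjoin_le_adjoin
      rw [Algebra.adjoin_singleton_eq_range_aeval]
      exact ⟨P i, rfl⟩
    have h2 := hbLI (fun i => ⟨Polynomial.aeval x (P i), hPmem i⟩) (by
      rw [← h1, Fintype.sum_prod_type_right]
      apply Finset.sum_congr rfl
      intro i _
      rw [IntermediateField.smul_def, smul_eq_mul]
      change Polynomial.aeval x (P i) * b i = _
      rw [map_sum, Finset.sum_mul]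
      apply Finset.sum_congr rfl
      intro j _
      rw [Polynomial.aeval_monomial, Algebra.smul_def, mul_assoc])
    intro ji
    have h3 : Polynomial.aeval x (P ji.2) = 0 := congrArg Subtype.val (h2 ji.2)
    have h4 : P ji.2 = 0 := by
      by_contra hne
      exact hx ⟨P ji.2, hne, h3⟩
    have h5 := congrArg (fun q => Polynomial.coeff q (ji.1 : ℕ)) h4
    simp only [P, Polynomial.finsetSum_coeff, Polynomial.coeff_monomial, Polynomial.coeff_zero] at h5
    rw [Finset.sum_eq_single ji.1] at h5
    · simpa using h5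
    · intro j _ hj
      rw [if_neg]
      intro h
      exact hj (Fin.ext h)
    · intro h; exact absurd (Finset.mem_univ _) h
  have h6 := hLI.fintype_card_le_finrank
  rw [Fintype.card_prod, Fintype.card_fin, Fintype.card_fin] at h6
  unfold ell
  exact_mod_cast h6

theorem degD_smul (n : ℤ) (D : Place k F →₀ ℤ) : degD (n • D) = n * degD D := by
  unfold degD
  rw [Finsupp.sum_smul_index' (by intro i; simp), Finsupp.mul_sum]
  apply Finsupp.sum_congr
  intro v _
  rw [smul_eq_mul]; ring

theorem ell_le_of_nonneg {D : Place k F →₀ ℤ} (h : 0 ≤ D) :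
    ell D ≤ ell (0 : Place k F →₀ ℤ) + degD D := by
  have := ell_le h
  rwa [sub_zero] at this

theorem degD_poleDivisor {x : F} (hx : Transcendental k x) :
    degD (poleDivisor k x) = Module.finrank (IntermediateField.adjoin k {x}) F := by
  apply le_antisymm (degD_poleDivisor_le hx)
  obtain ⟨C, hC, hl⟩ := exists_lower hx
  by_contra! hlt
  set n : ℤ := ((Module.finrank (IntermediateField.adjoin k {x}) F : ℕ) : ℤ) with hn
  set d := degD (poleDivisor k x) with hd
  -- (l+1) n ≤ ell 0 + l d + deg C
  have hbound : ∀ l : ℕ, ((l : ℤ) + 1) * n ≤ ell (0 : Place k F →₀ ℤ) + (l * d + degD C) := by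
    intro l
    refine (hl l).trans ?_
    have h0 : 0 ≤ (l : ℤ) • poleDivisor k x + C := by
      apply add_nonneg _ hC
      intro v
      rw [Finsupp.smul_apply, smul_eq_mul]
      exact mul_nonneg (by positivity) (poleDivisor_nonneg x v)
    have := ell_le_of_nonneg h0
    rwa [degD_add, degD_smul] at this
  have h1 := hbound (ell (0 : Place k F →₀ ℤ) + degD C).toNat
  have h2 : 0 ≤ ell (0 : Place k F →₀ ℤ) + degD C :=
    add_nonneg (ell_nonneg _) (degD_nonneg hC)
  have h3 : (((ell (0 : Place k F →₀ ℤ) + degD C).toNat : ℕ) : ℤ) =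
      ell (0 : Place k F →₀ ℤ) + degD C := Int.toNat_of_nonneg h2
  rw [h3] at h1
  have hn0 : 0 < n := by
    have := degD_nonneg (poleDivisor_nonneg (k := k) x)
    omega
  nlinarith

theorem divisor_inv (x : F) : divisor k x⁻¹ = - divisor k x := by
  ext v
  rw [divisor_apply, v.ord_inv]; rfl

theorem divisor_mul {x y : F} (hx : x ≠ 0) (hy : y ≠ 0) :
    divisor k (x * y) = divisor k x + divisor k y := by
  ext v
  rw [divisor_apply, v.ord_mul hx hy]; rfl

theorem divisor_eq (x : F) : divisor k x = poleDivisor k x⁻¹ - poleDivisor k x := by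
  ext v
  rw [Finsupp.sub_apply, poleDivisor_apply, poleDivisor_apply, divisor_apply, v.ord_inv]
  omega

theorem degD_divisor {x : F} (hx : x ≠ 0) : degD (divisor k x) = 0 := by
  by_cases h : Transcendental k x
  · have hadj : IntermediateField.adjoin k {x⁻¹} = IntermediateField.adjoin k {x} := by
      apply le_antisymm
      · rw [IntermediateField.adjoin_simple_le_iff]
        exact inv_mem (IntermediateField.mem_adjoin_simple_self k x)
      · rw [IntermediateField.adjoin_simple_le_iff]
        have := inv_mem (IntermediateField.mem_adjoin_simple_self k x⁻¹)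
        rwa [inv_inv] at this
    rw [divisor_eq, degD_sub, degD_poleDivisor h, degD_poleDivisor (transcendental_inv h), hadj,
      sub_self]
  · have : divisor k x = 0 := by
      ext v
      rw [divisor_apply, Finsupp.zero_apply, v.ord_eq_zero_iff hx]
      by_contra hv
      exact h (transcendental_of_val_ne_one hx hv)
    rw [this, degD_zero]

theorem mul_mem_LSpace_sub_iff {D : Place k F →₀ ℤ} {z f : F} (hz : z ≠ 0) :
    z * f ∈ LSpace (D - divisor k z) ↔ f ∈ LSpace D := by
  constructor
  · intro h v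
    have := h v
    rw [map_mul, v.val_eq_exp_neg_ord hz, Finsupp.sub_apply, divisor_apply, sub_eq_neg_add,
      WithZero.exp_add] at this
    exact (mul_le_mul_iff_right₀ WithZero.exp_pos).mp this
  · intro h v
    rw [map_mul, v.val_eq_exp_neg_ord hz, Finsupp.sub_apply, divisor_apply, sub_eq_neg_add,
      WithZero.exp_add]
    exact (mul_le_mul_iff_right₀ WithZero.exp_pos).mpr (h v)

/-- multiplication by `z` -/
noncomputable def mulEquiv (D : Place k F →₀ ℤ) (z : F) (hz : z ≠ 0) :
    LSpace D ≃ₗ[k] LSpace (D - divisor k z) where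
  toFun f := ⟨z * f, (mul_mem_LSpace_sub_iff hz).mpr f.2⟩
  map_add' f g := Subtype.ext (mul_add _ _ _)
  map_smul' c f := Subtype.ext (by
    change z * (c • (f : F)) = c • (z * (f : F))
    rw [mul_smul_comm])
  invFun g := ⟨z⁻¹ * g, (mul_mem_LSpace_sub_iff hz).mp (by
    rw [← mul_assoc, mul_inv_cancel₀ hz, one_mul]; exact g.2)⟩
  left_inv f := Subtype.ext (by
    change z⁻¹ * (z * (f : F)) = f
    rw [← mul_assoc, inv_mul_cancel₀ hz, one_mul])
  right_inv g := Subtype.ext (by
    change z * (z⁻¹ * (g : F)) = g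
    rw [← mul_assoc, mul_inv_cancel₀ hz, one_mul])

theorem ell_sub_divisor (D : Place k F →₀ ℤ) {z : F} (hz : z ≠ 0) :
    ell (D - divisor k z) = ell D := by
  unfold ell
  rw [(mulEquiv D z hz).finrank_eq]

theorem ell_pos_iff (D : Place k F →₀ ℤ) : 0 < ell D ↔ ∃ z ∈ LSpace D, z ≠ 0 := by
  unfold ell
  rw [Nat.cast_pos, Module.finrank_pos_iff]
  constructor
  · intro h
    obtain ⟨z, hz⟩ := exists_ne (0 : LSpace D)
    exact ⟨z, z.2, fun h => hz (Subtype.ext h)⟩
  · rintro ⟨z, hz, hz0⟩
    exact ⟨⟨⟨z, hz⟩, 0, fun h => hz0 (congrArg Subtype.val h)⟩⟩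

variable (k F) in
/-- Riemann's inequality -/
theorem exists_riemann_bound : ∃ γ : ℤ, ∀ D : Place k F →₀ ℤ, degD D - ell D ≤ γ := by
  classical
  obtain ⟨x, hx, -⟩ := IsFunctionField.exists_transcendental (k := k) (F := F)
  obtain ⟨C, hC, hl⟩ := exists_lower hx
  have hd := degD_poleDivisor hx
  have hfin := finiteDimensional_adjoin hx
  set n : ℤ := ((Module.finrank (IntermediateField.adjoin k {x}) F : ℕ) : ℤ) with hn
  have hn0 : 0 < n := by
    rw [hn]
    exact_mod_cast Module.finrank_pos
  refine ⟨degD C - n, ?_⟩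
  intro D
  let D1 : Place k F →₀ ℤ := D.mapRange (fun n => max n 0) (by simp)
  have h0D1 : 0 ≤ D1 := by intro w; simp [D1]
  have hDD1 : D ≤ D1 := by intro w; simp [D1]
  -- choose l large
  obtain ⟨l, hlarge⟩ : ∃ l : ℕ, degD D1 < ((l : ℤ) + 1) * n := by
    refine ⟨(degD D1).toNat, ?_⟩
    have := Int.self_le_toNat (degD D1)
    nlinarith
  have h1 : 0 < ell ((l : ℤ) • poleDivisor k x + C - D1) := by
    have h2 := ell_le (show (l : ℤ) • poleDivisor k x + C - D1 ≤ (l : ℤ) • poleDivisor k x + C by
      rw [sub_le_self_iff]; exact h0D1)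
    rw [sub_sub_cancel] at h2
    have := hl l
    omega
  obtain ⟨z, hz, hz0⟩ := (ell_pos_iff _).mp h1
  rw [mem_LSpace_iff_ord hz0] at hz
  -- D2 = D1 - div z ≤ l B + C
  have h3 : D1 - divisor k z ≤ (l : ℤ) • poleDivisor k x + C := by
    intro v
    have := hz v
    simp only [Finsupp.add_apply, Finsupp.sub_apply, Finsupp.zero_apply] at this ⊢
    linarith
  have h4 := ell_le h3
  rw [ell_sub_divisor _ hz0, degD_sub, degD_sub, degD_divisor hz0, degD_add, degD_smul, hd] at h4
  have h5 := ell_le hDD1
  rw [degD_sub] at h5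
  have h6 := hl l
  nlinarith

variable (k F) in
/-- Riemann's theorem -/
theorem exists_riemann : ∃ g c : ℤ, (∀ D : Place k F →₀ ℤ, degD D - g ≤ ell D) ∧
    ∀ D : Place k F →₀ ℤ, c ≤ degD D → ell D = degD D - g := by
  classical
  obtain ⟨γ, hγ⟩ := exists_riemann_bound k F
  have hbdd : ∃ b : ℤ, ∀ z : ℤ, (∃ D : Place k F →₀ ℤ, degD D - ell D = z) → z ≤ b :=
    ⟨γ, by rintro z ⟨D, rfl⟩; exact hγ D⟩
  obtain ⟨g, ⟨D0, hD0⟩, hmax⟩ := Int.exists_greatest_of_bdd hbdd ⟨_, 0, rfl⟩
  refine ⟨g, degD D0 + γ + 1, ?_, ?_⟩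
  · intro D
    have := hmax _ ⟨D, rfl⟩
    linarith
  · intro D hD
    have h1 : 0 < ell (D - D0) := by
      have := hγ (D - D0)
      rw [degD_sub] at this
      linarith
    obtain ⟨z, hz, hz0⟩ := (ell_pos_iff _).mp h1
    rw [mem_LSpace_iff_ord hz0] at hz
    have h2 : D0 ≤ D - divisor k z⁻¹ := by
      intro v
      have := hz v
      simp only [Finsupp.add_apply, Finsupp.sub_apply, Finsupp.zero_apply, divisor_inv,
        Finsupp.neg_apply] at this ⊢
      linarith
    have h3 := ell_le h2
    rw [ell_sub_divisor _ (inv_ne_zero hz0), degD_sub, degD_sub, degD_divisor (inv_ne_zero hz0)] at h3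
    have h4 := hmax _ ⟨D, rfl⟩
    linarith

end

end Pool.Agent.helper90.Zp
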