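import Pool.Agent.helper90.Zp.Basic

open scoped Polynomial WithZero

namespace Pool.Agent.helper90.Zp

namespace Place

variable {k F : Type*} [Field k] [Field F] [Algebra k F] (v : Place k F)

theorem exists_uniformizer_aux [IsFunctionField k F] :
    ∃ π : F, π ≠ 0 ∧ v.ring.valuation π < 1 ∧
      ∀ x, v.ring.valuation x < 1 → v.ring.valuation x ≤ v.ring.valuation π := by
  set V := v.ring.valuation with hV
  obtain ⟨w, hw⟩ := v.exists_one_lt
  have hw0 : w ≠ 0 := by
    rintro rfl; rw [map_zero] at hw; exact absurd hw (not_lt.mpr zero_le_one)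
  have hy : V w⁻¹ < 1 := by
    rw [map_inv₀]; exact inv_lt_one_of_one_lt₀ hw
  have hfin := v.finite_values (inv_ne_zero hw0) hy
  obtain ⟨γ, ⟨π, hπγ, hπ1, hπ2⟩, hmax⟩ := Set.exists_max_image _ id hfin
    ⟨V w⁻¹, w⁻¹, rfl, le_rfl, hy⟩
  refine ⟨π, ?_, ?_, ?_⟩
  · rintro rfl
    rw [map_zero] at hπγ
    rw [← hπγ] at hπ1
    have := le_zero_iff.mp hπ1
    rw [map_eq_zero] at this
    exact inv_ne_zero hw0 this
  · rw [hπγ]; exact hπ2
  · intro x hx
    rw [hπγ]
    by_cases h : V w⁻¹ ≤ V x
    · exact hmax (V x) ⟨x, rfl, h, hx⟩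
    · exact (le_of_lt (not_le.mp h)).trans hπ1

instance isDiscreteValuationRing [IsFunctionField k F] : IsDiscreteValuationRing v.ring := by
  set V := v.ring.valuation with hV
  obtain ⟨π, hπ0, hπ1, hmax⟩ := v.exists_uniformizer_aux
  have hVπ0 : V π ≠ 0 := by rwa [ne_eq, map_eq_zero]
  have hπmem : π ∈ v.ring := (v.ring.valuation_le_one_iff _).mp hπ1.le
  apply IsDiscreteValuationRing.ofHasUnitMulPowIrreducibleFactorization
  refine ⟨⟨π, hπmem⟩, ?_, ?_⟩
  · constructor
    · intro hu
      have := (v.ring.valuation_eq_one_iff ⟨π, hπmem⟩).mp hu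
      exact hπ1.ne this
    · intro a b hab
      by_contra! hcon
      have ha : V (a : F) < 1 := by
        rcases v.ring.valuation_lt_one_or_eq_one a with h | h
        · exact h
        · exact absurd ((v.ring.valuation_eq_one_iff a).mpr h) hcon.1
      have hb : V (b : F) < 1 := by
        rcases v.ring.valuation_lt_one_or_eq_one b with h | h
        · exact h
        · exact absurd ((v.ring.valuation_eq_one_iff b).mpr h) hcon.2
      have hab' : π = (a : F) * b := congrArg Subtype.val hab
      have h1 : V π = V a * V b := by rw [hab', map_mul]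
      have h2 : V π ≤ V π * V b := by
        conv_lhs => rw [h1]
        gcongr
        exact hmax _ ha
      have h3 : V π * V b < V π * 1 := mul_lt_mul_of_pos_left hb (zero_lt_iff.mpr hVπ0)
      rw [mul_one] at h3
      exact absurd h2 (not_le.mpr h3)
  · intro x hx
    have hx0 : (x : F) ≠ 0 := by simpa using hx
    have hVx0 : V x ≠ 0 := by rwa [ne_eq, map_eq_zero]
    -- it suffices to find n with V x = V π ^ n
    suffices h : ∃ n : ℕ, V x = V π ^ n by
      obtain ⟨n, hn⟩ := h
      refine ⟨n, ?_⟩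
      have hu : V ((x : F) / π ^ n) = 1 := by
        rw [map_div₀, map_pow, hn, div_self (pow_ne_zero _ hVπ0)]
      have humem : (x : F) / π ^ n ∈ v.ring := (v.ring.valuation_le_one_iff _).mp hu.le
      have hunit : IsUnit (⟨(x : F) / π ^ n, humem⟩ : v.ring) :=
        (v.ring.valuation_eq_one_iff _).mpr hu
      obtain ⟨u, hu'⟩ := hunit
      refine ⟨u, ?_⟩
      apply Subtype.ext
      rw [hu']
      change π ^ n * ((x : F) / π ^ n) = x
      rw [mul_div_cancel₀ _ (pow_ne_zero _ hπ0)]
    by_cases hx1 : V (x : F) = 1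
    · exact ⟨0, by rw [pow_zero, hx1]⟩
    have hxlt : V (x : F) < 1 := lt_of_le_of_ne (v.ring.valuation_le_one x) hx1
    -- finitely many powers of π above V x
    have hfin := v.finite_values hx0 hxlt
    have : ∃ n : ℕ, V π ^ n < V x := by
      by_contra! hcon
      have hinj : Function.Injective (fun n : ℕ => V π ^ (n + 1)) := by
        intro a b hab
        have := pow_right_injective₀ (zero_lt_iff.mpr hVπ0) hπ1.ne hab
        omega
      refine (Set.infinite_range_of_injective hinj) (hfin.subset ?_)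
      rintro _ ⟨n, rfl⟩
      refine ⟨π ^ (n + 1), by rw [map_pow], hcon _, ?_⟩
      exact pow_lt_one₀ zero_le hπ1 (by omega)
    classical
    let n := Nat.find this
    have hn : V π ^ n < V x := Nat.find_spec this
    have hn0 : n ≠ 0 := by
      intro h0
      rw [h0, pow_zero] at hn
      exact absurd hn (not_lt.mpr hxlt.le)
    obtain ⟨m, hm⟩ := Nat.exists_eq_succ_of_ne_zero hn0
    have hm1 : V x ≤ V π ^ m := by
      have := Nat.find_min this (show m < n by omega)
      exact not_lt.mp this
    refine ⟨m, le_antisymm hm1 ?_⟩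
    by_contra! hlt
    have h1 : V ((x : F) / π ^ m) < 1 := by
      rw [map_div₀, map_pow]
      exact (div_lt_one₀ (pow_pos (zero_lt_iff.mpr hVπ0) m)).mpr hlt
    have h2 := hmax _ h1
    rw [map_div₀, map_pow, div_le_iff₀ (pow_pos (zero_lt_iff.mpr hVπ0) m), ← pow_succ'] at h2
    rw [hm] at hn
    exact absurd h2 (not_le.mpr hn)

variable [IsFunctionField k F]

/-- The normalized discrete valuation attached to a place, written multiplicatively:
`v.val x = exp (- ord_v x)`. -/
noncomputable def val : Valuation F ℤᵐ⁰ :=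
  (IsDiscreteValuationRing.maximalIdeal v.ring).valuation F

theorem val_le_one_iff (x : F) : v.val x ≤ 1 ↔ x ∈ v.ring := by
  constructor
  · intro h
    obtain ⟨a, rfl⟩ := IsDiscreteValuationRing.exists_lift_of_le_one h
    exact a.2
  · intro h
    exact IsDedekindDomain.HeightOneSpectrum.valuation_le_one _ (⟨x, h⟩ : v.ring)

theorem val_isEquiv : v.val.IsEquiv v.ring.valuation := by
  rw [Valuation.isEquiv_iff_val_le_one]
  intro x
  rw [val_le_one_iff, v.ring.valuation_le_one_iff]

theorem val_lt_one_iff (x : F) : v.val x < 1 ↔ v.ring.valuation x < 1 :=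
  v.val_isEquiv.lt_one_iff_lt_one

theorem val_lt_one_iff_mem (x : v.ring) :
    v.val (x : F) < 1 ↔ x ∈ IsLocalRing.maximalIdeal v.ring := by
  rw [val_lt_one_iff, v.ring.valuation_lt_one_iff]

instance : v.val.IsTrivialOn k := v.val_isEquiv.symm.isTrivialOn inferInstance

theorem exists_val_eq : ∃ π : F, v.val π = WithZero.exp (-1 : ℤ) := by
  exact IsDedekindDomain.HeightOneSpectrum.valuation_exists_uniformizer F _

theorem exists_val_eq_exp (n : ℤ) : ∃ π : F, v.val π = WithZero.exp n := by
  obtain ⟨π, hπ⟩ := v.exists_val_eq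
  refine ⟨π ^ (-n), ?_⟩
  rw [map_zpow₀, hπ, ← WithZero.exp_zsmul]
  simp

/-- the order of `x` at the place `v`, equal to `0` for `x = 0` -/
noncomputable def ord (x : F) : ℤ := - WithZero.log (v.val x)

theorem val_eq_exp_neg_ord {x : F} (hx : x ≠ 0) : v.val x = WithZero.exp (- v.ord x) := by
  rw [ord, neg_neg, WithZero.exp_log]
  rwa [ne_eq, map_eq_zero]

theorem ord_mul {x y : F} (hx : x ≠ 0) (hy : y ≠ 0) : v.ord (x * y) = v.ord x + v.ord y := by
  rw [ord, ord, ord, map_mul, WithZero.log_mul]
  · ring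
  · rwa [ne_eq, map_eq_zero]
  · rwa [ne_eq, map_eq_zero]

theorem ord_one : v.ord (1 : F) = 0 := by simp [ord]

theorem ord_zero : v.ord (0 : F) = 0 := by simp [ord]

theorem ord_inv (x : F) : v.ord x⁻¹ = - v.ord x := by
  rw [ord, ord, map_inv₀, WithZero.log_inv]

theorem ord_pow (x : F) (n : ℕ) : v.ord (x ^ n) = n * v.ord x := by
  rw [ord, ord, map_pow, WithZero.log_pow]
  simp

end Place

end Pool.Agent.helper90.Zp
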