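import Pool.Agent.helper90.Zp.Residue

open scoped Polynomial WithZero

namespace Pool.Agent.helper90.Zp

section

variable {k F : Type*} [Field k] [Field F] [Algebra k F] [IsFunctionField k F]

/-- absolute value attached to a place -/
noncomputable def Place.abv (v : Place k F) : AbsoluteValue F ℝ :=
  (IsDiscreteValuationRing.maximalIdeal v.ring).adicAbv (b := 2) one_lt_two

theorem Place.abv_def (v : Place k F) (x : F) :
    v.abv x = (WithZeroMulInt.toNNReal (e := 2) two_ne_zero (v.val x) : ℝ) := rfl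

theorem Place.abv_le_iff (v : Place k F) (x y : F) : v.abv x ≤ v.abv y ↔ v.val x ≤ v.val y := by
  rw [abv_def, abv_def, NNReal.coe_le_coe]
  exact (WithZeroMulInt.toNNReal_strictMono one_lt_two).le_iff_le

theorem Place.abv_le_one_iff (v : Place k F) (x : F) : v.abv x ≤ 1 ↔ x ∈ v.ring := by
  have := v.abv_le_iff x 1
  rw [map_one, map_one, v.val_le_one_iff] at this
  exact this

omit [IsFunctionField k F] in
theorem Place.ext_ring {v w : Place k F} (h : v.ring = w.ring) : v = w := by
  cases v; cases w; simp_all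

theorem Place.abv_not_isEquiv {v w : Place k F} (h : v ≠ w) : ¬ v.abv.IsEquiv w.abv := by
  intro he
  apply h
  apply Place.ext_ring
  ext x
  rw [← v.abv_le_one_iff, ← w.abv_le_one_iff, he.le_one_iff]

theorem Place.abv_isNontrivial (v : Place k F) : v.abv.IsNontrivial := by
  obtain ⟨w, hw⟩ := v.exists_one_lt
  refine ⟨w, ?_, ?_⟩
  · rintro rfl; rw [map_zero] at hw; exact absurd hw (not_lt.mpr zero_le_one)
  · intro h
    have := (v.abv_le_one_iff w).mp h.le
    rw [← v.ring.valuation_le_one_iff] at this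
    exact absurd hw (not_lt.mpr this)

/-- weak approximation -/
theorem weak_approximation (W : Finset (Place k F)) (a : Place k F → F) (N : ℕ) :
    ∃ f : F, ∀ v ∈ W, v.val (f - a v) ≤ WithZero.exp (-(N : ℤ)) := by
  have hdense := AbsoluteValue.denseRange_algebraMap_pi (F := F) (ι := W)
    (v := fun w => w.1.abv) (fun w => w.1.abv_isNontrivial)
    (by
      intro i j hij
      exact Place.abv_not_isEquiv (fun h => hij (Subtype.ext h)))
  rw [Metric.denseRange_iff] at hdense
  obtain ⟨f, hf⟩ := hdense (fun w => (WithAbs.equiv w.1.abv).symm (a w.1)) ((2 : ℝ)⁻¹ ^ N)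
    (by positivity)
  refine ⟨f, ?_⟩
  intro v hv
  rw [dist_pi_lt_iff (by positivity)] at hf
  have h1 := hf ⟨v, hv⟩
  rw [dist_comm, dist_eq_norm] at h1
  have h2 : v.abv (f - a v) < (2 : ℝ)⁻¹ ^ N := by
    rw [WithAbs.norm_eq_apply_ofAbs] at h1
    exact h1
  rw [v.abv_def] at h2
  have h3 : ((2 : ℝ)⁻¹ ^ N) =
      (WithZeroMulInt.toNNReal (e := 2) two_ne_zero (WithZero.exp (-(N : ℤ))) : ℝ) := by
    rw [WithZeroMulInt.toNNReal_neg_apply _ WithZero.exp_ne_zero]
    have hz : ∀ (h : (WithZero.exp (-(N : ℤ)) : ℤᵐ⁰) ≠ 0),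
        Multiplicative.toAdd (WithZero.unzero h) = -(N : ℤ) := fun h => rfl
    rw [hz]
    simp
  rw [h3, NNReal.coe_lt_coe] at h2
  exact ((WithZeroMulInt.toNNReal_strictMono one_lt_two).lt_iff_lt.mp h2).le

end

end Pool.Agent.helper90.Zp
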