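import Pool.Agent.helper90.Zp.Weak

open scoped Polynomial WithZero

namespace Pool.Agent.helper90.Zp

section

variable {k F : Type*} [Field k] [Field F] [Algebra k F]

open scoped IntermediateField.algebraAdjoinAdjoin in
theorem linearIndependent_of_mod {ι : Type*} [Fintype ι] {x : F} (hx : Transcendental k x)
    (R : Submodule k F) (hR : ∀ f ∈ R, x * f ∈ R) (f : ι → F) (hf : ∀ i, f i ∈ R)
    (h : ∀ a : ι → k, (∃ g ∈ R, ∑ i, a i • f i = x * g) → a = 0) :
    LinearIndependent (IntermediateField.adjoin k {x}) f := by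
  classical
  have hx0 : x ≠ 0 := by
    rintro rfl
    exact hx (isAlgebraic_zero)
  rw [← LinearIndependent.iff_fractionRing (Algebra.adjoin k {x}) (IntermediateField.adjoin k {x})]
  rw [Fintype.linearIndependent_iff]
  intro c hc
  have hP : ∀ i, ∃ P : k[X], Polynomial.aeval x P = (c i : F) := by
    intro i
    have h1 : (c i : F) ∈ (Polynomial.aeval x : k[X] →ₐ[k] F).range := by
      rw [← Algebra.adjoin_singleton_eq_range_aeval]
      exact (c i).2
    obtain ⟨P, hP⟩ := h1
    exact ⟨P, hP⟩
  choose P hP using hP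
  have hsum : ∑ i, Polynomial.aeval x (P i) * f i = 0 := by
    rw [← hc]
    apply Finset.sum_congr rfl
    intro i _
    rw [hP]; rfl
  by_contra! hne
  obtain ⟨i1, hi1⟩ := hne
  have hPi1 : P i1 ≠ 0 := by
    intro h0
    apply hi1
    apply Subtype.ext
    rw [← hP i1, h0, map_zero]
    rfl
  obtain ⟨i0, hi0, hmin⟩ := Finset.exists_min_image (Finset.univ.filter (fun i => P i ≠ 0))
    (fun i => (P i).natTrailingDegree) ⟨i1, by simp [hPi1]⟩
  have hPi0 : P i0 ≠ 0 := (Finset.mem_filter.mp hi0).2
  set m := (P i0).natTrailingDegree with hm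
  have hdvd : ∀ i, ∃ Q : k[X], P i = Polynomial.X ^ m * Q := by
    intro i
    by_cases h0 : P i = 0
    · exact ⟨0, by rw [h0, mul_zero]⟩
    · have hle := hmin i (by simp [h0])
      have : Polynomial.X ^ m ∣ P i := by
        rw [Polynomial.X_pow_dvd_iff]
        intro d hd
        exact Polynomial.coeff_eq_zero_of_lt_natTrailingDegree (lt_of_lt_of_le hd hle)
      exact this
  choose Q hQ using hdvd
  have hQi0 : (Q i0).coeff 0 ≠ 0 := by
    have h1 : (P i0).coeff m ≠ 0 := by
      rw [hm]
      exact (Polynomial.trailingCoeff_nonzero_iff_nonzero).mpr hPi0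
    rw [hQ i0, Polynomial.coeff_X_pow_mul'] at h1
    simpa using h1
  have hsum2 : ∑ i, Polynomial.aeval x (Q i) * f i = 0 := by
    have : x ^ m * ∑ i, Polynomial.aeval x (Q i) * f i = 0 := by
      rw [Finset.mul_sum, ← hsum]
      apply Finset.sum_congr rfl
      intro i _
      rw [hQ i, map_mul, map_pow, Polynomial.aeval_X, mul_assoc]
    rcases mul_eq_zero.mp this with h' | h'
    · exact absurd h' (pow_ne_zero _ hx0)
    · exact h'
  -- polynomials in x preserve R
  have hRpoly : ∀ (q : k[X]) (g : F), g ∈ R → Polynomial.aeval x q * g ∈ R := by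
    intro q g hg
    induction q using Polynomial.induction_on' with
    | add p q hp hq => rw [map_add, add_mul]; exact R.add_mem hp hq
    | monomial n a =>
      rw [Polynomial.aeval_monomial, mul_assoc, ← Algebra.smul_def]
      apply R.smul_mem
      induction n with
      | zero => simpa using hg
      | succ n ih => rw [pow_succ', mul_assoc]; exact hR _ ih
  have key := h (fun i => (Q i).coeff 0) ⟨- ∑ i, Polynomial.aeval x (Q i).divX * f i, ?_, ?_⟩
  · exact hQi0 (congrFun key i0)
  · apply R.neg_mem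
    apply R.sum_mem
    intro i _
    exact hRpoly _ _ (hf i)
  · rw [mul_neg, eq_neg_iff_add_eq_zero, Finset.mul_sum, ← Finset.sum_add_distrib, ← hsum2]
    apply Finset.sum_congr rfl
    intro i _
    conv_rhs => rw [← Polynomial.X_mul_divX_add (Q i), map_add, map_mul, Polynomial.aeval_X,
      Polynomial.aeval_C, add_mul]
    rw [Algebra.smul_def]
    ring

variable [IsFunctionField k F]

/-- For finitely many zeros `v` of `x`, `∑ ord_v(x) deg v ≤ [F : k(x)]`. -/
theorem sum_ord_mul_deg_le_finrank {x : F} (hx : Transcendental k x) (W : Finset (Place k F))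
    (hW : ∀ v ∈ W, v.val x < 1) :
    ∑ v ∈ W, (v.ord x).toNat * v.deg ≤ Module.finrank (IntermediateField.adjoin k {x}) F := by
  classical
  have hx0 : x ≠ 0 := by rintro rfl; exact hx isAlgebraic_zero
  have hfin := finiteDimensional_adjoin hx
  -- index type
  let ι := Σ v : W, Fin ((v.1.ord x).toNat) × Fin (v.1.deg)
  have hcard : Fintype.card ι = ∑ v ∈ W, (v.ord x).toNat * v.deg := by
    rw [Fintype.card_sigma]
    simp only [Fintype.card_prod, Fintype.card_fin]
    exact Finset.sum_coe_sort W (fun v => (v.ord x).toNat * v.deg)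
  rw [← hcard]
  have hord : ∀ v ∈ W, (((v.ord x).toNat : ℕ) : ℤ) = v.ord x := by
    intro v hv
    have h1 := hW v hv
    rw [v.val_eq_exp_neg_ord hx0, ← WithZero.exp_zero, WithZero.exp_lt_exp] at h1
    omega
  -- uniformizers and lifts of residue bases
  choose π hπ using fun v : Place k F => v.exists_val_eq
  have hlift : ∀ v : Place k F, ∃ s : Fin v.deg → v.ring,
      LinearIndependent k (fun j => IsLocalRing.residue v.ring (s j)) := by
    intro v
    let b := Module.finBasis k (IsLocalRing.ResidueField v.ring)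
    choose s hs using fun j => IsLocalRing.residue_surjective (R := v.ring) (b j)
    refine ⟨s, ?_⟩
    have : (fun j => IsLocalRing.residue v.ring (s j)) = b := funext hs
    have hb := b.linearIndependent
    rw [← this] at hb
    exact hb
  choose s hs using hlift
  -- approximating functions
  let N := ∑ v ∈ W, (v.ord x).toNat
  have hN : ∀ v ∈ W, (v.ord x).toNat ≤ N := fun v hv =>
    Finset.single_le_sum (f := fun v : Place k F => (v.ord x).toNat) (fun _ _ => Nat.zero_le _) hv
  have hf : ∀ t : ι, ∃ f : F, ∀ v ∈ W,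
      v.val (f - (if v = t.1.1 then π t.1.1 ^ (t.2.1 : ℕ) * (s t.1.1 t.2.2 : F) else 0)) ≤
        WithZero.exp (-(N : ℤ)) := fun t =>
    weak_approximation W (fun v => if v = t.1.1 then π t.1.1 ^ (t.2.1 : ℕ) * (s t.1.1 t.2.2 : F)
      else 0) N
  choose f hf using hf
  -- the ring
  let R : Submodule k F :=
    { carrier := {g | ∀ v ∈ W, g ∈ v.ring}
      add_mem' := fun ha hb v hv => v.ring.add_mem _ _ (ha v hv) (hb v hv)
      zero_mem' := fun v _ => v.ring.zero_mem
      smul_mem' := fun c g hg v hv => by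
        rw [Algebra.smul_def]
        exact v.ring.mul_mem _ _ (v.algebraMap_mem c) (hg v hv) }
  have hπs : ∀ (v : Place k F) (i : ℕ) (j), v.val (π v ^ i * (s v j : F)) ≤ 1 := by
    intro v i j
    rw [v.val_le_one_iff]
    apply v.ring.mul_mem
    · apply pow_mem
      rw [← v.val_le_one_iff, hπ, ← WithZero.exp_zero, WithZero.exp_le_exp]
      norm_num
    · exact (s v j).2
  have hexpN : ∀ v ∈ W, (WithZero.exp (-(N : ℤ)) : ℤᵐ⁰) ≤ WithZero.exp (-(v.ord x)) := by
    intro v hv
    rw [WithZero.exp_le_exp, ← hord v hv]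
    have := hN v hv
    omega
  have hexp1 : ∀ v ∈ W, (WithZero.exp (-(v.ord x)) : ℤᵐ⁰) ≤ 1 := by
    intro v hv
    rw [← v.val_eq_exp_neg_ord hx0]
    exact (hW v hv).le
  have hfR : ∀ t : ι, f t ∈ R := by
    intro t v hv
    rw [← v.val_le_one_iff]
    have h1 := (hf t v hv).trans ((hexpN v hv).trans (hexp1 v hv))
    have h2 : v.val (if v = t.1.1 then π t.1.1 ^ (t.2.1 : ℕ) * (s t.1.1 t.2.2 : F) else 0) ≤ 1 := by
      split_ifs with h
      · subst h; exact hπs _ _ _
      · simp
    have := v.val.map_add (f t - (if v = t.1.1 then π t.1.1 ^ (t.2.1 : ℕ) *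
      (s t.1.1 t.2.2 : F) else 0)) (if v = t.1.1 then π t.1.1 ^ (t.2.1 : ℕ) *
      (s t.1.1 t.2.2 : F) else 0)
    rw [sub_add_cancel] at this
    exact this.trans (max_le h1 h2)
  have hxR : ∀ g ∈ R, x * g ∈ R := by
    intro g hg v hv
    apply v.ring.mul_mem _ _ _ (hg v hv)
    rw [← v.val_le_one_iff]
    exact (hW v hv).le
  have hLI : LinearIndependent (IntermediateField.adjoin k {x}) f := by
    apply linearIndependent_of_mod hx R hxR f hfR
    rintro a ⟨g, hgR, hg⟩
    by_contra! hane
    obtain ⟨t0, ht0⟩ := Function.ne_iff.mp hane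
    -- work at the place v = t0.1
    obtain ⟨v, hv⟩ := t0.1
    set vv : W := t0.1 with hvv
    have hvW : vv.1 ∈ W := vv.2
    -- the sum at vv
    have hval : vv.1.val (∑ ij : Fin ((vv.1.ord x).toNat) × Fin (vv.1.deg),
        a ⟨vv, ij⟩ • (π vv.1 ^ (ij.1 : ℕ) * (s vv.1 ij.2 : F))) ≤
          WithZero.exp (-(vv.1.ord x)) := by
      have h1 : (∑ ij : Fin ((vv.1.ord x).toNat) × Fin (vv.1.deg),
        a ⟨vv, ij⟩ • (π vv.1 ^ (ij.1 : ℕ) * (s vv.1 ij.2 : F))) =
          x * g - ∑ t : ι, a t • (f t - (if vv.1 = t.1.1 then π t.1.1 ^ (t.2.1 : ℕ) *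
            (s t.1.1 t.2.2 : F) else 0)) := by
        rw [← hg]
        simp only [smul_sub]
        rw [Finset.sum_sub_distrib, sub_sub_cancel]
        rw [Fintype.sum_sigma]
        rw [Finset.sum_eq_single vv]
        · apply Finset.sum_congr rfl
          intro ij _
          simp
        · intro b _ hb
          apply Finset.sum_eq_zero
          intro ij _
          rw [if_neg, smul_zero]
          intro h'
          exact hb (Subtype.ext h').symm
        · intro h'; exact absurd (Finset.mem_univ _) h'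
      rw [h1]
      refine (vv.1.val.map_sub _ _).trans (max_le ?_ ?_)
      · rw [map_mul, vv.1.val_eq_exp_neg_ord hx0]
        conv_rhs => rw [← mul_one (WithZero.exp (-(vv.1.ord x)))]
        gcongr
        rw [vv.1.val_le_one_iff]
        exact hgR _ hvW
      · apply vv.1.val.map_sum_le
        intro t _
        rw [Algebra.smul_def, map_mul]
        have hc1 : vv.1.val (algebraMap k F (a t)) ≤ 1 := by
          rw [vv.1.val_le_one_iff]
          exact vv.1.algebraMap_mem _
        have hc2 := (hf t _ hvW).trans (hexpN _ hvW)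
        calc _ ≤ 1 * vv.1.val (f t - if vv.1 = t.1.1 then π t.1.1 ^ (t.2.1 : ℕ) *
              (s t.1.1 t.2.2 : F) else 0) := by gcongr
          _ ≤ _ := by rw [one_mul]; exact hc2
    -- group by i
    have hex : ∃ i, ∃ j, a ⟨vv, (i, j)⟩ ≠ 0 := ⟨t0.2.1, t0.2.2, ht0⟩
    let S : Finset (Fin ((vv.1.ord x).toNat)) :=
      Finset.univ.filter (fun i => ∃ j, a ⟨vv, (i, j)⟩ ≠ 0)
    have hSne : S.Nonempty := by
      obtain ⟨i, hi⟩ := hex
      exact ⟨i, by simp [S, hi]⟩
    obtain ⟨i0, hi0, hi0min⟩ := Finset.exists_min_image S id hSne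
    have hi0' : ∃ j, a ⟨vv, (i0, j)⟩ ≠ 0 := (Finset.mem_filter.mp hi0).2
    rw [Fintype.sum_prod_type] at hval
    have hinner : ∀ i, (∃ j, a ⟨vv, (i, j)⟩ ≠ 0) → vv.1.val (∑ j, a ⟨vv, (i, j)⟩ •
        (π vv.1 ^ (i : ℕ) * (s vv.1 j : F))) = WithZero.exp (-(i : ℤ)) := by
      intro i hi
      have h1 : ∑ j, a ⟨vv, (i, j)⟩ • (π vv.1 ^ (i : ℕ) * (s vv.1 j : F)) =
          π vv.1 ^ (i : ℕ) * ((∑ j, a ⟨vv, (i, j)⟩ • s vv.1 j : vv.1.ring) : F) := by
        push_cast
        rw [Finset.mul_sum]
        apply Finset.sum_congr rfl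
        intro j _
        rw [Algebra.smul_def, Algebra.smul_def]
        push_cast
        rw [Place.algebraMap_ring_apply]
        ring
      rw [h1, map_mul, map_pow, hπ]
      have h2 : vv.1.val ((∑ j, a ⟨vv, (i, j)⟩ • s vv.1 j : vv.1.ring) : F) = 1 := by
        apply le_antisymm
        · rw [vv.1.val_le_one_iff]; exact Subtype.mem _
        · by_contra! hlt
          rw [vv.1.val_lt_one_iff, ← vv.1.residue_eq_zero_iff, map_sum] at hlt
          have hLI2 := Fintype.linearIndependent_iff.mp (hs vv.1) (fun j => a ⟨vv, (i, j)⟩) (by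
            rw [← hlt]
            apply Finset.sum_congr rfl
            intro j _
            rw [Algebra.smul_def, Algebra.smul_def, map_mul]
            rfl)
          obtain ⟨j, hj⟩ := hi
          exact hj (hLI2 j)
      rw [h2, mul_one, ← WithZero.exp_nsmul]
      simp
    have hsumval : vv.1.val (∑ i, ∑ j, a ⟨vv, (i, j)⟩ • (π vv.1 ^ (i : ℕ) * (s vv.1 j : F))) =
        vv.1.val (∑ j, a ⟨vv, (i0, j)⟩ • (π vv.1 ^ (i0 : ℕ) * (s vv.1 j : F))) := by
      apply Valuation.map_sum_eq_of_lt _ (Finset.mem_univ i0)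
      intro i hi
      rw [hinner i0 hi0']
      rw [Finset.mem_sdiff, Finset.mem_singleton] at hi
      by_cases hiS : ∃ j, a ⟨vv, (i, j)⟩ ≠ 0
      · rw [hinner i hiS, WithZero.exp_lt_exp]
        have h1 := hi0min i (by simp only [S, Finset.mem_filter, Finset.mem_univ, true_and]; exact hiS)
        have h2 : i0 < i := lt_of_le_of_ne h1 (Ne.symm hi.2)
        have h3 : (i0 : ℕ) < (i : ℕ) := h2
        omega
      · push Not at hiS
        have : ∑ j, a ⟨vv, (i, j)⟩ • (π vv.1 ^ (i : ℕ) * (s vv.1 j : F)) = 0 := by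
          apply Finset.sum_eq_zero
          intro j _
          rw [hiS j, zero_smul]
        rw [this, map_zero]
        exact WithZero.exp_pos
    have hval' : vv.1.val (∑ i, ∑ j, a ⟨vv, (i, j)⟩ • (π vv.1 ^ (i : ℕ) * (s vv.1 j : F))) ≤
        WithZero.exp (-(vv.1.ord x)) := hval
    rw [hsumval, hinner i0 hi0', WithZero.exp_le_exp] at hval'
    have h4 := hord vv.1 hvW
    have h5 := i0.2
    omega
  exact hLI.fintype_card_le_finrank

end

end Pool.Agent.helper90.Zp
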